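import Pool.Agent.Lib.MP_9f2731_nt.BT.Spec
import Pool.Agent.Lib.MP_aa9ae4_nt.Mertens

/-! Mertens' theorem for one scale. -/

namespace Pool.Agent.Lib.MP_9f2731_nt.BT

open Finset
open Pool.Agent.Lib.MP_aa9ae4_nt (mertensA mertensS mertensA_le mertens_step)

/-- Legendre's formula as an upper bound for `log n!` -/
lemma mert_fact (n : ℕ) : Real.log (Nat.factorial n) ≤
    ∑ p ∈ (Icc 1 n).filter Nat.Prime, (n : ℝ) / ((p : ℝ) - 1) * Real.log p := by
  rw [Real.log_nat_eq_sum_factorization, Finsupp.sum]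
  have h1 : ∀ p ∈ (Icc 1 n).filter Nat.Prime,
      ((Nat.factorial n).factorization p : ℝ) ≤ (n : ℝ) / ((p : ℝ) - 1) := by
    intro p hp
    simp only [Finset.mem_filter, Finset.mem_Icc] at hp
    haveI : Fact p.Prime := ⟨hp.2⟩
    have h2 := sub_one_mul_padicValNat_factorial (p := p) n
    have h3 : (p - 1) * padicValNat p (Nat.factorial n) ≤ n := by
      rw [h2]
      exact Nat.sub_le _ _
    have h4 : (1 : ℝ) < p := by exact_mod_cast hp.2.one_lt
    rw [le_div_iff₀ (by linarith), Nat.factorization_def _ hp.2]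
    have h5 : (((p - 1) * padicValNat p (Nat.factorial n) : ℕ) : ℝ) ≤ n := by exact_mod_cast h3
    rw [Nat.cast_mul, Nat.cast_sub hp.2.one_lt.le, Nat.cast_one] at h5
    linarith
  have hlog : ∀ p : ℕ, 0 ≤ Real.log p := fun p => Real.log_natCast_nonneg p
  calc ∑ p ∈ (Nat.factorial n).factorization.support,
          ((Nat.factorial n).factorization p : ℝ) * Real.log p
      ≤ ∑ p ∈ (Icc 1 n).filter Nat.Prime,
          ((Nat.factorial n).factorization p : ℝ) * Real.log p := by
        refine Finset.sum_le_sum_of_subset_of_nonneg ?_ ?_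
        · intro p hp
          rw [Nat.support_factorization, Nat.mem_primeFactors] at hp
          rw [Finset.mem_filter, Finset.mem_Icc]
          exact ⟨⟨hp.1.pos, (hp.1.dvd_factorial).1 hp.2.1⟩, hp.1⟩
        · intro p _ _
          exact mul_nonneg (Nat.cast_nonneg _) (hlog p)
    _ ≤ _ := Finset.sum_le_sum fun p hp => mul_le_mul_of_nonneg_right (h1 p hp) (hlog p)

lemma mert_log_fact (n : ℕ) (hn : 1 ≤ n) :
    (n : ℝ) * Real.log n - n ≤ Real.log (Nat.factorial n) := by
  have hn0 : (0 : ℝ) < n := by exact_mod_cast hn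
  have h1 := Real.pow_div_factorial_le_exp (n : ℝ) hn0.le n
  have hf : (0 : ℝ) < (Nat.factorial n : ℝ) := by exact_mod_cast Nat.factorial_pos n
  have h2 : Real.log ((n : ℝ) ^ n / (Nat.factorial n : ℝ)) ≤ Real.log (Real.exp n) :=
    Real.log_le_log (by positivity) h1
  rw [Real.log_exp, Real.log_div (by positivity) hf.ne', Real.log_pow] at h2
  linarith

lemma mert_log_le (x : ℝ) (hx : 0 < x) : Real.log x ≤ 2 * √x := by
  have h1 := Real.log_le_sub_one_of_pos (Real.sqrt_pos.2 hx)
  rw [Real.log_sqrt hx.le] at h1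
  linarith

lemma mert_A_ge : ∃ c : ℝ, 0 ≤ c ∧ ∀ n : ℕ, 1 ≤ n → Real.log n - c ≤ mertensA n := by
  have hs : Summable (fun k : ℕ => 1 / (k : ℝ) ^ (3 / 2 : ℝ)) :=
    Real.summable_one_div_nat_rpow.mpr (by norm_num)
  set K : ℝ := ∑' k : ℕ, 1 / (k : ℝ) ^ (3 / 2 : ℝ) with hK
  have hK0 : 0 ≤ K := tsum_nonneg fun k => by positivity
  refine ⟨1 + 4 * K, by positivity, fun n hn => ?_⟩
  have hn0 : (0 : ℝ) < n := by exact_mod_cast hn
  have h1 := mert_fact n
  have h2 := mert_log_fact n hn
  have h3 : ∀ p ∈ (Icc 1 n).filter Nat.Prime, (n : ℝ) / ((p : ℝ) - 1) * Real.log p ≤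
      n * (Real.log p / p) + n * (4 * (1 / (p : ℝ) ^ (3 / 2 : ℝ))) := by
    intro p hp
    rw [Finset.mem_filter] at hp
    have hp2 : (2 : ℝ) ≤ p := by exact_mod_cast hp.2.two_le
    have hp0 : (0 : ℝ) < p := by linarith
    have hp1 : (0 : ℝ) < (p : ℝ) - 1 := by linarith
    have hpow : (p : ℝ) ^ (3 / 2 : ℝ) = p * √p := by
      rw [show (3 / 2 : ℝ) = 1 + 1 / 2 by norm_num, Real.rpow_add hp0, Real.rpow_one,
        ← Real.sqrt_eq_rpow]
    have hsq : √(p : ℝ) * √(p : ℝ) = p := Real.mul_self_sqrt hp0.le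
    have hsq0 : 0 < √(p : ℝ) := Real.sqrt_pos.2 hp0
    have h4 : Real.log p / (p * ((p : ℝ) - 1)) ≤ 4 * (1 / (p : ℝ) ^ (3 / 2 : ℝ)) := by
      rw [hpow, mul_one_div, div_le_div_iff₀ (by positivity) (by positivity)]
      have h5 := mert_log_le p hp0
      calc Real.log p * (p * √p) ≤ (2 * √p) * (p * √p) :=
            mul_le_mul_of_nonneg_right h5 (by positivity)
        _ = 2 * p * (√p * √p) := by ring
        _ = 2 * p * p := by rw [hsq]
        _ ≤ 4 * (p * ((p : ℝ) - 1)) := by nlinarith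
    have h6 : (n : ℝ) / ((p : ℝ) - 1) * Real.log p =
        n * (Real.log p / p) + n * (Real.log p / (p * ((p : ℝ) - 1))) := by
      field_simp
      ring
    rw [h6]
    have h7 := mul_le_mul_of_nonneg_left h4 hn0.le
    linarith
  have h4 := h1.trans (Finset.sum_le_sum h3)
  rw [Finset.sum_add_distrib, ← Finset.mul_sum, ← Finset.mul_sum, ← Finset.mul_sum] at h4
  have h5 : ∑ p ∈ (Icc 1 n).filter Nat.Prime, 1 / (p : ℝ) ^ (3 / 2 : ℝ) ≤ K :=
    hs.sum_le_tsum _ fun k _ => by positivity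
  have h6 : (n : ℝ) * (4 * ∑ p ∈ (Icc 1 n).filter Nat.Prime, 1 / (p : ℝ) ^ (3 / 2 : ℝ)) ≤
      n * (4 * K) := mul_le_mul_of_nonneg_left (by linarith) hn0.le
  have h7 : (n : ℝ) * (Real.log n - (1 + 4 * K)) ≤ n * mertensA n := by
    unfold mertensA
    nlinarith
  exact le_of_mul_le_mul_left h7 hn0

lemma mert_upper (c : ℝ) (hc : ∀ n : ℕ, 1 ≤ n → mertensA n ≤ Real.log n + c) (M : ℕ) (hM : 2 ≤ M)
    (N : ℕ) (hN : M ≤ N) :
    (mertensS N - mertensA N / Real.log N) - (mertensS M - mertensA M / Real.log M) ≤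
      Real.log (Real.log N) - Real.log (Real.log M) + c * (1 / Real.log M - 1 / Real.log N) := by
  induction N, hN using Nat.le_induction with
  | base => simp
  | succ x hx ih =>
    have hx2 : (2 : ℝ) ≤ x := by exact_mod_cast hM.trans hx
    have hl : 0 < Real.log x := Real.log_pos (by linarith)
    have hl1 : 0 < Real.log ((x + 1 : ℕ) : ℝ) := Real.log_pos (by push_cast; linarith)
    have hmono : Real.log x ≤ Real.log ((x + 1 : ℕ) : ℝ) :=
      Real.log_le_log (by linarith) (by push_cast; linarith)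
    rw [mertens_step x (hM.trans hx)]
    have hA := hc x (by omega)
    have hd : 0 ≤ 1 / Real.log x - 1 / Real.log ((x + 1 : ℕ) : ℝ) := by
      rw [sub_nonneg]
      exact one_div_le_one_div_of_le hl hmono
    have h1 : mertensA x * (1 / Real.log x - 1 / Real.log ((x + 1 : ℕ) : ℝ)) ≤
        (Real.log x + c) * (1 / Real.log x - 1 / Real.log ((x + 1 : ℕ) : ℝ)) :=
      mul_le_mul_of_nonneg_right hA hd
    have h2 : 1 - Real.log x / Real.log ((x + 1 : ℕ) : ℝ) ≤
        Real.log (Real.log ((x + 1 : ℕ) : ℝ)) - Real.log (Real.log x) := by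
      have h3 := Real.one_sub_inv_le_log_of_pos (div_pos hl1 hl)
      rw [Real.log_div hl1.ne' hl.ne', inv_div] at h3
      exact h3
    have h3 : Real.log x * (1 / Real.log x - 1 / Real.log ((x + 1 : ℕ) : ℝ)) =
        1 - Real.log x / Real.log ((x + 1 : ℕ) : ℝ) := by
      field_simp
    have h4 : mertensS x - mertensA x / Real.log ((x + 1 : ℕ) : ℝ) =
        (mertensS x - mertensA x / Real.log x) +
          mertensA x * (1 / Real.log x - 1 / Real.log ((x + 1 : ℕ) : ℝ)) := by ring
    rw [h4]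
    nlinarith [h1, h2, h3, ih]

lemma mert_lower (c : ℝ) (hc : ∀ n : ℕ, 1 ≤ n → Real.log n - c ≤ mertensA n) (M : ℕ) (hM : 2 ≤ M)
    (N : ℕ) (hN : M ≤ N) :
    (1 - 1 / (M : ℝ)) * (Real.log (Real.log N) - Real.log (Real.log M)) -
        c * (1 / Real.log M - 1 / Real.log N) ≤
      (mertensS N - mertensA N / Real.log N) - (mertensS M - mertensA M / Real.log M) := by
  induction N, hN using Nat.le_induction with
  | base => simp
  | succ x hx ih =>
    have hM2 : (2 : ℝ) ≤ M := by exact_mod_cast hM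
    have hxM : (M : ℝ) ≤ x := by exact_mod_cast hx
    have hx2 : (2 : ℝ) ≤ x := by exact_mod_cast hM.trans hx
    have hl : 0 < Real.log x := Real.log_pos (by linarith)
    have hl1 : 0 < Real.log ((x + 1 : ℕ) : ℝ) := Real.log_pos (by push_cast; linarith)
    have hmono : Real.log x ≤ Real.log ((x + 1 : ℕ) : ℝ) :=
      Real.log_le_log (by linarith) (by push_cast; linarith)
    rw [mertens_step x (hM.trans hx)]
    have hA := hc x (by omega)
    have hd : 0 ≤ 1 / Real.log x - 1 / Real.log ((x + 1 : ℕ) : ℝ) := by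
      rw [sub_nonneg]
      exact one_div_le_one_div_of_le hl hmono
    have h1 : (Real.log x - c) * (1 / Real.log x - 1 / Real.log ((x + 1 : ℕ) : ℝ)) ≤
        mertensA x * (1 / Real.log x - 1 / Real.log ((x + 1 : ℕ) : ℝ)) :=
      mul_le_mul_of_nonneg_right hA hd
    set u : ℝ := Real.log (Real.log ((x + 1 : ℕ) : ℝ)) - Real.log (Real.log x) with hu
    have hu0 : 0 ≤ u := by
      rw [hu, sub_nonneg]
      exact Real.log_le_log hl hmono
    set r : ℝ := Real.log x / Real.log ((x + 1 : ℕ) : ℝ) with hr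
    have hr0 : 0 < r := div_pos hl hl1
    -- u ≤ 1 / r - 1
    have h2 : r * u ≤ 1 - r := by
      have h3 := Real.log_le_sub_one_of_pos (div_pos hl1 hl)
      rw [Real.log_div hl1.ne' hl.ne'] at h3
      have h4 := mul_le_mul_of_nonneg_left h3 hr0.le
      have h5 : r * (Real.log ((x + 1 : ℕ) : ℝ) / Real.log x - 1) = 1 - r := by
        rw [hr]
        field_simp
      linarith
    -- 1 - 1 / M ≤ r
    have h3 : 1 - 1 / (M : ℝ) ≤ r := by
      have h4 : Real.log ((x + 1 : ℕ) : ℝ) - Real.log x ≤ 1 / x := by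
        have h5 : Real.log ((x + 1 : ℕ) : ℝ) - Real.log x = Real.log (1 + 1 / x) := by
          rw [← Real.log_div (by positivity) (by positivity)]
          congr 1
          push_cast
          field_simp
        rw [h5]
        have h6 := Real.log_le_sub_one_of_pos (show 0 < 1 + 1 / (x : ℝ) by positivity)
        linarith
      have h5 : 1 / (x : ℝ) ≤ 1 / M := one_div_le_one_div_of_le (by linarith) hxM
      have h7 : 1 ≤ Real.log ((x + 1 : ℕ) : ℝ) := by
        rw [Real.le_log_iff_exp_le (by positivity)]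
        have := Real.exp_one_lt_d9
        push_cast
        linarith
      rw [hr, le_div_iff₀ hl1]
      have h8 : (0 : ℝ) ≤ 1 / M := by positivity
      nlinarith
    have h4 : Real.log x * (1 / Real.log x - 1 / Real.log ((x + 1 : ℕ) : ℝ)) = 1 - r := by
      rw [hr]
      field_simp
    have h5 : mertensS x - mertensA x / Real.log ((x + 1 : ℕ) : ℝ) =
        (mertensS x - mertensA x / Real.log x) +
          mertensA x * (1 / Real.log x - 1 / Real.log ((x + 1 : ℕ) : ℝ)) := by ring
    rw [h5]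
    have h6 : (1 - 1 / (M : ℝ)) * u ≤ r * u := mul_le_mul_of_nonneg_right h3 hu0
    have h7 : (1 - 1 / (M : ℝ)) * (Real.log (Real.log ((x + 1 : ℕ) : ℝ)) -
        Real.log (Real.log M)) = (1 - 1 / (M : ℝ)) * (Real.log (Real.log x) -
        Real.log (Real.log M)) + (1 - 1 / (M : ℝ)) * u := by
      rw [hu]
      ring
    rw [h7]
    linarith [h1, h2, h4, h6, ih]

lemma mert_diff (M N : ℕ) (h : M ≤ N) :
    ∑ p ∈ (Ioc M N).filter Nat.Prime, (1 : ℝ) / p = mertensS N - mertensS M := by
  have h1 : (Icc 1 N).filter Nat.Prime =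
      (Icc 1 M).filter Nat.Prime ∪ (Ioc M N).filter Nat.Prime := by
    rw [← Finset.filter_union]
    congr 1
    ext k
    simp only [Finset.mem_union, Finset.mem_Icc, Finset.mem_Ioc]
    omega
  have h2 : Disjoint ((Icc 1 M).filter Nat.Prime) ((Ioc M N).filter Nat.Prime) := by
    rw [Finset.disjoint_left]
    intro k hk hk'
    simp only [Finset.mem_filter, Finset.mem_Icc, Finset.mem_Ioc] at hk hk'
    omega
  unfold mertensS
  rw [h1, Finset.sum_union h2]
  ring

lemma mert_core : ∃ C : ℝ, 0 ≤ C ∧ ∀ z : ℝ, 8 ≤ z →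
    |∑ p ∈ (Ioc ⌊z⌋₊ ⌊z ^ 2⌋₊).filter Nat.Prime, (1 : ℝ) / p - Real.log 2| ≤ C / Real.log z := by
  obtain ⟨c₁, hc₁, hA⟩ := mert_A_ge
  have hl4 : 0 ≤ Real.log 4 := Real.log_nonneg (by norm_num)
  set c : ℝ := c₁ + Real.log 4 with hc
  have hc0 : 0 ≤ c := by positivity
  have hAlow : ∀ n : ℕ, 1 ≤ n → Real.log n - c ≤ mertensA n := fun n hn => by
    have := hA n hn
    linarith
  have hAup : ∀ n : ℕ, 1 ≤ n → mertensA n ≤ Real.log n + c := fun n hn => by
    have := mertensA_le n hn
    linarith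
  refine ⟨5 + 4 * c, by positivity, fun z hz => ?_⟩
  set ℓ : ℝ := Real.log 2 with hℓ
  have hℓ0 : 0 < ℓ := Real.log_pos (by norm_num)
  have hℓ1 : ℓ < 0.6931471808 := Real.log_two_lt_d9
  have hℓ2 : 0.6931471803 < ℓ := Real.log_two_gt_d9
  set L : ℝ := Real.log z with hL
  have hz0 : 0 < z := by linarith
  have hL2 : 2 ≤ L := by
    have h1 : Real.log 8 ≤ L := Real.log_le_log (by norm_num) hz
    have h2 : Real.log 8 = 3 * ℓ := by
      rw [hℓ, show (8 : ℝ) = 2 ^ 3 by norm_num, Real.log_pow]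
      norm_num
    linarith
  set M : ℕ := ⌊z⌋₊ with hM
  set N : ℕ := ⌊z ^ 2⌋₊ with hN
  have hMz : (M : ℝ) ≤ z := Nat.floor_le hz0.le
  have hMz2 : z / 2 ≤ M := by
    have := Nat.lt_floor_add_one z
    rw [← hM] at this
    linarith
  have hM8 : 8 ≤ M := Nat.le_floor (by exact_mod_cast hz)
  have hM8' : (8 : ℝ) ≤ M := by exact_mod_cast hM8
  have hNz : (N : ℝ) ≤ z ^ 2 := Nat.floor_le (by positivity)
  have hNz2 : z ^ 2 / 2 ≤ N := by
    have := Nat.lt_floor_add_one (z ^ 2)
    rw [← hN] at this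
    nlinarith
  have hMN : M ≤ N := Nat.floor_le_floor (by nlinarith)
  have hMN' : (M : ℝ) ≤ N := by exact_mod_cast hMN
  set a : ℝ := Real.log M with ha
  set b : ℝ := Real.log N with hb
  have ha1 : L - ℓ ≤ a := by
    have h1 : Real.log (z / 2) ≤ a := Real.log_le_log (by positivity) hMz2
    rw [Real.log_div (by positivity) (by norm_num)] at h1
    exact h1
  have ha2 : a ≤ L := Real.log_le_log (by linarith) hMz
  have hb1 : 2 * L - ℓ ≤ b := by
    have h1 : Real.log (z ^ 2 / 2) ≤ b := Real.log_le_log (by positivity) hNz2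
    rw [Real.log_div (by positivity) (by norm_num), Real.log_pow] at h1
    push_cast at h1
    exact h1
  have hb2 : b ≤ 2 * L := by
    have h1 : b ≤ Real.log (z ^ 2) := Real.log_le_log (by linarith) hNz
    rw [Real.log_pow] at h1
    push_cast at h1
    exact h1
  have hL0 : 0 < L := by linarith
  have ha0 : 0 < a := by linarith
  have hb0 : 0 < b := by linarith
  have haL : 1 / a ≤ 2 / L := by
    rw [div_le_div_iff₀ ha0 hL0]
    linarith
  have hML : 1 / (M : ℝ) ≤ 2 / L := by
    refine le_trans ?_ haL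
    apply one_div_le_one_div_of_le ha0
    have := Real.log_le_sub_one_of_pos (show (0 : ℝ) < M by linarith)
    linarith
  -- the difference of the iterated logarithms
  have hd1 : Real.log b - Real.log a ≤ ℓ + 2 / L := by
    have h1 : Real.log b ≤ Real.log (2 * L) := Real.log_le_log hb0 hb2
    have h2 : Real.log (L - ℓ) ≤ Real.log a := Real.log_le_log (by linarith) ha1
    rw [Real.log_mul (by norm_num) hL0.ne'] at h1
    have h3 := Real.log_le_sub_one_of_pos (show 0 < L / (L - ℓ) from div_pos hL0 (by linarith))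
    rw [Real.log_div hL0.ne' (by linarith)] at h3
    have h4 : L / (L - ℓ) - 1 ≤ 2 / L := by
      have h5 : L / (L - ℓ) - 1 = ℓ / (L - ℓ) := by
        rw [div_sub_one (by linarith)]
        congr 1
        ring
      rw [h5, div_le_div_iff₀ (by linarith) hL0]
      nlinarith
    linarith
  have hd2 : ℓ - 1 / L ≤ Real.log b - Real.log a := by
    have h1 : Real.log (2 * L - ℓ) ≤ Real.log b := Real.log_le_log (by linarith) hb1
    have h2 : Real.log a ≤ Real.log L := Real.log_le_log ha0 ha2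
    have h3 := Real.one_sub_inv_le_log_of_pos
      (show 0 < (2 * L - ℓ) / (2 * L) from div_pos (by linarith) (by linarith))
    rw [Real.log_div (by linarith) (by linarith), Real.log_mul (by norm_num) hL0.ne'] at h3
    have h4 : -(1 / L) ≤ 1 - ((2 * L - ℓ) / (2 * L))⁻¹ := by
      rw [inv_div, one_sub_div (by linarith)]
      have h5 : 2 * L - ℓ - 2 * L = -ℓ := by ring
      rw [h5, neg_div, neg_le_neg_iff, div_le_div_iff₀ (by linarith) hL0]
      nlinarith
    linarith
  have hd0 : 0 ≤ Real.log b - Real.log a := by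
    have : 1 / L ≤ 1 / 2 := one_div_le_one_div_of_le (by norm_num) hL2
    linarith
  have hup := mert_upper c hAup M (by omega) N hMN
  have hlow := mert_lower c hAlow M (by omega) N hMN
  rw [← ha, ← hb] at hup hlow
  have hN1 : 1 ≤ N := by omega
  have hM1 : 1 ≤ M := by omega
  have e1 : mertensA N / b ≤ 1 + c / b := by
    rw [div_le_iff₀ hb0, add_mul, div_mul_cancel₀ _ hb0.ne', one_mul]
    exact hAup N hN1
  have e2 : 1 - c / b ≤ mertensA N / b := by
    rw [le_div_iff₀ hb0, sub_mul, div_mul_cancel₀ _ hb0.ne', one_mul]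
    exact hAlow N hN1
  have e3 : mertensA M / a ≤ 1 + c / a := by
    rw [div_le_iff₀ ha0, add_mul, div_mul_cancel₀ _ ha0.ne', one_mul]
    exact hAup M hM1
  have e4 : 1 - c / a ≤ mertensA M / a := by
    rw [le_div_iff₀ ha0, sub_mul, div_mul_cancel₀ _ ha0.ne', one_mul]
    exact hAlow M hM1
  have hca : c * (1 / a) ≤ c * (2 / L) := mul_le_mul_of_nonneg_left haL hc0
  have k1 : c / a = c * (1 / a) := by ring
  have k2 : c / b = c * (1 / b) := by ring
  rw [k2] at e1 e2
  rw [k1] at e3 e4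
  have k3 : (5 + 4 * c) / L = 5 * (1 / L) + 2 * (c * (2 / L)) := by ring
  have k4 : 2 / L = 2 * (1 / L) := by ring
  have k5 : 0 < 1 / L := by positivity
  have k6 : 1 / (M : ℝ) * (Real.log b - Real.log a) ≤ (2 / L) * 2 := by
    have h1 : 2 / L ≤ 1 := by
      rw [div_le_one hL0]
      exact hL2
    exact mul_le_mul hML (by linarith) hd0 (by positivity)
  rw [mert_diff M N hMN, abs_le, k3]
  constructor
  · nlinarith
  · nlinarith

theorem tMert : StmtMert := by
  intro ε hε
  obtain ⟨C, hC0, hC⟩ := mert_core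
  refine ⟨max 8 (Real.exp (C / ε)), le_trans (by norm_num) (le_max_left _ _), fun z hz => ?_⟩
  have hz8 : 8 ≤ z := (le_max_left _ _).trans hz
  have hz0 : 0 < z := by linarith
  have h1 := hC z hz8
  have hL0 : 0 < Real.log z := Real.log_pos (by linarith)
  have h2 : C / ε ≤ Real.log z := by
    rw [Real.le_log_iff_exp_le hz0]
    exact (le_max_right _ _).trans hz
  have h3 : C / Real.log z ≤ ε := by
    rw [div_le_iff₀ hL0]
    rw [div_le_iff₀ hε] at h2
    linarith
  have h4 := abs_le.1 (h1.trans h3)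
  constructor <;> linarith [h4.1, h4.2]

end Pool.Agent.Lib.MP_9f2731_nt.BT
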