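import Pool.Agent.Lib.MP_9f2731_nt.BT.Spec

/-! Averaging in two steps (Chinese remainder theorem). -/

namespace Pool.Agent.Lib.MP_9f2731_nt.BT

open Finset

theorem tAvgB : StmtAvgB := by
  intro P q f cr hP hq hcop hf h1 h2
  have hPq : 0 < P * q := Nat.mul_pos hP hq
  have hP0 : (P : ℝ) ≠ 0 := by exact_mod_cast hP.ne'
  have hq0 : (q : ℝ) ≠ 0 := by exact_mod_cast hq.ne'
  have hcr : ∀ z : ℕ, cr (z % P) (z % q) ≡ z [MOD (P * q)] := by
    intro z
    rw [← Nat.modEq_and_modEq_iff_modEq_mul hcop]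
    exact ⟨(h1 _ _).trans (Nat.mod_modEq z P), (h2 _ _).trans (Nat.mod_modEq z q)⟩
  have hsum : ∑ z ∈ range (P * q), f z = ∑ x ∈ range P, ∑ t ∈ range q, f (cr x t) := by
    rw [← sum_product']
    apply sum_nbij' (fun z => (z % P, z % q)) (fun p => cr p.1 p.2 % (P * q))
    · intro z _
      rw [mem_product, mem_range, mem_range]
      exact ⟨Nat.mod_lt _ hP, Nat.mod_lt _ hq⟩
    · intro p _
      rw [mem_range]
      exact Nat.mod_lt _ hPq
    · intro z hz
      rw [mem_range] at hz
      have h := hcr z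
      unfold Nat.ModEq at h
      rw [h, Nat.mod_eq_of_lt hz]
    · rintro ⟨x, t⟩ hp
      rw [mem_product, mem_range, mem_range] at hp
      have e1 : cr x t % P = x := by
        have h := h1 x t
        unfold Nat.ModEq at h
        rw [h, Nat.mod_eq_of_lt hp.1]
      have e2 : cr x t % q = t := by
        have h := h2 x t
        unfold Nat.ModEq at h
        rw [h, Nat.mod_eq_of_lt hp.2]
      show (cr x t % (P * q) % P, cr x t % (P * q) % q) = (x, t)
      rw [Nat.mod_mul_right_mod, Nat.mod_mul_left_mod, e1, e2]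
    · intro z _
      exact hf _ _ (hcr z).symm
  unfold avg
  rw [hsum]
  push_cast
  rw [← sum_div]
  field_simp

end Pool.Agent.Lib.MP_9f2731_nt.BT
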