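import Pool.Agent.Lib.MP_9f2731_nt.BT.Spec

namespace Pool.Agent.Lib.MP_9f2731_nt.BT

open Finset

private lemma avgp_per {D : ℕ} {f : ℕ → ℝ} (h : ∀ x, f (x + D) = f x) (c x : ℕ) :
    f (D * c + x) = f x := by
  induction c with
  | zero => simp
  | succ c ih =>
    rw [show D * (c + 1) + x = (D * c + x) + D by ring, h, ih]

private lemma avgp_sum {D : ℕ} {f : ℕ → ℝ} (h : ∀ x, f (x + D) = f x) (c : ℕ) :
    ∑ x ∈ range (D * c), f x = c * ∑ x ∈ range D, f x := by
  induction c with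
  | zero => simp
  | succ c ih =>
    rw [Nat.mul_succ, sum_range_add, ih]
    simp_rw [avgp_per h c]
    push_cast
    ring

theorem tAvgP : StmtAvgP := by
  intro D L f hD hDL hL h
  obtain ⟨c, rfl⟩ := hDL
  have hc : 0 < c := Nat.pos_of_mul_pos_left hL |> fun h => by
    rcases Nat.eq_zero_or_pos c with h0 | h0
    · subst h0; simp at hL
    · exact h0
  have hc' : (c : ℝ) ≠ 0 := by exact_mod_cast hc.ne'
  have hD' : (D : ℝ) ≠ 0 := by exact_mod_cast hD.ne'
  unfold avg
  rw [avgp_sum h c]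
  push_cast
  field_simp

end Pool.Agent.Lib.MP_9f2731_nt.BT
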