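import Pool.Agent.Lib.MP_9f2731_nt.BT.Spec

namespace Pool.Agent.Lib.MP_9f2731_nt.BT

open Finset

private lemma bsum_union {Qs : ℕ → Finset ℕ} {i : ℕ} {e : Finset ℕ} (he : e ⊆ QU Qs i) :
    e = (range i).biUnion fun j => e ∩ Qs j := by
  classical
  ext q
  rw [mem_biUnion]
  constructor
  · intro hq
    have h2 := he hq
    unfold QU at h2
    rw [mem_biUnion] at h2
    obtain ⟨j, hj, hqj⟩ := h2
    exact ⟨j, hj, mem_inter.mpr ⟨hq, hqj⟩⟩
  · rintro ⟨j, _, hq⟩
    exact (mem_inter.mp hq).1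

private lemma bsum_split {Qs : ℕ → Finset ℕ} (hdisj : ∀ j j', j ≠ j' → Disjoint (Qs j) (Qs j'))
    {i : ℕ} {e : Finset ℕ} (he : e ⊆ QU Qs i) (h : ℕ → ℝ) :
    ∏ j ∈ range i, ∏ q ∈ e ∩ Qs j, h q = ∏ q ∈ e, h q := by
  classical
  conv_rhs => rw [bsum_union he]
  rw [prod_biUnion]
  intro j _ j' _ hjj'
  exact (hdisj j j' hjj').mono inter_subset_right inter_subset_right

private lemma bsum_sum (hPF : StmtPF) (hLow : StmtLow) {Qs : ℕ → Finset ℕ}
    (hdisj : ∀ j j', j ≠ j' → Disjoint (Qs j) (Qs j')) (R i : ℕ) :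
    ∑ d ∈ Dn R Qs i, ∏ q ∈ d, (q : ℝ) ≤ ∏ j ∈ range i, (1 + ∑ q ∈ Qs j, (q : ℝ)) ^ (2 * R) := by
  classical
  have h1 := hPF R i Qs (fun _ d => ∏ q ∈ d, (q : ℝ)) hdisj
  have h2 : ∑ d ∈ Dn R Qs i, ∏ q ∈ d, (q : ℝ) =
      ∑ e ∈ Dn R Qs i, ∏ j ∈ range i, ∏ q ∈ e ∩ Qs j, (q : ℝ) := by
    apply sum_congr rfl
    intro e he
    unfold Dn at he
    rw [mem_filter, mem_powerset] at he
    exact (bsum_split hdisj he.1 _).symm
  rw [h2, ← h1]
  apply prod_le_prod
  · intro j _
    apply sum_nonneg; intro d _; apply prod_nonneg; intro q _; exact Nat.cast_nonneg q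
  · intro j _
    exact hLow (2 * R) (Qs j) (fun q => (q : ℝ)) fun q _ => Nat.cast_nonneg q

theorem tBSum (hCfB : StmtCfB) (hLow : StmtLow) (hPF : StmtPF) : StmtBSum := by
  classical
  intro k R i Qs C U hC hdisj hq hexp
  have hsubE : ∀ e ∈ En R Qs i, e ∈ Dn R Qs (i + 1) := fun e he => (mem_filter.mp he).1
  have hDn : ∀ e ∈ Dn R Qs (i + 1), e ⊆ QU Qs (i + 1) ∧
      ∀ j ∈ range (i + 1), (e ∩ Qs j).card ≤ 2 * R := by
    intro e he
    unfold Dn at he
    rw [mem_filter, mem_powerset] at he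
    exact he
  have hga : ∀ e ∈ Dn R Qs (i + 1), |ga k R Qs (i + 1) e| ≤ C ^ (i + 1) := by
    intro e he
    unfold ga
    rw [abs_prod]
    calc ∏ j ∈ range (i + 1), |cf k R (Qs j) (e ∩ Qs j)| ≤ ∏ _j ∈ range (i + 1), C := by
          apply prod_le_prod
          · intro j _; exact abs_nonneg _
          · intro j hj
            refine ((hCfB k R (Qs j) (hq j)).1 (e ∩ Qs j) ?_).trans
              (hexp j (Nat.lt_succ_iff.mp (mem_range.mp hj)))
            unfold low
            rw [mem_filter, mem_powerset]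
            exact ⟨inter_subset_right, (hDn e he).2 j hj⟩
      _ = C ^ (i + 1) := by rw [prod_const, card_range]
  have hCpos : 0 ≤ C ^ (i + 1) := by positivity
  constructor
  · set y : ℕ → ℝ := fun q => if q ∈ U then 1 else 2 * k / q with hy
    have hy0 : ∀ q, 0 ≤ y q := by
      intro q; rw [hy]; dsimp only; split_ifs <;> positivity
    have hprod : ∀ e : Finset ℕ, ∏ q ∈ e \ U, (2 * k / q : ℝ) = ∏ q ∈ e, y q := by
      intro e
      rw [← prod_sdiff (inter_subset_left : e ∩ U ⊆ e)]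
      have h1 : ∏ q ∈ e ∩ U, y q = 1 := by
        apply prod_eq_one
        intro q hq'
        rw [hy]; dsimp only
        rw [if_pos (mem_inter.mp hq').2]
      rw [h1, mul_one, sdiff_inter_self_left]
      apply prod_congr rfl
      intro q hq'
      rw [hy]; dsimp only
      rw [if_neg (mem_sdiff.mp hq').2]
    have hlow : En R Qs i ⊆ low (2 * R * (i + 1)) (QU Qs (i + 1)) := by
      intro e he
      obtain ⟨h1, h2⟩ := hDn e (hsubE e he)
      unfold low
      rw [mem_filter, mem_powerset]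
      refine ⟨h1, ?_⟩
      conv_lhs => rw [bsum_union h1]
      refine (card_biUnion_le).trans ?_
      calc ∑ j ∈ range (i + 1), (e ∩ Qs j).card ≤ ∑ _j ∈ range (i + 1), 2 * R := sum_le_sum h2
        _ = 2 * R * (i + 1) := by rw [sum_const, card_range, smul_eq_mul]; ring
    have hsumy : ∑ q ∈ QU Qs (i + 1), y q ≤
        (U.card : ℝ) + 2 * k * ∑ q ∈ QU Qs (i + 1), (1 : ℝ) / q := by
      have h1 : ∀ q, y q ≤ (if q ∈ U then (1 : ℝ) else 0) + 2 * k / q := by
        intro q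
        rw [hy]; dsimp only
        split_ifs
        · have : (0 : ℝ) ≤ 2 * k / q := by positivity
          linarith
        · linarith
      calc ∑ q ∈ QU Qs (i + 1), y q ≤
          ∑ q ∈ QU Qs (i + 1), ((if q ∈ U then (1 : ℝ) else 0) + 2 * k / q) :=
            sum_le_sum fun q _ => h1 q
        _ = ((QU Qs (i + 1) ∩ U).card : ℝ) + 2 * k * ∑ q ∈ QU Qs (i + 1), (1 : ℝ) / q := by
            rw [sum_add_distrib, ← sum_filter, sum_const, nsmul_eq_mul, mul_one, mul_sum,
              filter_mem_eq_inter]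
            congr 1
            apply sum_congr rfl
            intro q _
            ring
        _ ≤ _ := by
            have : (QU Qs (i + 1) ∩ U).card ≤ U.card := card_le_card inter_subset_right
            have : ((QU Qs (i + 1) ∩ U).card : ℝ) ≤ U.card := by exact_mod_cast this
            linarith
    calc ∑ e ∈ En R Qs i, |ga k R Qs (i + 1) e| * ∏ q ∈ e \ U, (2 * k / q : ℝ)
        ≤ ∑ e ∈ En R Qs i, C ^ (i + 1) * ∏ q ∈ e, y q := by
          apply sum_le_sum
          intro e he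
          rw [hprod e]
          exact mul_le_mul_of_nonneg_right (hga e (hsubE e he)) (prod_nonneg fun q _ => hy0 q)
      _ = C ^ (i + 1) * ∑ e ∈ En R Qs i, ∏ q ∈ e, y q := by rw [mul_sum]
      _ ≤ C ^ (i + 1) * ∑ e ∈ low (2 * R * (i + 1)) (QU Qs (i + 1)), ∏ q ∈ e, y q := by
          apply mul_le_mul_of_nonneg_left _ hCpos
          apply sum_le_sum_of_subset_of_nonneg hlow
          intro e _ _
          exact prod_nonneg fun q _ => hy0 q
      _ ≤ C ^ (i + 1) * (1 + ∑ q ∈ QU Qs (i + 1), y q) ^ (2 * R * (i + 1)) := by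
          apply mul_le_mul_of_nonneg_left _ hCpos
          exact hLow _ _ _ fun q _ => hy0 q
      _ ≤ _ := by
          apply mul_le_mul_of_nonneg_left _ hCpos
          apply pow_le_pow_left₀
          · have := sum_nonneg fun q (_ : q ∈ QU Qs (i + 1)) => hy0 q
            linarith
          · linarith
  · calc ∑ e ∈ En R Qs i, |ga k R Qs (i + 1) e| * ∏ q ∈ e, (q : ℝ)
        ≤ ∑ e ∈ Dn R Qs (i + 1), C ^ (i + 1) * ∏ q ∈ e, (q : ℝ) := by
          have h0 : ∀ e : Finset ℕ, 0 ≤ ∏ q ∈ e, (q : ℝ) :=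
            fun e => prod_nonneg fun q _ => Nat.cast_nonneg q
          calc ∑ e ∈ En R Qs i, |ga k R Qs (i + 1) e| * ∏ q ∈ e, (q : ℝ)
              ≤ ∑ e ∈ En R Qs i, C ^ (i + 1) * ∏ q ∈ e, (q : ℝ) :=
                sum_le_sum fun e he => mul_le_mul_of_nonneg_right (hga e (hsubE e he)) (h0 e)
            _ ≤ _ := sum_le_sum_of_subset_of_nonneg hsubE fun e _ _ => mul_nonneg hCpos (h0 e)
      _ = C ^ (i + 1) * ∑ e ∈ Dn R Qs (i + 1), ∏ q ∈ e, (q : ℝ) := by rw [mul_sum]
      _ ≤ _ := mul_le_mul_of_nonneg_left (bsum_sum hPF hLow hdisj R (i + 1)) hCpos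

end Pool.Agent.Lib.MP_9f2731_nt.BT
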