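import Pool.Agent.Lib.MP_9f2731_nt.BT.Spec

namespace Pool.Agent.Lib.MP_9f2731_nt.BT

open Finset

private noncomputable def bonf_S (r : ℕ) (Q : Finset ℕ) (x : ℕ → ℝ) : ℝ :=
  ∑ d ∈ Q.powerset, if d.card ≤ r then (-1 : ℝ) ^ d.card * ∏ q ∈ d, x q else 0

private noncomputable def bonf_E (n : ℕ) (Q : Finset ℕ) (x : ℕ → ℝ) : ℝ :=
  ∑ d ∈ Q.powerset, if d.card = n then ∏ q ∈ d, x q else 0

private lemma bonf_low (r : ℕ) (Q : Finset ℕ) (x : ℕ → ℝ) :
    ∑ d ∈ low r Q, (-1 : ℝ) ^ d.card * ∏ q ∈ d, x q = bonf_S r Q x := by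
  unfold low bonf_S
  rw [sum_filter]

private lemma bonf_S_zero (Q : Finset ℕ) (x : ℕ → ℝ) : bonf_S 0 Q x = 1 := by
  unfold bonf_S
  rw [sum_eq_single ∅]
  · simp
  · intro d _ hd
    rw [if_neg]
    rw [Nat.le_zero, card_eq_zero]
    exact hd
  · intro h
    exact absurd (empty_mem_powerset Q) h

private lemma bonf_S_insert {r : ℕ} {Q : Finset ℕ} {x : ℕ → ℝ} {q : ℕ} (hq : q ∉ Q) :
    bonf_S (r + 1) (insert q Q) x = bonf_S (r + 1) Q x - x q * bonf_S r Q x := by
  classical
  unfold bonf_S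
  rw [sum_powerset_insert hq, sub_eq_add_neg, mul_sum, ← sum_neg_distrib]
  congr 1
  apply sum_congr rfl
  intro d hd
  have hqd : q ∉ d := fun h => hq (mem_powerset.mp hd h)
  rw [card_insert_of_notMem hqd, prod_insert hqd]
  by_cases h : d.card ≤ r
  · rw [if_pos (by omega), if_pos h, pow_succ]; ring
  · rw [if_neg (by omega), if_neg h]; simp

private lemma bonf_E_insert {n : ℕ} {Q : Finset ℕ} {x : ℕ → ℝ} {q : ℕ} (hq : q ∉ Q) :
    bonf_E (n + 1) (insert q Q) x = bonf_E (n + 1) Q x + x q * bonf_E n Q x := by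
  classical
  unfold bonf_E
  rw [sum_powerset_insert hq, mul_sum]
  congr 1
  apply sum_congr rfl
  intro d hd
  have hqd : q ∉ d := fun h => hq (mem_powerset.mp hd h)
  rw [card_insert_of_notMem hqd, prod_insert hqd]
  by_cases h : d.card = n
  · rw [if_pos (by omega), if_pos h]
  · rw [if_neg (by omega), if_neg h]; simp

private lemma bonf_E_zero (Q : Finset ℕ) (x : ℕ → ℝ) : bonf_E 0 Q x = 1 := by
  unfold bonf_E
  rw [sum_eq_single ∅]
  · simp
  · intro d _ hd
    rw [if_neg]
    rw [card_eq_zero]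
    exact hd
  · intro h
    exact absurd (empty_mem_powerset Q) h

private lemma bonf_pow {s x : ℝ} (hs : 0 ≤ s) (hx : 0 ≤ x) (n : ℕ) :
    s ^ (n + 1) + (n + 1) * x * s ^ n ≤ (s + x) ^ (n + 1) := by
  induction n with
  | zero => simp
  | succ n ih =>
    have h1 : (s ^ (n + 1) + (n + 1) * x * s ^ n) * (s + x) ≤ (s + x) ^ (n + 1) * (s + x) :=
      mul_le_mul_of_nonneg_right ih (by linarith)
    have h2 : 0 ≤ (n + 1) * x * s ^ n * x := by positivity
    calc s ^ (n + 1 + 1) + ((n + 1 : ℕ) + 1) * x * s ^ (n + 1)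
        ≤ (s ^ (n + 1) + (n + 1) * x * s ^ n) * (s + x) := by
          push_cast
          have h3 : s ^ (n + 1) = s ^ n * s := pow_succ s n
          have h4 : s ^ (n + 1 + 1) = s ^ n * s * s := by rw [pow_succ, pow_succ]
          rw [h3, h4]
          nlinarith
      _ ≤ (s + x) ^ (n + 1) * (s + x) := h1
      _ = (s + x) ^ (n + 1 + 1) := by rw [← pow_succ]

private lemma bonf_E_le (Q : Finset ℕ) (x : ℕ → ℝ) (hx : ∀ q ∈ Q, 0 ≤ x q) (n : ℕ) :
    bonf_E n Q x ≤ (∑ q ∈ Q, x q) ^ n / n.factorial := by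
  classical
  induction Q using Finset.induction_on generalizing n with
  | empty =>
    cases n with
    | zero => rw [bonf_E_zero]; simp
    | succ n =>
      unfold bonf_E
      simp
  | insert q Q hq ih =>
    cases n with
    | zero => rw [bonf_E_zero]; simp
    | succ n =>
      have hxQ : ∀ p ∈ Q, 0 ≤ x p := fun p hp => hx p (mem_insert_of_mem hp)
      have hxq : 0 ≤ x q := hx q (mem_insert_self q Q)
      have hs : 0 ≤ ∑ p ∈ Q, x p := sum_nonneg hxQ
      rw [bonf_E_insert hq, sum_insert hq]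
      have h1 := ih hxQ (n + 1)
      have h2 := mul_le_mul_of_nonneg_left (ih hxQ n) hxq
      have h3 := bonf_pow hs hxq n
      have hf : (0 : ℝ) < (n + 1).factorial := by exact_mod_cast Nat.factorial_pos _
      have hf2 : ((n + 1).factorial : ℝ) = (n + 1) * n.factorial := by
        rw [Nat.factorial_succ]; push_cast; ring
      have hf3 : (0 : ℝ) < n.factorial := by exact_mod_cast Nat.factorial_pos _
      calc bonf_E (n + 1) Q x + x q * bonf_E n Q x
          ≤ (∑ p ∈ Q, x p) ^ (n + 1) / (n + 1).factorial +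
            x q * ((∑ p ∈ Q, x p) ^ n / n.factorial) := add_le_add h1 h2
        _ = ((∑ p ∈ Q, x p) ^ (n + 1) + (n + 1) * x q * (∑ p ∈ Q, x p) ^ n) /
              (n + 1).factorial := by
            rw [hf2]
            field_simp
        _ ≤ (x q + ∑ p ∈ Q, x p) ^ (n + 1) / (n + 1).factorial := by
            apply div_le_div_of_nonneg_right _ hf.le
            rw [add_comm (x q)]
            exact h3

private lemma bonf_alt (Q : Finset ℕ) (x : ℕ → ℝ) (hx : ∀ q ∈ Q, 0 ≤ x q ∧ x q ≤ 1) (r : ℕ) :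
    0 ≤ (-1 : ℝ) ^ r * (bonf_S r Q x - ∏ q ∈ Q, (1 - x q)) := by
  classical
  induction Q using Finset.induction_on generalizing r with
  | empty =>
    have : bonf_S r ∅ x = 1 := by
      unfold bonf_S
      simp
    rw [this]; simp
  | insert q Q hq ih =>
    have hxQ : ∀ p ∈ Q, 0 ≤ x p ∧ x p ≤ 1 := fun p hp => hx p (mem_insert_of_mem hp)
    obtain ⟨hxq0, hxq1⟩ := hx q (mem_insert_self q Q)
    cases r with
    | zero =>
      rw [bonf_S_zero, pow_zero, one_mul, sub_nonneg]
      apply prod_le_one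
      · intro p hp; have := (hx p hp).2; linarith
      · intro p hp; have := (hx p hp).1; linarith
    | succ r =>
      rw [bonf_S_insert hq, prod_insert hq]
      have h1 := ih hxQ (r + 1)
      have h2 := mul_nonneg hxq0 (ih hxQ r)
      have h3 : (-1 : ℝ) ^ (r + 1) = -(-1) ^ r := by rw [pow_succ]; ring
      rw [h3] at h1 ⊢
      nlinarith

theorem tBonf : StmtBonf := by
  classical
  intro R Q x hx
  rw [bonf_low]
  constructor
  · have h := bonf_alt Q x hx (2 * R)
    rw [pow_mul, neg_one_sq, one_pow, one_mul, sub_nonneg] at h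
    exact h
  · have h := bonf_alt Q x hx (2 * R + 1)
    rw [pow_succ, pow_mul, neg_one_sq, one_pow, one_mul] at h
    have h1 : bonf_S (2 * R) Q x = bonf_S (2 * R + 1) Q x + bonf_E (2 * R + 1) Q x := by
      unfold bonf_S bonf_E
      rw [← sum_add_distrib]
      apply sum_congr rfl
      intro d _
      rcases lt_trichotomy d.card (2 * R + 1) with h2 | h2 | h2
      · rw [if_pos (by omega), if_pos (by omega), if_neg (by omega), add_zero]
      · rw [if_neg (by omega), if_pos (by omega), if_pos h2, h2, pow_succ, pow_mul, neg_one_sq,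
          one_pow]
        ring
      · rw [if_neg (by omega), if_neg (by omega), if_neg (by omega), add_zero]
    have h2 := bonf_E_le Q x (fun q hq => (hx q hq).1) (2 * R + 1)
    rw [h1]
    linarith

end Pool.Agent.Lib.MP_9f2731_nt.BT
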