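import Pool.Agent.Lib.MP_9f2731_nt.BT.Spec

namespace Pool.Agent.Lib.MP_9f2731_nt.BT

open Finset

theorem tCfB (hBonf : StmtBonf) : StmtCfB := by
  classical
  intro k R Q hQ
  have hx : ∀ q ∈ Q, 0 ≤ (k : ℝ) / q ∧ (k : ℝ) / q ≤ 1 := by
    intro q hq
    obtain ⟨h1, h2⟩ := hQ q hq
    have h3 : (1 : ℝ) ≤ q := by exact_mod_cast h2
    have h4 : (k : ℝ) ≤ q := by exact_mod_cast h1
    refine ⟨by positivity, ?_⟩
    rw [div_le_one (by linarith)]
    exact h4
  have h0 : cf k R Q ∅ = ∑ d ∈ low (2 * R) Q, (-1 : ℝ) ^ d.card * ∏ q ∈ d, (k : ℝ) / q := by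
    unfold cf
    have : (low (2 * R) Q).filter (fun d => ∅ ⊆ d) = low (2 * R) Q := by
      apply filter_true_of_mem
      intro d _
      exact empty_subset d
    rw [this]
    apply sum_congr rfl
    intro d _
    rw [sdiff_empty]
  refine ⟨?_, ?_, ?_⟩
  · intro e he
    unfold cf
    calc |∑ d ∈ (low (2 * R) Q).filter (fun d => e ⊆ d),
          (-1 : ℝ) ^ d.card * ∏ q ∈ d \ e, (k : ℝ) / q|
        ≤ ∑ d ∈ (low (2 * R) Q).filter (fun d => e ⊆ d), ∏ q ∈ d \ e, (k : ℝ) / q := by
          refine (abs_sum_le_sum_abs _ _).trans (le_of_eq ?_)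
          apply sum_congr rfl
          intro d _
          rw [abs_mul, abs_pow, abs_neg, abs_one, one_pow, one_mul, abs_of_nonneg]
          apply prod_nonneg
          intro q _
          positivity
      _ = ∑ d ∈ ((low (2 * R) Q).filter (fun d => e ⊆ d)).image (fun d => d \ e),
            ∏ q ∈ d, (k : ℝ) / q := by
          rw [sum_image]
          intro d hd d' hd' hdd'
          rw [coe_filter] at hd hd'
          have h1 : e ⊆ d := hd.2
          have h2 : e ⊆ d' := hd'.2
          dsimp only at hdd'
          rw [← sdiff_union_of_subset h1, ← sdiff_union_of_subset h2, hdd']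
      _ ≤ ∑ d ∈ Q.powerset, ∏ q ∈ d, (k : ℝ) / q := by
          apply sum_le_sum_of_subset_of_nonneg
          · intro d hd
            rw [mem_image] at hd
            obtain ⟨d', hd', rfl⟩ := hd
            have h1 := (mem_filter.mp hd').1
            unfold low at h1
            rw [mem_filter, mem_powerset] at h1
            rw [mem_powerset]
            exact sdiff_subset.trans h1.1
          · intro d _ _
            apply prod_nonneg
            intro q _
            positivity
      _ = ∏ q ∈ Q, (1 + (k : ℝ) / q) := by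
          rw [prod_one_add]
      _ ≤ ∏ q ∈ Q, Real.exp ((k : ℝ) / q) := by
          apply prod_le_prod
          · intro q _; positivity
          · intro q _
            have := Real.add_one_le_exp ((k : ℝ) / q)
            linarith
      _ = Real.exp (k * ∑ q ∈ Q, (1 : ℝ) / q) := by
          rw [← Real.exp_sum, mul_sum]
          congr 1
          apply sum_congr rfl
          intro q _
          ring
  · rw [h0]
    exact (hBonf R Q (fun q => (k : ℝ) / q) hx).1
  · rw [h0]
    refine ((hBonf R Q (fun q => (k : ℝ) / q) hx).2).trans (le_of_eq ?_)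
    congr 3
    rw [mul_sum]
    apply sum_congr rfl
    intro q _
    ring

end Pool.Agent.Lib.MP_9f2731_nt.BT
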