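import Pool.Agent.Lib.MP_9f2731_nt.BT.Spec

/-! Starts of chains are not hit. -/

namespace Pool.Agent.Lib.MP_9f2731_nt.BT

open Finset

theorem tCnt (h1 : StmtF1P) : StmtCnt := by
  classical
  intro k R i a N m z Qs hm hz hk hQ
  have hF0 : ∀ b, 0 ≤ Fn k R Qs i b m := by
    intro b
    unfold Fn
    exact prod_nonneg fun j _ => (h1 k R (Qs j) b m).1
  have hF1 : ∀ b, (∀ t < k, (m * 2 ^ (b + t) + 1).Prime) → z < m * 2 ^ b + 1 →
      Fn k R Qs i b m = 1 := by
    intro b hb hzb
    unfold Fn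
    apply prod_eq_one
    intro j hj
    apply (h1 k R (Qs j) b m).2
    intro q hq
    have hqU : q ∈ QU Qs i := by
      unfold QU
      rw [mem_biUnion]
      exact ⟨j, hj, hq⟩
    obtain ⟨hqp, hqz⟩ := hQ q hqU
    unfold H
    rw [if_neg]
    rintro ⟨t, ht, hdvd⟩
    have h2 : q = m * 2 ^ (b + t) + 1 := (Nat.prime_dvd_prime_iff_eq hqp (hb t ht)).mp hdvd
    have h3 : 2 ^ b ≤ 2 ^ (b + t) := Nat.pow_le_pow_right (by norm_num) (by omega)
    have h4 : m * 2 ^ b ≤ m * 2 ^ (b + t) := Nat.mul_le_mul_left _ h3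
    omega
  set S := (Ico a (a + N)).filter fun b => ∀ t < k, (m * 2 ^ (b + t) + 1).Prime with hS
  have hsplit : S.card = (S.filter fun b => z < m * 2 ^ b + 1).card +
      (S.filter fun b => ¬ z < m * 2 ^ b + 1).card :=
    (card_filter_add_card_filter_not _).symm
  have hsmall : (S.filter fun b => ¬ z < m * 2 ^ b + 1).card ≤ Nat.log 2 z + 1 := by
    have h2 : (S.filter fun b => ¬ z < m * 2 ^ b + 1) ⊆ range (Nat.log 2 z + 1) := by
      intro b hb
      rw [mem_filter] at hb
      rw [mem_range, Nat.lt_succ_iff]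
      apply Nat.le_log_of_pow_le (by norm_num)
      have h3 : 2 ^ b ≤ m * 2 ^ b := Nat.le_mul_of_pos_left _ hm
      have h4 := hb.2
      omega
    have h3 := card_le_card h2
    rwa [card_range] at h3
  have hbig : ((S.filter fun b => z < m * 2 ^ b + 1).card : ℝ) ≤
      ∑ b ∈ Ico a (a + N), Fn k R Qs i b m := by
    have h2 : ((S.filter fun b => z < m * 2 ^ b + 1).card : ℝ) =
        ∑ b ∈ S.filter (fun b => z < m * 2 ^ b + 1), Fn k R Qs i b m := by
      rw [card_eq_sum_ones]
      push_cast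
      apply sum_congr rfl
      intro b hb
      rw [mem_filter, hS, mem_filter] at hb
      rw [hF1 b hb.1.2 hb.2]
    rw [h2]
    apply sum_le_sum_of_subset_of_nonneg
    · exact (filter_subset _ _).trans (filter_subset _ _)
    · intro b _ _
      exact hF0 b
  have h5 : ((S.filter fun b => ¬ z < m * 2 ^ b + 1).card : ℝ) ≤ (Nat.log 2 z + 1 : ℝ) := by
    exact_mod_cast hsmall
  rw [hsplit]
  push_cast
  linarith

end Pool.Agent.Lib.MP_9f2731_nt.BT
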