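import Pool.Agent.Lib.MP_9f2731_nt.BT.Spec

namespace Pool.Agent.Lib.MP_9f2731_nt.BT

open Finset

private lemma cw_exp_le {x : ℝ} (h0 : 0 ≤ x) (h1 : x ≤ 1 / 2) : Real.exp (-(2 * x)) ≤ 1 - x := by
  have h2 := Real.add_one_le_exp (2 * x)
  have h3 : 0 < Real.exp (2 * x) := Real.exp_pos _
  rw [Real.exp_neg, inv_le_iff_one_le_mul₀ h3]
  nlinarith

private lemma cw_adm_mono {k L : ℕ} {Q Q' : Finset ℕ} (h : Adm k L Q) (hs : Q' ⊆ Q) :
    Adm k L Q' :=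
  ⟨h.kpos, h.Lpos, fun q hq => h.prime q (hs hq), fun q hq => h.odd q (hs hq),
    fun q hq => h.ord q (hs hq), fun q hq => h.dvd q (hs hq)⟩

private lemma cw_QU_mono {Qs : ℕ → Finset ℕ} {i j : ℕ} (h : i ≤ j) : QU Qs i ⊆ QU Qs j := by
  classical
  intro q hq
  unfold QU at *
  rw [mem_biUnion] at *
  obtain ⟨l, hl, hq⟩ := hq
  exact ⟨l, mem_range.mpr ((mem_range.mp hl).trans_le h), hq⟩

private lemma cw_coef (hCfB : StmtCfB) {k R : ℕ} {Q : Finset ℕ} {θ : ℝ}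
    (hq : ∀ q ∈ Q, k ≤ q ∧ 1 ≤ q ∧ 2 * (k : ℝ) ≤ q)
    (hs : ∑ p ∈ Q, (1 : ℝ) / p ≤ 1)
    (hθ : Real.exp (-(k * ∑ p ∈ Q, (1 : ℝ) / p)) +
      (k : ℝ) ^ (2 * R + 1) / (2 * R + 1).factorial ≤ θ) :
    Real.exp (-(2 * k)) ≤ cf k R Q ∅ ∧ cf k R Q ∅ ≤ θ := by
  obtain ⟨_, h1, h2⟩ := hCfB k R Q fun q h => ⟨(hq q h).1, (hq q h).2.1⟩
  have hk0 : (0 : ℝ) ≤ k := Nat.cast_nonneg k
  have hx : ∀ q ∈ Q, 0 ≤ (k : ℝ) / q ∧ (k : ℝ) / q ≤ 1 / 2 := by
    intro q h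
    obtain ⟨_, h3, h4⟩ := hq q h
    have h5 : (1 : ℝ) ≤ q := by exact_mod_cast h3
    refine ⟨by positivity, ?_⟩
    rw [div_le_div_iff₀ (by linarith) (by norm_num)]
    linarith
  have hsum : ∑ q ∈ Q, (k : ℝ) / q = k * ∑ p ∈ Q, (1 : ℝ) / p := by
    rw [mul_sum]; apply sum_congr rfl; intro q _; ring
  constructor
  · refine le_trans ?_ h1
    calc Real.exp (-(2 * k)) ≤ Real.exp (∑ q ∈ Q, -(2 * ((k : ℝ) / q))) := by
          apply Real.exp_le_exp.mpr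
          rw [sum_neg_distrib, ← mul_sum, hsum]
          have : (k : ℝ) * ∑ p ∈ Q, (1 : ℝ) / p ≤ k * 1 := mul_le_mul_of_nonneg_left hs hk0
          linarith
      _ = ∏ q ∈ Q, Real.exp (-(2 * ((k : ℝ) / q))) := Real.exp_sum _ _
      _ ≤ ∏ q ∈ Q, (1 - (k : ℝ) / q) := by
          apply prod_le_prod
          · intro q _; exact (Real.exp_pos _).le
          · intro q h; exact cw_exp_le (hx q h).1 (hx q h).2
  · refine (h2.trans ?_).trans hθ
    apply add_le_add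
    · calc ∏ q ∈ Q, (1 - (k : ℝ) / q) ≤ ∏ q ∈ Q, Real.exp (-((k : ℝ) / q)) := by
            apply prod_le_prod
            · intro q h; have := (hx q h).2; linarith
            · intro q _; exact Real.one_sub_le_exp_neg _
        _ = Real.exp (-(k * ∑ p ∈ Q, (1 : ℝ) / p)) := by
            rw [← Real.exp_sum, sum_neg_distrib, hsum]
    · apply div_le_div_of_nonneg_right _ (by positivity)
      apply pow_le_pow_left₀
      · apply mul_nonneg hk0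
        apply sum_nonneg; intro q _; positivity
      · calc (k : ℝ) * ∑ p ∈ Q, (1 : ℝ) / p ≤ k * 1 := mul_le_mul_of_nonneg_left hs hk0
          _ = k := mul_one _

theorem tCw (hRec : StmtRec) (hCfB : StmtCfB) (hWinF : StmtWinF) (hCnt : StmtCnt)
    (hQzP : StmtQzP) (hYL : StmtYL) : StmtCw := by
  classical
  intro k R J a N m z θ hk hR hz hm hkz hs hθ hY
  obtain ⟨hdisj, hq, _, hadm, hprod⟩ := hQzP k z hk hz hkz
  set Qs := Qz z with hQs
  set L := ∏ q ∈ QU Qs J, (q - 1) with hL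
  have hAdm : Adm k L (QU Qs J) := hadm J
  have hcoef : ∀ j, Real.exp (-(2 * k)) ≤ cf k R (Qs j) ∅ ∧ cf k R (Qs j) ∅ ≤ θ := by
    intro j
    apply cw_coef hCfB _ (hs j) (hθ j)
    intro q h
    obtain ⟨_, h1, h2, h3, _⟩ := hq j q h
    exact ⟨h1, h2, h3⟩
  have he : 0 < Real.exp (-(2 * (k : ℝ))) := Real.exp_pos _
  have hc0 : ∀ j, 0 ≤ cf k R (Qs j) ∅ := fun j => he.le.trans (hcoef j).1
  have hVlow : ∀ j, Real.exp (-(2 * (k : ℝ))) ^ j ≤ ∏ l ∈ range j, cf k R (Qs l) ∅ := by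
    intro j
    calc Real.exp (-(2 * (k : ℝ))) ^ j = ∏ _l ∈ range j, Real.exp (-(2 * (k : ℝ))) := by
          rw [prod_const, card_range]
      _ ≤ _ := prod_le_prod (fun _ _ => he.le) fun l _ => (hcoef l).1
  have hVup : ∏ l ∈ range J, cf k R (Qs l) ∅ ≤ θ ^ J := by
    calc ∏ l ∈ range J, cf k R (Qs l) ∅ ≤ ∏ _l ∈ range J, θ :=
          prod_le_prod (fun l _ => hc0 l) fun l _ => (hcoef l).2
      _ = θ ^ J := by rw [prod_const, card_range]
  have hV0 : ∀ j, 0 ≤ ∏ l ∈ range j, cf k R (Qs l) ∅ := fun j => prod_nonneg fun l _ => hc0 l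
  have hw : ∀ j ≤ J, w k R L Qs j m ≤ (∏ l ∈ range j, cf k R (Qs l) ∅) * (2 - (1 / 2) ^ j) := by
    intro j
    induction j with
    | zero =>
      intro _
      have hLpos : (0 : ℝ) < L := by exact_mod_cast hAdm.Lpos
      unfold w avg Fn
      simp only [range_zero, prod_empty, sum_const, card_range, nsmul_eq_mul, mul_one, pow_zero]
      rw [div_self hLpos.ne']
      norm_num
    | succ j ih =>
      intro hj
      have ih' := ih (by omega)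
      rw [hRec k R L j m Qs hdisj]
      have hYb : Y k R L Qs j m ≤ (Real.exp (-(2 * k)) / 2) ^ (j + 1) := by
        have h1 := hYL k R j L (∏ q ∈ QU Qs (j + 1), (q - 1)) m Qs
          (cw_adm_mono hAdm (cw_QU_mono hj)) (hadm (j + 1))
        rw [h1]
        exact (le_abs_self _).trans (hY j (by omega))
      have h2 : (Real.exp (-(2 * (k : ℝ))) / 2) ^ (j + 1) ≤
          (∏ l ∈ range (j + 1), cf k R (Qs l) ∅) * (1 / 2) ^ (j + 1) := by
        rw [div_pow, div_eq_mul_one_div, one_div_pow]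
        exact mul_le_mul_of_nonneg_right (hVlow (j + 1)) (by positivity)
      have h3 : cf k R (Qs j) ∅ * w k R L Qs j m ≤
          (∏ l ∈ range (j + 1), cf k R (Qs l) ∅) * (2 - (1 / 2) ^ j) := by
        rw [prod_range_succ]
        calc cf k R (Qs j) ∅ * w k R L Qs j m ≤
            cf k R (Qs j) ∅ * ((∏ l ∈ range j, cf k R (Qs l) ∅) * (2 - (1 / 2) ^ j)) :=
              mul_le_mul_of_nonneg_left ih' (hc0 j)
          _ = _ := by ring
      have h4 : ((1 : ℝ) / 2) ^ j = 2 * (1 / 2) ^ (j + 1) := by rw [pow_succ]; ring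
      calc cf k R (Qs j) ∅ * w k R L Qs j m + Y k R L Qs j m
          ≤ (∏ l ∈ range (j + 1), cf k R (Qs l) ∅) * (2 - (1 / 2) ^ j) +
            (∏ l ∈ range (j + 1), cf k R (Qs l) ∅) * (1 / 2) ^ (j + 1) := by linarith
        _ = (∏ l ∈ range (j + 1), cf k R (Qs l) ∅) * (2 - (1 / 2) ^ (j + 1)) := by
            rw [h4]; ring
  have hz1 : (1 : ℝ) ≤ z := by linarith
  have hZ1 : (1 : ℝ) ≤ z ^ 2 ^ J := one_le_pow₀ hz1
  have hfl : 1 ≤ ⌊z ^ 2 ^ J⌋₊ := (Nat.one_le_floor_iff _).mpr hZ1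
  have hQle : ∀ q ∈ QU Qs J, q.Prime ∧ q ≤ ⌊z ^ 2 ^ J⌋₊ := by
    intro q h
    unfold QU at h
    rw [mem_biUnion] at h
    obtain ⟨j, hj, hqj⟩ := h
    obtain ⟨h1, _, _, _, h5⟩ := hq j q hqj
    refine ⟨h1, Nat.le_floor (h5.trans ?_)⟩
    apply pow_le_pow_right₀ hz1
    exact Nat.pow_le_pow_right (by norm_num) (mem_range.mp hj)
  have hcnt := hCnt k R J a N m ⌊z ^ 2 ^ J⌋₊ Qs hm hfl hk hQle
  have hwin := hWinF k R L J a N m Qs hdisj hAdm
  have hpr := hprod R J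
  have hN0 : (0 : ℝ) ≤ N := Nat.cast_nonneg N
  have hwJ : w k R L Qs J m ≤ 2 * θ ^ J := by
    have h1 := hw J le_rfl
    have h2 : (∏ l ∈ range J, cf k R (Qs l) ∅) * (2 - (1 / 2) ^ J) ≤
        (∏ l ∈ range J, cf k R (Qs l) ∅) * 2 := by
      apply mul_le_mul_of_nonneg_left _ (hV0 J)
      have : (0 : ℝ) ≤ (1 / 2) ^ J := by positivity
      linarith
    linarith
  have h5 : (N : ℝ) * w k R L Qs J m ≤ N * (2 * θ ^ J) := mul_le_mul_of_nonneg_left hwJ hN0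
  calc _ ≤ ∑ b ∈ Ico a (a + N), Fn k R Qs J b m + (Nat.log 2 ⌊z ^ 2 ^ J⌋₊ + 1) := by
        convert hcnt
    _ ≤ (N * w k R L Qs J m + 2 * ∏ j ∈ range J, (1 + ∑ q ∈ Qs j, (q : ℝ)) ^ (2 * R)) +
        (Nat.log 2 ⌊z ^ 2 ^ J⌋₊ + 1) := by linarith
    _ ≤ 2 * N * θ ^ J + 2 * (z ^ 2 ^ J) ^ (8 * R) + (Nat.log 2 ⌊z ^ 2 ^ J⌋₊ + 1) := by
        linarith

end Pool.Agent.Lib.MP_9f2731_nt.BT
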