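import Pool.Agent.Lib.MP_9f2731_nt.BT.Spec

namespace Pool.Agent.Lib.MP_9f2731_nt.BT

open Finset

private lemma cx_union {Qs : ℕ → Finset ℕ} {i : ℕ} {e : Finset ℕ} (he : e ⊆ QU Qs i) :
    e = (range i).biUnion fun j => e ∩ Qs j := by
  classical
  ext q
  rw [mem_biUnion]
  constructor
  · intro hq
    have h2 := he hq
    unfold QU at h2
    rw [mem_biUnion] at h2
    obtain ⟨j, hj, hqj⟩ := h2
    exact ⟨j, hj, mem_inter.mpr ⟨hq, hqj⟩⟩
  · rintro ⟨j, _, hq⟩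
    exact (mem_inter.mp hq).1

theorem tCx (hExc : StmtExc) (hBSum : StmtBSum) (hQzP : StmtQzP) : StmtCx := by
  classical
  intro k R i n M X z τ hk hR hz hkz hs hτ hn
  obtain ⟨hdisj, hq, hord, hadm, hprod⟩ := hQzP k z hk hz hkz
  set Qs := Qz z with hQs
  have hz0 : (0 : ℝ) < z := by linarith
  have hexp1 : ∀ j ≤ i, Real.exp (k * ∑ q ∈ Qs j, (1 : ℝ) / q) ≤ Real.exp k := by
    intro j _
    apply Real.exp_le_exp.mpr
    calc (k : ℝ) * ∑ q ∈ Qs j, (1 : ℝ) / q ≤ k * 1 :=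
          mul_le_mul_of_nonneg_left (hs j) (Nat.cast_nonneg k)
      _ = k := mul_one _
  have hC1 : 1 ≤ Real.exp k := Real.one_le_exp (Nat.cast_nonneg k)
  have hq' : ∀ j, ∀ q ∈ Qs j, k ≤ q ∧ 1 ≤ q := fun j q h => ⟨(hq j q h).2.1, (hq j q h).2.2.1⟩
  have hsum : ∑ q ∈ QU Qs (i + 1), (1 : ℝ) / q ≤ i + 1 := by
    unfold QU
    rw [sum_biUnion (fun j _ j' _ h => hdisj j j' h)]
    calc ∑ j ∈ range (i + 1), ∑ q ∈ Qs j, (1 : ℝ) / q ≤ ∑ _j ∈ range (i + 1), (1 : ℝ) :=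
          sum_le_sum fun j _ => hs j
      _ = i + 1 := by rw [sum_const, card_range, nsmul_eq_mul, mul_one]; push_cast; rfl
  have hE : ∀ e ∈ En R Qs i, e ⊆ QU Qs (i + 1) ∧ e.card ≤ 2 * R * (i + 1) := by
    intro e he
    have h1 := (mem_filter.mp he).1
    unfold Dn at h1
    rw [mem_filter, mem_powerset] at h1
    refine ⟨h1.1, ?_⟩
    conv_lhs => rw [cx_union h1.1]
    refine (card_biUnion_le).trans ?_
    calc ∑ j ∈ range (i + 1), (e ∩ Qs j).card ≤ ∑ _j ∈ range (i + 1), 2 * R := sum_le_sum h1.2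
      _ = 2 * R * (i + 1) := by rw [sum_const, card_range, smul_eq_mul]; ring
  have hmain := hExc k (∏ q ∈ QU Qs (i + 1), (q - 1)) n (2 * R * (i + 1)) M X (QU Qs (i + 1))
    ((z ^ 2 ^ i) ^ (2 / 5 : ℝ))
    (Real.exp k ^ (i + 1) * (1 + (2 * R * (i + 1) * n : ℝ) + 2 * k * (i + 1)) ^ (2 * R * (i + 1)))
    τ (Real.exp k ^ (i + 1) * (z ^ 2 ^ i) ^ (16 * R)) (En R Qs i) (ga k R Qs (i + 1))
    (hadm (i + 1)) (by positivity) (by positivity) hτ hn hE
    (by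
      intro e he
      obtain ⟨q, hqe⟩ := (mem_filter.mp he).2
      obtain ⟨h1, h2⟩ := mem_inter.mp hqe
      exact ⟨q, h1, hord i q h2⟩)
    (by
      intro U hU hUc
      refine ((hBSum k R i Qs (Real.exp k) U hC1 hdisj hq' hexp1).1).trans ?_
      apply mul_le_mul_of_nonneg_left _ (by positivity)
      apply pow_le_pow_left₀
      · have : 0 ≤ ∑ q ∈ QU Qs (i + 1), (1 : ℝ) / q := sum_nonneg fun q _ => by positivity
        positivity
      · have h1 : (U.card : ℝ) ≤ 2 * R * (i + 1) * n := by exact_mod_cast hUc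
        have h2 : 2 * (k : ℝ) * ∑ q ∈ QU Qs (i + 1), (1 : ℝ) / q ≤ 2 * k * (i + 1) :=
          mul_le_mul_of_nonneg_left hsum (by positivity)
        linarith)
    (by
      refine ((hBSum k R i Qs (Real.exp k) ∅ hC1 hdisj hq' hexp1).2).trans ?_
      apply mul_le_mul_of_nonneg_left _ (by positivity)
      refine (hprod R (i + 1)).trans (le_of_eq ?_)
      rw [show z ^ 2 ^ (i + 1) = (z ^ 2 ^ i) ^ 2 by rw [pow_succ 2 i, pow_mul],
        ← pow_mul (z ^ 2 ^ i) 2 (8 * R), show 2 * (8 * R) = 16 * R by ring])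
  unfold Y
  exact hmain

end Pool.Agent.Lib.MP_9f2731_nt.BT
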