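import Pool.Agent.Lib.MP_9f2731_nt.BT.Spec

/-! Few exceptional m: the Markov inequality. -/

namespace Pool.Agent.Lib.MP_9f2731_nt.BT

open Finset

theorem tExc (h1 : StmtMom) (h2 : StmtTran) : StmtExc := by
  classical
  intro k L n r M X Q K B τ W E γ hA hK hB hτ hn hE hord hU hW
  have hmom := h1 k L n r Q K B E γ hA hK hB hE hord hU
  have htran := h2 k L n M X Q E γ hA (fun e he => (hE e he).1)
  set S : ℕ → ℝ := fun m => ∑ e ∈ E, γ e * G k L e m with hS
  have hW0 : 0 ≤ ∑ e ∈ E, |γ e| * ∏ q ∈ e, (q : ℝ) :=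
    sum_nonneg fun e _ => mul_nonneg (abs_nonneg _) (prod_nonneg fun q _ => Nat.cast_nonneg _)
  calc (((Ioc M (M + X)).filter fun m => τ < |S m|).card : ℝ) * τ ^ n
      = ∑ m ∈ (Ioc M (M + X)).filter (fun m => τ < |S m|), τ ^ n := by
        rw [sum_const, nsmul_eq_mul]
    _ ≤ ∑ m ∈ (Ioc M (M + X)).filter (fun m => τ < |S m|), S m ^ n := by
        apply sum_le_sum
        intro m hm
        rw [← hn.pow_abs (S m)]
        exact pow_le_pow_left₀ hτ.le (mem_filter.mp hm).2.le n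
    _ ≤ ∑ m ∈ Ioc M (M + X), S m ^ n := by
        apply sum_le_sum_of_subset_of_nonneg (filter_subset _ _)
        intro m _ _
        exact hn.pow_nonneg _
    _ ≤ X * avg (PQ Q) (fun m => S m ^ n) + 2 * (∑ e ∈ E, |γ e| * ∏ q ∈ e, (q : ℝ)) ^ n := htran
    _ ≤ X * (Real.sqrt (2 * k / K) * B) ^ n + 2 * W ^ n := by
        apply add_le_add
        · exact mul_le_mul_of_nonneg_left hmom (Nat.cast_nonneg _)
        · exact mul_le_mul_of_nonneg_left (pow_le_pow_left₀ hW0 hW n) (by norm_num)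

end Pool.Agent.Lib.MP_9f2731_nt.BT
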