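import Pool.Agent.Lib.MP_9f2731_nt.BT.Spec

namespace Pool.Agent.Lib.MP_9f2731_nt.BT

open Finset

private lemma exp2_split {Qs : ℕ → Finset ℕ} (hdisj : ∀ j j', j ≠ j' → Disjoint (Qs j) (Qs j'))
    {i : ℕ} {e : Finset ℕ} (he : e ⊆ QU Qs i) (h : ℕ → ℝ) :
    ∏ j ∈ range i, ∏ q ∈ e ∩ Qs j, h q = ∏ q ∈ e, h q := by
  classical
  have h1 : e = (range i).biUnion fun j => e ∩ Qs j := by
    ext q
    rw [mem_biUnion]
    constructor
    · intro hq
      have h2 := he hq
      unfold QU at h2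
      rw [mem_biUnion] at h2
      obtain ⟨j, hj, hqj⟩ := h2
      exact ⟨j, hj, mem_inter.mpr ⟨hq, hqj⟩⟩
    · rintro ⟨j, _, hq⟩
      exact (mem_inter.mp hq).1
  conv_rhs => rw [h1]
  rw [prod_biUnion]
  intro j _ j' _ hjj'
  exact (hdisj j j' hjj').mono inter_subset_right inter_subset_right

private lemma exp2_neg (d : Finset ℕ) (h : ℕ → ℝ) :
    (-1 : ℝ) ^ d.card * ∏ q ∈ d, h q = ∏ q ∈ d, (-1 * h q) := by
  rw [prod_mul_distrib, prod_const]

theorem tExp2 (hPF : StmtPF) (hExp1 : StmtExp1) : StmtExp2 := by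
  classical
  intro k R i a m Qs hdisj
  have hsub : ∀ e ∈ Dn R Qs i, e ⊆ QU Qs i := by
    intro e he
    unfold Dn at he
    rw [mem_filter, mem_powerset] at he
    exact he.1
  constructor
  · unfold Fn F1
    have h1 := hPF R i Qs (fun _ d => (-1 : ℝ) ^ d.card * ∏ q ∈ d, H k q a m) hdisj
    rw [h1]
    apply sum_congr rfl
    intro e he
    rw [exp2_neg, ← exp2_split hdisj (hsub e he)]
    apply prod_congr rfl
    intro j _
    exact exp2_neg _ _
  · have h0 : Fn k R Qs i a m = ∏ j ∈ range i, ∑ e ∈ low (2 * R) (Qs j),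
        cf k R (Qs j) e * ∏ q ∈ e, g k q a m := by
      unfold Fn
      apply prod_congr rfl
      intro j _
      exact hExp1 k R (Qs j) a m
    rw [h0]
    have h1 := hPF R i Qs (fun j e => cf k R (Qs j) e * ∏ q ∈ e, g k q a m) hdisj
    rw [h1]
    apply sum_congr rfl
    intro e he
    rw [prod_mul_distrib, exp2_split hdisj (hsub e he)]
    rfl

end Pool.Agent.Lib.MP_9f2731_nt.BT
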