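import Pool.Agent.Lib.MP_9f2731_nt.BT.Spec

namespace Pool.Agent.Lib.MP_9f2731_nt.BT

open Finset

private lemma f1p_H (k q a m : ℕ) : 0 ≤ H k q a m ∧ H k q a m ≤ 1 := by
  unfold H
  split_ifs <;> simp

theorem tF1P (hBonf : StmtBonf) : StmtF1P := by
  classical
  intro k R Q a m
  constructor
  · unfold F1
    refine le_trans ?_ (hBonf R Q (fun q => H k q a m) fun q _ => f1p_H k q a m).1
    apply prod_nonneg
    intro q _
    have := (f1p_H k q a m).2
    linarith
  · intro h
    unfold F1
    rw [sum_eq_single ∅]
    · simp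
    · intro d hd hne
      unfold low at hd
      rw [mem_filter, mem_powerset] at hd
      obtain ⟨q, hq⟩ := nonempty_iff_ne_empty.mpr hne
      rw [prod_eq_zero hq (h q (hd.1 hq)), mul_zero]
    · intro h1
      exfalso
      apply h1
      unfold low
      rw [mem_filter, mem_powerset]
      exact ⟨empty_subset _, by simp⟩

end Pool.Agent.Lib.MP_9f2731_nt.BT
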