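import Pool.Agent.Lib.MP_9f2731_nt.BT.Spec

namespace Pool.Agent.Lib.MP_9f2731_nt.BT

open Finset Filter

/-- the exceptional set of scale `i` -/
private noncomputable def Ei (k R M X : ℕ) (z : ℝ) (i : ℕ) : Finset ℕ := by
  classical
  exact (Ioc M (M + X)).filter fun m =>
      (Real.exp (-(2 * k)) / 2) ^ (i + 1) < |Y k R (∏ q ∈ QU (Qz z) (i + 1), (q - 1)) (Qz z) i m|

private lemma final_Ei_card (h1 : StmtCx) {k R n M X i : ℕ} {z : ℝ} (hk : 1 ≤ k) (hR : 1 ≤ R)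
    (hz : 4 ≤ z) (hkz : (k : ℝ) ≤ z ^ (2 / 5 : ℝ)) (hs : ∀ j, ∑ p ∈ Qz z j, (1 : ℝ) / p ≤ 1)
    (hn : Even n) {B : ℝ}
    (hB : X * (Real.sqrt (2 * k / (z ^ 2 ^ i) ^ (2 / 5 : ℝ)) * (Real.exp k ^ (i + 1) *
      (1 + (2 * R * (i + 1) * n : ℝ) + 2 * k * (i + 1)) ^ (2 * R * (i + 1)))) ^ n +
    2 * (Real.exp k ^ (i + 1) * (z ^ 2 ^ i) ^ (16 * R)) ^ n ≤
      B * ((Real.exp (-(2 * k)) / 2) ^ (i + 1)) ^ n) :
    ((Ei k R M X z i).card : ℝ) ≤ B := by
  classical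
  have hpos : (0 : ℝ) < (Real.exp (-(2 * k)) / 2) ^ (i + 1) := by positivity
  have h2 := h1 k R i n M X z _ hk hR hz hkz hs hpos hn
  have h3 := h2.trans hB
  have h4 : (0 : ℝ) < ((Real.exp (-(2 * k)) / 2) ^ (i + 1)) ^ n := by positivity
  have h5 := le_of_mul_le_mul_right h3 h4
  unfold Ei
  convert h5

theorem tFinal (hCx : StmtCx) (hCw : StmtCw) (hNum : StmtNum) (hNum2 : StmtNum2)
    (hTheta : StmtTheta) (hScal : StmtScal) : StmtFinal := by
  classical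
  intro k η hk hη hη1
  obtain ⟨R, ε, hR, hε, hθ⟩ := hTheta k η hk hη
  obtain ⟨z₀, hz₀, hsc⟩ := hScal ε hε
  obtain ⟨X₁, hX₁⟩ := hNum k R hk hR
  obtain ⟨A, hA, X₂, hX₂⟩ := hNum2 k R η (2 ^ (-((k : ℝ) - η / 2))) hk hR hη hη1
    (by positivity) le_rfl
  have hRpos : (0 : ℝ) < R := by exact_mod_cast hR
  -- eventual facts
  have hcast : Tendsto (fun X : ℕ => (X : ℝ)) atTop atTop := tendsto_natCast_atTop_atTop
  have hlogt : Tendsto (fun X : ℕ => Real.log X) atTop atTop := Real.tendsto_log_atTop.comp hcast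
  have hzt : Tendsto (fun X : ℕ => Real.log X ^ (100 * R)) atTop atTop :=
    (tendsto_pow_atTop (by positivity)).comp hlogt
  have f1 : ∀ᶠ X : ℕ in atTop, max (max z₀ 4) ((k : ℝ) ^ (5 / 2 : ℝ)) ≤ Real.log X ^ (100 * R) :=
    hzt.eventually_ge_atTop _
  have f2 : ∀ᶠ X : ℕ in atTop, (2 : ℝ) ≤ Real.log X := hlogt.eventually_ge_atTop _
  -- (log X + 2) * 3 X^(1 - 1/(800R)) ≤ X^(1-1/(900R))
  set c : ℝ := 1 / (800 * R) - 1 / (900 * R) with hc
  have hcpos : 0 < c := by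
    rw [hc, sub_pos]
    apply one_div_lt_one_div_of_lt <;> nlinarith
  have f3 : ∀ᶠ X : ℕ in atTop, (3 * (Real.log X + 2)) ≤ (X : ℝ) ^ c := by
    have h1 : Tendsto (fun x : ℝ => Real.log x / x ^ c) atTop (nhds 0) := by
      have := (isLittleO_log_rpow_atTop hcpos).tendsto_div_nhds_zero
      exact this
    have h2 : Tendsto (fun x : ℝ => x ^ c) atTop atTop := tendsto_rpow_atTop hcpos
    have h3 : ∀ᶠ x : ℝ in atTop, 3 * (Real.log x + 2) ≤ x ^ c := by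
      have h4 := h1.eventually (gt_mem_nhds (show (0 : ℝ) < 1 / 6 by norm_num))
      have h5 := h2.eventually_ge_atTop 12
      filter_upwards [h4, h5, eventually_gt_atTop 0] with x h4 h5 hx
      have h6 : (0 : ℝ) < x ^ c := Real.rpow_pos_of_pos hx c
      rw [div_lt_iff₀ h6] at h4
      linarith
    exact hcast.eventually h3
  obtain ⟨X₃, hX₃⟩ := eventually_atTop.mp (f1.and (f2.and f3))
  refine ⟨A, 1 / (900 * R), hA, by positivity, max (max X₁ X₂) (max X₃ 1), fun X hX M => ?_⟩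
  obtain ⟨⟨g1, g2⟩, g3, g4⟩ : (X₁ ≤ X ∧ X₂ ≤ X) ∧ X₃ ≤ X ∧ 1 ≤ X := by
    simp only [max_le_iff] at hX
    tauto
  obtain ⟨e1, e2, e3⟩ := hX₃ X g3
  set ℓ := Real.log X with hℓ
  set z := ℓ ^ (100 * R) with hz
  have hXpos : (0 : ℝ) < X := by exact_mod_cast g4
  simp only [max_le_iff] at e1
  obtain ⟨⟨hz1, hz2⟩, hz3⟩ := e1
  have hz0 : 0 < z := by linarith
  have hkz : (k : ℝ) ≤ z ^ (2 / 5 : ℝ) := by
    have h1 : ((k : ℝ) ^ (5 / 2 : ℝ)) ^ (2 / 5 : ℝ) ≤ z ^ (2 / 5 : ℝ) :=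
      Real.rpow_le_rpow (by positivity) hz3 (by norm_num)
    rwa [← Real.rpow_mul (by positivity), show (5 / 2 : ℝ) * (2 / 5) = 1 by norm_num,
      Real.rpow_one] at h1
  have hzj : ∀ j : ℕ, z₀ ≤ z ^ 2 ^ j := by
    intro j
    have h1 : z ≤ z ^ 2 ^ j := le_self_pow₀ (by linarith) (by positivity)
    linarith
  have hs1 : ∀ j, ∑ p ∈ Qz z j, (1 : ℝ) / p ≤ 1 := fun j => (hsc _ (hzj j)).2
  have hs2 : ∀ j, Real.exp (-(k * ∑ p ∈ Qz z j, (1 : ℝ) / p)) +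
      (k : ℝ) ^ (2 * R + 1) / (2 * R + 1).factorial ≤ 2 ^ (-((k : ℝ) - η / 2)) :=
    fun j => hθ _ (hsc _ (hzj j)).1
  -- indices
  set I := ⌈ℓ⌉₊ + 1 with hI
  set E := ((range I).filter fun i => Real.log (z ^ 2 ^ i) ≤ ℓ / (80 * R)).biUnion
    (Ei k R M X z) with hE
  have hidx : ∀ i : ℕ, Real.log (z ^ 2 ^ i) ≤ ℓ / (80 * R) → i ∈ range I := by
    intro i hi
    rw [mem_range, hI]
    have h1 : (i : ℝ) ≤ ℓ := by
      have h2 : (i : ℝ) ≤ (2 : ℝ) ^ i := by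
        have : i < 2 ^ i := Nat.lt_two_pow_self
        exact_mod_cast this.le
      rw [Real.log_pow] at hi
      push_cast at hi
      have h3 : 1 ≤ Real.log z := by
        rw [Real.le_log_iff_exp_le hz0]
        have := Real.exp_one_lt_d9
        linarith
      have h4 : (2 : ℝ) ^ i * 1 ≤ 2 ^ i * Real.log z := by
        apply mul_le_mul_of_nonneg_left h3 (by positivity)
      have h5 : ℓ / (80 * R) ≤ ℓ := by
        apply div_le_self (by linarith)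
        have : (1 : ℝ) ≤ R := by exact_mod_cast hR
        linarith
      linarith
    have h6 : (i : ℝ) ≤ (⌈ℓ⌉₊ : ℝ) := h1.trans (Nat.le_ceil _)
    have : i ≤ ⌈ℓ⌉₊ := by exact_mod_cast h6
    omega
  refine ⟨E, ?_, ?_⟩
  · -- size
    have h1 : (E.card : ℝ) ≤ ∑ i ∈ (range I).filter (fun i => Real.log (z ^ 2 ^ i) ≤ ℓ / (80 * R)),
        ((Ei k R M X z i).card : ℝ) := by
      have := Finset.card_biUnion_le (s := (range I).filter
        (fun i => Real.log (z ^ 2 ^ i) ≤ ℓ / (80 * R))) (t := Ei k R M X z)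
      rw [hE]
      exact_mod_cast this
    have h2 : ∑ i ∈ (range I).filter (fun i => Real.log (z ^ 2 ^ i) ≤ ℓ / (80 * R)),
        ((Ei k R M X z i).card : ℝ) ≤
        ∑ i ∈ (range I).filter (fun i => Real.log (z ^ 2 ^ i) ≤ ℓ / (80 * R)),
          3 * (X : ℝ) ^ (1 - 1 / (800 * R : ℝ)) := by
      apply sum_le_sum
      intro i hi
      have hi2 := (mem_filter.mp hi).2
      obtain ⟨n, hn, hn2⟩ := hX₁ X g1 i hi2
      exact final_Ei_card hCx hk hR hz2 hkz hs1 hn hn2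
    rw [sum_const, nsmul_eq_mul] at h2
    have h3 : (((range I).filter fun i => Real.log (z ^ 2 ^ i) ≤ ℓ / (80 * R)).card : ℝ) ≤ ℓ + 2 := by
      have h4 : ((range I).filter fun i => Real.log (z ^ 2 ^ i) ≤ ℓ / (80 * R)).card ≤ I := by
        calc _ ≤ (range I).card := card_filter_le _ _
          _ = I := card_range I
      have h5 : (I : ℝ) ≤ ℓ + 2 := by
        rw [hI]
        push_cast
        have := Nat.ceil_lt_add_one (show 0 ≤ ℓ by linarith)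
        linarith
      have h6 : (((range I).filter fun i => Real.log (z ^ 2 ^ i) ≤ ℓ / (80 * R)).card : ℝ) ≤ I := by
        exact_mod_cast h4
      linarith
    have h7 : (X : ℝ) ^ (1 - 1 / (900 * R : ℝ)) = X ^ c * X ^ (1 - 1 / (800 * R : ℝ)) := by
      rw [← Real.rpow_add hXpos]
      congr 1
      rw [hc]; ring
    have h8 : (0 : ℝ) < (X : ℝ) ^ (1 - 1 / (800 * R : ℝ)) := Real.rpow_pos_of_pos hXpos _
    calc (E.card : ℝ) ≤ (ℓ + 2) * (3 * (X : ℝ) ^ (1 - 1 / (800 * R : ℝ))) := by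
          refine (h1.trans h2).trans ?_
          exact mul_le_mul_of_nonneg_right h3 (by positivity)
      _ = (3 * (ℓ + 2)) * (X : ℝ) ^ (1 - 1 / (800 * R : ℝ)) := by ring
      _ ≤ X ^ c * X ^ (1 - 1 / (800 * R : ℝ)) := mul_le_mul_of_nonneg_right e3 h8.le
      _ = _ := h7.symm
  · intro m hm1 hm2 hm3 a N hN
    obtain ⟨J, hJ1, hJ2⟩ := hX₂ X g2 N hN
    refine (hCw k R J a N m z _ hk hR hz2 (by omega) hkz hs1 hs2 ?_).trans hJ2
    intro j hj
    by_contra hcon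
    push Not at hcon
    apply hm3
    rw [hE, mem_biUnion]
    have hj1 : Real.log (z ^ 2 ^ j) ≤ ℓ / (80 * R) := by
      refine le_trans ?_ hJ1
      apply Real.log_le_log (by positivity)
      apply pow_le_pow_right₀ (by linarith)
      exact Nat.pow_le_pow_right (by norm_num) hj.le
    refine ⟨j, mem_filter.mpr ⟨hidx j hj1, hj1⟩, ?_⟩
    unfold Ei
    rw [mem_filter, mem_Ioc]
    exact ⟨⟨hm1, hm2⟩, hcon⟩

end Pool.Agent.Lib.MP_9f2731_nt.BT
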