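import Pool.Agent.Lib.MP_9f2731_nt.BT.Spec

/-! A Finner inequality: every prime is used by at most two of the functions. -/

namespace Pool.Agent.Lib.MP_9f2731_nt.BT

open Finset

private lemma finn_mono (L : ℕ) (f g : ℕ → ℝ) (h : ∀ x, f x ≤ g x) : avg L f ≤ avg L g := by
  unfold avg
  exact div_le_div_of_nonneg_right (sum_le_sum fun x _ => h x) (Nat.cast_nonneg _)

private lemma finn_nonneg (L : ℕ) (f : ℕ → ℝ) (h : ∀ x, 0 ≤ f x) : 0 ≤ avg L f := by
  unfold avg
  exact div_nonneg (sum_nonneg fun x _ => h x) (Nat.cast_nonneg _)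

private lemma finn_const (L : ℕ) (hL : 0 < L) (c : ℝ) : avg L (fun _ => c) = c := by
  unfold avg
  have hL0 : (L : ℝ) ≠ 0 := by exact_mod_cast hL.ne'
  rw [sum_const, card_range, nsmul_eq_mul, mul_div_cancel_left₀ _ hL0]

private lemma finn_cs (L : ℕ) (hL : 0 < L) (f g : ℕ → ℝ) :
    avg L (fun t => f t * g t) ≤
      Real.sqrt (avg L fun t => f t ^ 2) * Real.sqrt (avg L fun t => g t ^ 2) := by
  have hL0 : (0 : ℝ) < L := by exact_mod_cast hL
  unfold avg
  rw [Real.sqrt_div' _ hL0.le, Real.sqrt_div' _ hL0.le, div_mul_div_comm,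
    Real.mul_self_sqrt hL0.le]
  exact div_le_div_of_nonneg_right (Real.sum_mul_le_sqrt_mul_sqrt _ _ _) hL0.le

private lemma finn_two {n : ℕ} (L : ℕ) (hL : 0 < L) (S : Finset (Fin n)) (hS : S.card ≤ 2)
    (h : Fin n → ℕ → ℝ) :
    avg L (fun t => ∏ j ∈ S, h j t) ≤ ∏ j ∈ S, Real.sqrt (avg L fun t => h j t ^ 2) := by
  have hc : S.card = 0 ∨ S.card = 1 ∨ S.card = 2 := by omega
  rcases hc with hc | hc | hc
  · rw [card_eq_zero] at hc
    subst hc
    simp only [prod_empty]
    exact (finn_const L hL 1).le
  · rw [card_eq_one] at hc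
    obtain ⟨a, rfl⟩ := hc
    simp only [prod_singleton]
    have h1 := finn_cs L hL (h a) (fun _ => 1)
    simp only [mul_one, one_pow] at h1
    rw [finn_const L hL 1, Real.sqrt_one, mul_one] at h1
    exact h1
  · rw [card_eq_two] at hc
    obtain ⟨a, b, hab, rfl⟩ := hc
    simp only [prod_pair hab]
    exact finn_cs L hL (h a) (h b)

private lemma finn_PQpos (Q : Finset ℕ) (h : ∀ q ∈ Q, q.Prime) : 0 < PQ Q :=
  prod_pos fun q hq => (h q hq).pos

theorem tFinn (hB : StmtAvgB) : StmtFinn := by
  intro n Q
  induction Q using Finset.induction_on with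
  | empty =>
    intro f e _ _ _ h0 _
    unfold avg PQ
    simp only [prod_empty, Nat.cast_one, div_one, range_one, sum_singleton]
    apply le_of_eq
    apply prod_congr rfl
    intro j _
    rw [Real.sqrt_sq (h0 j 0)]
  | insert q Q' hq ih =>
    intro f e hpr he hdep h0 hcard
    have hqp : q.Prime := hpr q (mem_insert_self _ _)
    have hpr' : ∀ p ∈ Q', p.Prime := fun p hp => hpr p (mem_insert_of_mem hp)
    set P := PQ Q' with hPdef
    have hP : 0 < P := finn_PQpos Q' hpr'
    have hcop : P.Coprime q := by
      rw [hPdef]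
      unfold PQ
      apply Nat.Coprime.prod_left
      intro p hp
      rw [Nat.coprime_primes (hpr' p hp) hqp]
      rintro rfl
      exact hq hp
    have hPQ : PQ (insert q Q') = P * q := by
      unfold PQ
      rw [prod_insert hq, mul_comm]
      rfl
    have hdvd : ∀ p ∈ Q', p ∣ P := fun p hp => dvd_prod_of_mem _ hp
    have hdvd' : ∀ p ∈ insert q Q', p ∣ P * q := by
      intro p hp
      rw [← hPQ]
      exact dvd_prod_of_mem _ hp
    let cr : ℕ → ℕ → ℕ := fun x t => (Nat.chineseRemainder hcop x t : ℕ)
    have hcr1 : ∀ x t, cr x t ≡ x [MOD P] := fun x t => (Nat.chineseRemainder hcop x t).2.1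
    have hcr2 : ∀ x t, cr x t ≡ t [MOD q] := fun x t => (Nat.chineseRemainder hcop x t).2.2
    have hper : ∀ j x y, x ≡ y [MOD (P * q)] → f j x = f j y := by
      intro j x y hxy
      apply hdep j x y
      intro p hp
      exact hxy.of_dvd (hdvd' p (he j hp))
    set F : Fin n → ℕ → ℝ := fun j x => Real.sqrt (avg q fun t => f j (cr x t) ^ 2) with hF
    -- the functions not using q
    have hnot : ∀ j, q ∉ e j → ∀ x t, f j (cr x t) = f j x := by
      intro j hj x t
      apply hdep j
      intro p hp
      have hp' : p ∈ Q' := by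
        rcases mem_insert.mp (he j hp) with h | h
        · exact absurd (h ▸ hp) hj
        · exact h
      exact (hcr1 x t).of_dvd (hdvd p hp')
    have hFnot : ∀ j, q ∉ e j → ∀ x, F j x = f j x := by
      intro j hj x
      rw [hF]
      simp only [hnot j hj]
      rw [finn_const q hqp.pos, Real.sqrt_sq (h0 j x)]
    have hA : ∀ x, avg q (fun t => ∏ j, f j (cr x t)) ≤ ∏ j, F j x := by
      intro x
      have e1 : ∀ t, ∏ j, f j (cr x t) =
          (∏ j ∈ univ.filter (fun j => ¬ q ∈ e j), f j x) *
            ∏ j ∈ univ.filter (fun j => q ∈ e j), f j (cr x t) := by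
        intro t
        rw [← prod_filter_mul_prod_filter_not univ (fun j => q ∈ e j), mul_comm]
        congr 1
        apply prod_congr rfl
        intro j hj
        exact hnot j (mem_filter.mp hj).2 x t
      have e2 : ∏ j, F j x = (∏ j ∈ univ.filter (fun j => ¬ q ∈ e j), f j x) *
            ∏ j ∈ univ.filter (fun j => q ∈ e j), F j x := by
        rw [← prod_filter_mul_prod_filter_not univ (fun j => q ∈ e j), mul_comm]
        congr 1
        apply prod_congr rfl
        intro j hj
        exact hFnot j (mem_filter.mp hj).2 x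
      have e3 : avg q (fun t => ∏ j, f j (cr x t)) =
          (∏ j ∈ univ.filter (fun j => ¬ q ∈ e j), f j x) *
            avg q (fun t => ∏ j ∈ univ.filter (fun j => q ∈ e j), f j (cr x t)) := by
        simp only [e1]
        unfold avg
        rw [← mul_sum, mul_div_assoc]
      rw [e2, e3]
      apply mul_le_mul_of_nonneg_left
      · exact finn_two q hqp.pos _ (hcard q (mem_insert_self _ _)) (fun j t => f j (cr x t))
      · exact prod_nonneg fun j _ => h0 j x
    have hFdep : ∀ j, Dep ((e j).erase q) (F j) := by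
      intro j x y hxy
      rw [hF]
      simp only
      congr 2
      funext t
      congr 1
      apply hdep j
      intro p hp
      by_cases hpq : p = q
      · subst hpq
        exact (hcr2 x t).trans (hcr2 y t).symm
      · have hp' : p ∈ Q' := (mem_insert.mp (he j hp)).resolve_left hpq
        exact ((hcr1 x t).of_dvd (hdvd p hp')).trans
          ((hxy p (mem_erase.mpr ⟨hpq, hp⟩)).trans ((hcr1 y t).of_dvd (hdvd p hp')).symm)
    have hC : ∀ j, avg P (fun x => F j x ^ 2) = avg (P * q) (fun x => f j x ^ 2) := by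
      intro j
      rw [hB P q (fun x => f j x ^ 2) cr hP hqp.pos hcop
        (fun x y hxy => by rw [hper j x y hxy]) hcr1 hcr2]
      congr 1
      funext x
      rw [hF]
      exact Real.sq_sqrt (finn_nonneg _ _ fun t => sq_nonneg _)
    have hIH := ih F (fun j => (e j).erase q) hpr'
      (by
        intro j p hp
        rw [mem_erase] at hp
        exact (mem_insert.mp (he j hp.2)).resolve_left hp.1)
      hFdep (fun j x => Real.sqrt_nonneg _)
      (by
        intro p hp
        refine le_trans (card_le_card ?_) (hcard p (mem_insert_of_mem hp))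
        intro j hj
        rw [mem_filter] at hj ⊢
        exact ⟨hj.1, mem_of_mem_erase hj.2⟩)
    rw [hPQ]
    calc avg (P * q) (fun x => ∏ j, f j x)
        = avg P (fun x => avg q fun t => ∏ j, f j (cr x t)) :=
          hB P q (fun x => ∏ j, f j x) cr hP hqp.pos hcop
            (fun x y hxy => prod_congr rfl fun j _ => hper j x y hxy) hcr1 hcr2
      _ ≤ avg P (fun x => ∏ j, F j x) := finn_mono _ _ _ hA
      _ ≤ ∏ j, Real.sqrt (avg P fun x => F j x ^ 2) := hIH
      _ = ∏ j, Real.sqrt (avg (P * q) fun x => f j x ^ 2) := by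
          apply prod_congr rfl
          intro j _
          rw [hC j]

end Pool.Agent.Lib.MP_9f2731_nt.BT
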