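import Pool.Agent.Lib.MP_9f2731_nt.BT.Spec

/-! The centred indicators. -/

namespace Pool.Agent.Lib.MP_9f2731_nt.BT

open Finset

private lemma gbd_mono (L : ℕ) (f g : ℕ → ℝ) (h : ∀ x, f x ≤ g x) : avg L f ≤ avg L g := by
  unfold avg
  exact div_le_div_of_nonneg_right (sum_le_sum fun x _ => h x) (Nat.cast_nonneg _)

private lemma gbd_add (L : ℕ) (hL : 0 < L) (f : ℕ → ℝ) (c : ℝ) :
    avg L (fun x => f x + c) = avg L f + c := by
  unfold avg
  have hL0 : (L : ℝ) ≠ 0 := by exact_mod_cast hL.ne'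
  rw [sum_add_distrib, sum_const, card_range, nsmul_eq_mul, add_div, mul_div_cancel_left₀ _ hL0]

theorem tGBd (h1 : StmtHit) (h2 : StmtAvgP) : StmtGBd := by
  classical
  intro k L q hk hL hq hq2 hord hdvd
  obtain ⟨e1, e2, e3, e4⟩ := h1 k q hk hq hq2 hord
  obtain ⟨ho0, hoq⟩ := orderOf_pos' hq hq2
  have hq1 : 0 < q - 1 := by have := hq.two_le; omega
  have hq0 : (0 : ℝ) < q := by exact_mod_cast hq.pos
  have ho0' : (0 : ℝ) < orderOf (2 : ZMod q) := by exact_mod_cast ho0
  have hkq : (k : ℝ) / q ≤ 1 := by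
    rw [div_le_one hq0]
    have : k ≤ q := by omega
    exact_mod_cast this
  have hkq0 : 0 ≤ (k : ℝ) / q := by positivity
  have hH : ∀ a m, 0 ≤ H k q a m ∧ H k q a m ≤ 1 := by
    intro a m
    unfold H
    split_ifs <;> norm_num
  have hgabs : ∀ a m, |g k q a m| ≤ H k q a m + (k : ℝ) / q := by
    intro a m
    obtain ⟨f1, f2⟩ := hH a m
    unfold g
    rw [abs_le]
    constructor <;> linarith
  have hper2 : ∀ a m, g k q (a + (q - 1)) m = g k q a m := by
    intro a m
    unfold g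
    rw [e2]
  refine ⟨?_, hper2, ?_, ?_, ?_, ?_⟩
  · intro a m
    unfold g
    rw [e1]
  · intro a m
    obtain ⟨f1, f2⟩ := hH a m
    unfold g
    rw [abs_le]
    constructor <;> linarith
  · intro a
    have h3 : (fun m => g k q a m) = fun m => H k q a m + (-((k : ℝ) / q)) := by
      funext m
      unfold g
      ring
    rw [h3, gbd_add q hq.pos, e3]
    ring
  · intro a
    refine (gbd_mono q _ _ (hgabs a)).trans ?_
    rw [gbd_add q hq.pos, e3]
    apply le_of_eq
    ring
  · intro m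
    rw [h2 (q - 1) L (fun a => |g k q a m|) hq1 hdvd hL (fun a => by rw [hper2])]
    refine (gbd_mono (q - 1) _ _ (fun a => hgabs a m)).trans ?_
    rw [gbd_add (q - 1) hq1]
    have h3 : (k : ℝ) / q ≤ (k : ℝ) / orderOf (2 : ZMod q) := by
      apply div_le_div_of_nonneg_left (Nat.cast_nonneg _) ho0'
      have : orderOf (2 : ZMod q) ≤ q := by omega
      exact_mod_cast this
    have h4 := e4 m
    calc _ ≤ (k : ℝ) / orderOf (2 : ZMod q) + (k : ℝ) / orderOf (2 : ZMod q) := by linarith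
      _ = 2 * k / orderOf (2 : ZMod q) := by ring

end Pool.Agent.Lib.MP_9f2731_nt.BT
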