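import Pool.Agent.Lib.MP_9f2731_nt.BT.Spec

namespace Pool.Agent.Lib.MP_9f2731_nt.BT

open Finset

private theorem gap_avg_mono (L : ℕ) (f h : ℕ → ℝ) (hfh : ∀ x, f x ≤ h x) :
    avg L f ≤ avg L h := by
  unfold avg
  exact div_le_div_of_nonneg_right (Finset.sum_le_sum fun x _ => hfh x) (Nat.cast_nonneg L)

private theorem gap_avg_nonneg (L : ℕ) (f : ℕ → ℝ) (hf : ∀ x, 0 ≤ f x) : 0 ≤ avg L f := by
  unfold avg
  exact div_nonneg (Finset.sum_nonneg fun x _ => hf x) (Nat.cast_nonneg L)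

private theorem gap_avg_const (L : ℕ) (hL : 0 < L) (c : ℝ) : avg L (fun _ => c) = c := by
  unfold avg
  have : (L : ℝ) ≠ 0 := by exact_mod_cast hL.ne'
  rw [Finset.sum_const, Finset.card_range, nsmul_eq_mul]
  field_simp

private theorem gap_per (f : ℕ → ℝ) (q : ℕ) (h : ∀ x, f (x + q) = f x) {x y : ℕ}
    (hxy : x ≡ y [MOD q]) : f x = f y := by
  have hp : Function.Periodic f q := h
  rw [← hp.map_mod_nat x, ← hp.map_mod_nat y, hxy]

theorem tGaP (hG : StmtGBd) (hP : StmtProd) : StmtGaP := by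
  intro k L Q hQ
  have hg : ∀ q ∈ Q, _ := fun q hq =>
    hG k L q hQ.kpos hQ.Lpos (hQ.prime q hq) (hQ.odd q hq) (hQ.ord q hq) (hQ.dvd q hq)
  have hnn : ∀ (e : Finset ℕ) (a m : ℕ), 0 ≤ ∏ q ∈ e, |g k q a m| := fun e a m =>
    Finset.prod_nonneg fun q _ => abs_nonneg _
  have hmono : ∀ e ⊆ Q, ∀ e' ⊆ e, ∀ m, Ga k L e m ≤ Ga k L e' m := by
    intro e he e' he' m
    refine gap_avg_mono L _ _ fun a => ?_
    rw [← Finset.prod_sdiff he']
    refine mul_le_of_le_one_left (hnn e' a m) ?_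
    exact Finset.prod_le_one (fun q _ => abs_nonneg _) fun q hq =>
      (hg q (he (Finset.mem_sdiff.1 hq).1)).2.2.1 a m
  have hdep : ∀ e ⊆ Q, ∀ x y : ℕ, (∀ q ∈ e, x ≡ y [MOD q]) → ∀ a, ∀ q ∈ e,
      g k q a x = g k q a y := by
    intro e he x y hxy a q hq
    exact gap_per (fun m => g k q a m) q ((hg q (he hq)).1 a) (hxy q hq)
  refine ⟨?_, ?_, ?_, hmono, ?_, ?_, ?_, ?_⟩
  · intro e he m
    exact gap_avg_nonneg L _ fun a => hnn e a m
  · intro e he m
    unfold G Ga avg
    rw [abs_div, Nat.abs_cast]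
    refine div_le_div_of_nonneg_right ?_ (Nat.cast_nonneg L)
    refine (Finset.abs_sum_le_sum_abs _ _).trans ?_
    exact Finset.sum_le_sum fun a _ => (Finset.abs_prod _ _).le
  · intro e he m
    refine (gap_avg_mono L _ (fun _ => 1) fun a => ?_).trans (gap_avg_const L hQ.Lpos 1).le
    exact Finset.prod_le_one (fun q _ => abs_nonneg _) fun q hq => (hg q (he hq)).2.2.1 a m
  · intro e he q hq m
    refine (hmono e he {q} (by simpa using hq) m).trans ?_
    have h := (hg q (he hq)).2.2.2.2.2 m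
    unfold Ga
    simpa using h
  · intro e he x y hxy
    unfold G avg
    congr 1
    exact Finset.sum_congr rfl fun a _ => Finset.prod_congr rfl fun q hq =>
      hdep e he x y hxy a q hq
  · intro e he x y hxy
    unfold Ga avg
    congr 1
    exact Finset.sum_congr rfl fun a _ => Finset.prod_congr rfl fun q hq => by
      rw [hdep e he x y hxy a q hq]
  · intro e he
    have hex : avg (PQ Q) (Ga k L e) =
        avg L fun a => avg (PQ Q) fun m => ∏ q ∈ e, |g k q a m| := by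
      unfold Ga avg
      rw [← Finset.sum_div, ← Finset.sum_div, Finset.sum_comm, div_right_comm]
    rw [hex]
    refine (gap_avg_mono L _ (fun _ => ∏ q ∈ e, (2 * k / q : ℝ)) fun a => ?_).trans
      (gap_avg_const L hQ.Lpos _).le
    rw [hP Q e (fun q m => |g k q a m|) he hQ.prime (fun q hq x => by
      rw [(hg q hq).1 a x])]
    exact Finset.prod_le_prod (fun q _ => gap_avg_nonneg q _ fun _ => abs_nonneg _)
      fun q hq => (hg q (he hq)).2.2.2.2.1 a

end Pool.Agent.Lib.MP_9f2731_nt.BT
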