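import Pool.Agent.Lib.MP_9f2731_nt.BT.Spec

/-! Elementary facts on the events. -/

namespace Pool.Agent.Lib.MP_9f2731_nt.BT

open Finset

private lemma hit_iff (q b m : ℕ) : q ∣ m * 2 ^ b + 1 ↔ (m : ZMod q) * 2 ^ b + 1 = 0 := by
  rw [← ZMod.natCast_eq_zero_iff]
  push_cast
  rfl

private lemma hit_eq (k q a m : ℕ) [Decidable (∃ t < k, (m : ZMod q) * 2 ^ (a + t) + 1 = 0)] :
    H k q a m = if ∃ t < k, (m : ZMod q) * 2 ^ (a + t) + 1 = 0 then 1 else 0 := by
  classical
  unfold H
  simp only [hit_iff]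

private lemma hit_two {q : ℕ} (hq : q.Prime) (hq2 : q ≠ 2) : (2 : ZMod q) ≠ 0 := by
  intro h
  have : ((2 : ℕ) : ZMod q) = 0 := by exact_mod_cast h
  rw [ZMod.natCast_eq_zero_iff] at this
  exact hq2 ((Nat.prime_dvd_prime_iff_eq hq Nat.prime_two).mp this)

private lemma hit_avg (L : ℕ) (p : ℕ → Prop) [DecidablePred p] :
    avg L (fun x => if p x then (1 : ℝ) else 0) = (((range L).filter p).card : ℝ) / L := by
  unfold avg
  rw [card_filter]
  push_cast
  rfl

theorem tHit : StmtHit := by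
  classical
  intro k q hk hq hq2 hord
  have : Fact q.Prime := ⟨hq⟩
  have h2 := hit_two hq hq2
  have hq1 : 0 < q - 1 := by have := hq.two_le; omega
  obtain ⟨ho0, -⟩ := orderOf_pos' hq hq2
  set o := orderOf (2 : ZMod q) with ho
  refine ⟨?_, ?_, ?_, ?_⟩
  · intro a m
    rw [hit_eq, hit_eq]
    simp only [Nat.cast_add, ZMod.natCast_self, add_zero]
  · intro a m
    have h3 : (2 : ZMod q) ^ (q - 1) = 1 := ZMod.pow_card_sub_one_eq_one h2
    have h4 : ∀ t, (2 : ZMod q) ^ (a + (q - 1) + t) = 2 ^ (a + t) := by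
      intro t
      rw [show a + (q - 1) + t = a + t + (q - 1) by omega, pow_add, h3, mul_one]
    rw [hit_eq, hit_eq]
    simp only [h4]
  · intro a
    have h3 : ∀ m, H k q a m = if ∃ t < k, (m : ZMod q) * 2 ^ (a + t) + 1 = 0 then 1 else 0 :=
      fun m => hit_eq k q a m
    simp only [h3]
    rw [hit_avg]
    congr 1
    have h4 : ((range q).filter fun m : ℕ => ∃ t < k, (m : ZMod q) * 2 ^ (a + t) + 1 = 0) =
        (range k).image (fun t => (-((2 : ZMod q) ^ (a + t))⁻¹).val) := by
      ext m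
      rw [mem_filter, mem_range, mem_image]
      constructor
      · rintro ⟨hm, t, ht, h⟩
        refine ⟨t, mem_range.mpr ht, ?_⟩
        have h5 : (2 : ZMod q) ^ (a + t) ≠ 0 := pow_ne_zero _ h2
        have h6 : -((2 : ZMod q) ^ (a + t))⁻¹ = (m : ZMod q) := by
          have h7 : (m : ZMod q) * 2 ^ (a + t) = -1 := by linear_combination h
          have h8 : (m : ZMod q) = (-1) * ((2 : ZMod q) ^ (a + t))⁻¹ := by
            rw [← h7, mul_assoc, mul_inv_cancel₀ h5, mul_one]
          rw [h8]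
          ring
        rw [h6, ZMod.val_natCast, Nat.mod_eq_of_lt hm]
      · rintro ⟨t, ht, rfl⟩
        refine ⟨ZMod.val_lt _, t, mem_range.mp ht, ?_⟩
        rw [ZMod.natCast_val, ZMod.cast_id', id_eq]
        have h5 : (2 : ZMod q) ^ (a + t) ≠ 0 := pow_ne_zero _ h2
        rw [neg_mul, inv_mul_cancel₀ h5]
        ring
    rw [h4, card_image_of_injOn, card_range]
    intro t ht t' ht' htt
    have ht1 : t < k := by simpa using ht
    have ht1' : t' < k := by simpa using ht'
    have h5 : -((2 : ZMod q) ^ (a + t))⁻¹ = -((2 : ZMod q) ^ (a + t'))⁻¹ :=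
      ZMod.val_injective q htt
    have h6 : (2 : ZMod q) ^ (a + t) = 2 ^ (a + t') := inv_injective (neg_injective h5)
    rw [pow_add, pow_add] at h6
    have h7 : (2 : ZMod q) ^ t = 2 ^ t' := mul_left_cancel₀ (pow_ne_zero _ h2) h6
    exact pow_injOn_Iio_orderOf (lt_of_lt_of_le ht1 hord) (lt_of_lt_of_le ht1' hord) h7
  · intro m
    have h3 : ∀ a, H k q a m = if ∃ t < k, (m : ZMod q) * 2 ^ (a + t) + 1 = 0 then 1 else 0 :=
      fun a => hit_eq k q a m
    simp only [h3]
    rw [hit_avg]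
    have hodvd : o ∣ q - 1 := orderOf_dvd_of_pow_eq_one (ZMod.pow_card_sub_one_eq_one h2)
    have hsub : ((range (q - 1)).filter fun a : ℕ =>
        ∃ t < k, (m : ZMod q) * 2 ^ (a + t) + 1 = 0) ⊆
        (range k).biUnion fun t => (range (q - 1)).filter fun a : ℕ =>
          (m : ZMod q) * 2 ^ (a + t) + 1 = 0 := by
      intro a ha
      rw [mem_filter] at ha
      obtain ⟨ha1, t, ht, h⟩ := ha
      rw [mem_biUnion]
      exact ⟨t, mem_range.mpr ht, mem_filter.mpr ⟨ha1, h⟩⟩
    have hone : ∀ t, ((range (q - 1)).filter fun a : ℕ =>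
        (m : ZMod q) * 2 ^ (a + t) + 1 = 0).card ≤ (q - 1) / o := by
      intro t
      rcases ((range (q - 1)).filter fun a : ℕ =>
        (m : ZMod q) * 2 ^ (a + t) + 1 = 0).eq_empty_or_nonempty with h | ⟨a0, ha0⟩
      · rw [h, card_empty]
        exact Nat.zero_le _
      · rw [mem_filter] at ha0
        have h5 : ((range (q - 1)).filter fun a : ℕ => (m : ZMod q) * 2 ^ (a + t) + 1 = 0) ⊆
            (range (q - 1)).filter fun a : ℕ => a ≡ a0 [MOD o] := by
          intro a ha
          rw [mem_filter] at ha ⊢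
          refine ⟨ha.1, ?_⟩
          have hm0 : (m : ZMod q) ≠ 0 := by
            intro h9
            have h10 := ha.2
            rw [h9, zero_mul, zero_add] at h10
            exact one_ne_zero h10
          have h6 : (m : ZMod q) * 2 ^ (a + t) = m * 2 ^ (a0 + t) := by
            linear_combination ha.2 - ha0.2
          have h7 : (2 : ZMod q) ^ (a + t) = 2 ^ (a0 + t) := mul_left_cancel₀ hm0 h6
          rw [pow_add, pow_add] at h7
          have h8 : (2 : ZMod q) ^ a = 2 ^ a0 := mul_right_cancel₀ (pow_ne_zero _ h2) h7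
          have hfin : IsOfFinOrder (2 : ZMod q) := orderOf_pos_iff.mp ho0
          have h11 : (2 : ZMod q) ^ (a % o) = 2 ^ (a0 % o) := by
            rw [ho, pow_mod_orderOf, pow_mod_orderOf, h8]
          exact pow_injOn_Iio_orderOf (Nat.mod_lt _ ho0) (Nat.mod_lt _ ho0) h11
        refine (card_le_card h5).trans ?_
        rw [← Nat.count_eq_card_filter_range, Nat.count_modEq_card _ ho0,
          Nat.mod_eq_zero_of_dvd hodvd]
        simp
    have hcard : ((range (q - 1)).filter fun a : ℕ =>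
        ∃ t < k, (m : ZMod q) * 2 ^ (a + t) + 1 = 0).card ≤ k * ((q - 1) / o) := by
      calc _ ≤ ((range k).biUnion fun t => (range (q - 1)).filter fun a : ℕ =>
            (m : ZMod q) * 2 ^ (a + t) + 1 = 0).card := card_le_card hsub
        _ ≤ ∑ t ∈ range k, ((range (q - 1)).filter fun a : ℕ =>
            (m : ZMod q) * 2 ^ (a + t) + 1 = 0).card := card_biUnion_le
        _ ≤ ∑ t ∈ range k, (q - 1) / o := sum_le_sum fun t _ => hone t
        _ = k * ((q - 1) / o) := by simp
    have ho0' : (0 : ℝ) < o := by exact_mod_cast ho0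
    have hq0' : (0 : ℝ) < ((q - 1 : ℕ) : ℝ) := by exact_mod_cast hq1
    rw [div_le_div_iff₀ hq0' ho0']
    have h5 : (q - 1) / o * o = q - 1 := Nat.div_mul_cancel hodvd
    have h6 : ((range (q - 1)).filter fun a : ℕ =>
        ∃ t < k, (m : ZMod q) * 2 ^ (a + t) + 1 = 0).card * o ≤ k * (q - 1) := by
      calc _ ≤ k * ((q - 1) / o) * o := Nat.mul_le_mul_right _ hcard
        _ = k * (q - 1) := by rw [mul_assoc, h5]
    exact_mod_cast h6

end Pool.Agent.Lib.MP_9f2731_nt.BT
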