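import Pool.Agent.Lib.MP_9f2731_nt.BT.Spec

/-! The sum over small subsets. -/

namespace Pool.Agent.Lib.MP_9f2731_nt.BT

open Finset

private lemma low_sum (r : ℕ) (Q : Finset ℕ) (y : ℕ → ℝ) :
    ∑ e ∈ low r Q, ∏ q ∈ e, y q =
      ∑ e ∈ Q.powerset, if e.card ≤ r then ∏ q ∈ e, y q else 0 := by
  unfold low
  rw [sum_filter]

theorem tLow : StmtLow := by
  classical
  intro r Q y
  induction Q using Finset.induction_on generalizing r with
  | empty =>
    intro _
    rw [low_sum]
    simp
  | insert q Q hq ih =>
    intro hy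
    have hy' : ∀ p ∈ Q, 0 ≤ y p := fun p hp => hy p (mem_insert_of_mem hp)
    have hyq : 0 ≤ y q := hy q (mem_insert_self _ _)
    set s := ∑ p ∈ Q, y p with hs
    have hs0 : 0 ≤ s := sum_nonneg hy'
    rw [sum_insert hq]
    rcases r with _ | r
    · have h1 : low 0 (insert q Q) = {∅} := by
        ext e
        rw [low, mem_filter, mem_powerset, mem_singleton]
        constructor
        · rintro ⟨-, h⟩
          exact card_eq_zero.mp (by omega)
        · rintro rfl
          exact ⟨empty_subset _, by simp⟩
      rw [h1]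
      simp
    · have h1 := ih (r + 1) hy'
      have h2 := ih r hy'
      rw [low_sum] at h1 h2 ⊢
      rw [sum_powerset_insert hq]
      have h3 : ∑ t ∈ Q.powerset, (if (insert q t).card ≤ r + 1 then ∏ p ∈ insert q t, y p else 0) =
          y q * ∑ t ∈ Q.powerset, if t.card ≤ r then ∏ p ∈ t, y p else 0 := by
        rw [mul_sum]
        apply sum_congr rfl
        intro t ht
        rw [mem_powerset] at ht
        have hqt : q ∉ t := fun h => hq (ht h)
        rw [card_insert_of_notMem hqt, prod_insert hqt]
        by_cases h : t.card ≤ r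
        · rw [if_pos h, if_pos (by omega)]
        · rw [if_neg h, if_neg (by omega), mul_zero]
      rw [h3]
      have h4 : (1 + s) ^ r ≤ (1 + (y q + s)) ^ r :=
        pow_le_pow_left₀ (by linarith) (by linarith) r
      calc (∑ t ∈ Q.powerset, if t.card ≤ r + 1 then ∏ p ∈ t, y p else 0) +
            y q * ∑ t ∈ Q.powerset, (if t.card ≤ r then ∏ p ∈ t, y p else 0)
          ≤ (1 + s) ^ (r + 1) + y q * (1 + s) ^ r :=
            add_le_add h1 (mul_le_mul_of_nonneg_left h2 hyq)
        _ = (1 + s) ^ r * (1 + (y q + s)) := by ring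
        _ ≤ (1 + (y q + s)) ^ r * (1 + (y q + s)) :=
            mul_le_mul_of_nonneg_right h4 (by linarith)
        _ = (1 + (y q + s)) ^ (r + 1) := by rw [pow_succ]

end Pool.Agent.Lib.MP_9f2731_nt.BT
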