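import Pool.Agent.Lib.MP_9f2731_nt.BT.Spec

namespace Pool.Agent.Lib.MP_9f2731_nt.BT

open Finset

theorem tMom (h1 : StmtTup) (h2 : StmtSumT) : StmtMom := by
  intro k L n r Q K B E γ hQ hK hB hE hEK hU
  have hexp : ∀ m, (∑ e ∈ E, γ e * G k L e m) ^ n =
      ∑ f ∈ Fintype.piFinset (fun _ : Fin n => E), (∏ j, γ (f j)) * ∏ j, G k L (f j) m := by
    intro m
    calc (∑ e ∈ E, γ e * G k L e m) ^ n = ∏ _j : Fin n, ∑ e ∈ E, γ e * G k L e m := by
          rw [Finset.prod_const, Finset.card_univ, Fintype.card_fin]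
      _ = ∑ f ∈ Fintype.piFinset (fun _ : Fin n => E), ∏ j, (γ (f j) * G k L (f j) m) :=
          Finset.prod_univ_sum _ _
      _ = _ := Finset.sum_congr rfl fun f _ => Finset.prod_mul_distrib
  have havg : avg (PQ Q) (fun m => (∑ e ∈ E, γ e * G k L e m) ^ n) =
      ∑ f ∈ Fintype.piFinset (fun _ : Fin n => E), (∏ j, γ (f j)) *
        avg (PQ Q) (fun m => ∏ j, G k L (f j) m) := by
    unfold avg
    simp_rw [hexp]
    rw [Finset.sum_comm, Finset.sum_div]
    refine Finset.sum_congr rfl fun f _ => ?_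
    rw [← Finset.mul_sum, mul_div_assoc]
  rw [havg]
  have hsq : 0 ≤ Real.sqrt (2 * k / K) ^ n := pow_nonneg (Real.sqrt_nonneg _) n
  have hterm : ∀ f ∈ Fintype.piFinset (fun _ : Fin n => E), (∏ j, γ (f j)) *
      avg (PQ Q) (fun m => ∏ j, G k L (f j) m) ≤
      Real.sqrt (2 * k / K) ^ n * ((∏ j, |γ (f j)|) * ∏ q ∈ univ.biUnion f, (2 * k / q : ℝ)) := by
    intro f hf
    have hf' : ∀ j, f j ∈ E := fun j => Fintype.mem_piFinset.1 hf j
    have ht := h1 k L n Q K f hQ hK (fun j => (hE _ (hf' j)).1) (fun j => hEK _ (hf' j))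
    calc (∏ j, γ (f j)) * avg (PQ Q) (fun m => ∏ j, G k L (f j) m)
        ≤ |(∏ j, γ (f j)) * avg (PQ Q) (fun m => ∏ j, G k L (f j) m)| := le_abs_self _
      _ = (∏ j, |γ (f j)|) * |avg (PQ Q) (fun m => ∏ j, G k L (f j) m)| := by
          rw [abs_mul, Finset.abs_prod]
      _ ≤ (∏ j, |γ (f j)|) *
          (Real.sqrt (2 * k / K) ^ n * ∏ q ∈ univ.biUnion f, (2 * k / q : ℝ)) :=
          mul_le_mul_of_nonneg_left ht (Finset.prod_nonneg fun j _ => abs_nonneg _)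
      _ = _ := by ring
  refine (Finset.sum_le_sum hterm).trans ?_
  rw [← Finset.mul_sum, mul_pow]
  refine mul_le_mul_of_nonneg_left ?_ hsq
  exact h2 n r n Q E (fun e => |γ e|) (fun q => (2 * k / q : ℝ)) B le_rfl hE
    (fun e _ => abs_nonneg _) (fun q _ => by positivity) hB hU

end Pool.Agent.Lib.MP_9f2731_nt.BT
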