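import Pool.Agent.Lib.MP_9f2731_nt.BT.Spec

namespace Pool.Agent.Lib.MP_9f2731_nt.BT

open Finset Filter

theorem tNum : StmtNum := by
  intro k R hk hR
  have hRpos : (0 : ℝ) < R := by exact_mod_cast hR
  have hR1 : (1 : ℝ) ≤ R := by exact_mod_cast hR
  have hk1 : (1 : ℝ) ≤ k := by exact_mod_cast hk
  have hcast : Tendsto (fun X : ℕ => (X : ℝ)) atTop atTop := tendsto_natCast_atTop_atTop
  have hlogt : Tendsto (fun X : ℕ => Real.log X) atTop atTop := Real.tendsto_log_atTop.comp hcast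
  have hloglogt : Tendsto (fun X : ℕ => Real.log (Real.log X)) atTop atTop :=
    Real.tendsto_log_atTop.comp hlogt
  have f1 : ∀ᶠ X : ℕ in atTop, (4 * k + 1 : ℝ) ≤ Real.log (Real.log X) :=
    hloglogt.eventually_ge_atTop _
  have f2 : ∀ᶠ X : ℕ in atTop, (4 * k : ℝ) ≤ Real.log X := hlogt.eventually_ge_atTop _
  obtain ⟨X₁, hX₁⟩ := eventually_atTop.mp (f1.and f2)
  refine ⟨max X₁ 2, fun X hX i hi => ?_⟩
  obtain ⟨e1, e2⟩ := hX₁ X ((le_max_left _ _).trans hX)
  have hX2 : 2 ≤ X := (le_max_right _ _).trans hX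
  have hXpos : (0 : ℝ) < X := by
    have : (2 : ℝ) ≤ X := by exact_mod_cast hX2
    linarith
  set ℓ := Real.log X with hℓ
  set ℓ₂ := Real.log ℓ with hℓ₂
  have hℓpos : 0 < ℓ := by linarith
  have hℓ4 : 4 ≤ ℓ := by linarith
  have hℓ₂5 : 5 ≤ ℓ₂ := by linarith
  set Z := (ℓ ^ (100 * R)) ^ 2 ^ i with hZ
  have hZpos : 0 < Z := by positivity
  set lam := Real.log Z with hlam
  have hlam1 : lam = 2 ^ i * (100 * R * ℓ₂) := by
    rw [hlam, hZ, Real.log_pow, Real.log_pow, hℓ₂]; push_cast; ring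
  have hexp : Z = Real.exp lam := (Real.exp_log hZpos).symm
  have h2i : ((i : ℝ) + 1) ≤ 2 ^ i := by
    have : i + 1 ≤ 2 ^ i := Nat.lt_two_pow_self
    exact_mod_cast this
  have h2i1 : (1 : ℝ) ≤ 2 ^ i := one_le_pow₀ (by norm_num)
  have hi0 : (0 : ℝ) ≤ i := Nat.cast_nonneg i
  have hlampos : 0 < lam := by rw [hlam1]; positivity
  have hlamge : 100 * R * ℓ₂ * (i + 1) ≤ lam := by
    rw [hlam1, mul_comm]
    exact mul_le_mul_of_nonneg_right h2i (by positivity)
  set t := ℓ / (80 * R * lam) with ht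
  have ht1 : 1 ≤ t := by
    rw [ht, le_div_iff₀ (by positivity), one_mul]
    rw [le_div_iff₀ (by positivity)] at hi
    linarith
  have htlam : t * lam = ℓ / (80 * R) := by
    rw [ht]; field_simp
  set n := 2 * ⌊t⌋₊ with hn
  have hfl1 : (⌊t⌋₊ : ℝ) ≤ t := Nat.floor_le (by linarith)
  have hfl2 : t < ⌊t⌋₊ + 1 := Nat.lt_floor_add_one t
  have hfl3 : 1 ≤ ⌊t⌋₊ := Nat.one_le_floor_iff t |>.mpr ht1
  have hfl4 : (1 : ℝ) ≤ (⌊t⌋₊ : ℝ) := by exact_mod_cast hfl3
  have hncast : (n : ℝ) = 2 * ⌊t⌋₊ := by rw [hn]; push_cast; ring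
  have hnge : t ≤ n := by rw [hncast]; linarith
  have hnle : (n : ℝ) ≤ 2 * t := by rw [hncast]; linarith
  have hnlam1 : ℓ / (80 * R) ≤ n * lam := by
    rw [← htlam]; exact mul_le_mul_of_nonneg_right hnge hlampos.le
  have hnlam2 : n * lam ≤ ℓ / (40 * R) := by
    calc n * lam ≤ 2 * t * lam := mul_le_mul_of_nonneg_right hnle hlampos.le
      _ = 2 * (t * lam) := by ring
      _ = ℓ / (40 * R) := by rw [htlam]; field_simp; ring
  refine ⟨n, ⟨⌊t⌋₊, by rw [hn]; ring⟩, ?_⟩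
  set τ := (Real.exp (-(2 * k)) / 2) ^ (i + 1) with hτ
  have hτpos : 0 < τ := by positivity
  -- lower bound for τ
  have hτge : Real.exp (-((2 * k + 1) * (i + 1))) ≤ τ := by
    have h1 : Real.exp (-(2 * k + 1)) ≤ Real.exp (-(2 * k)) / 2 := by
      rw [show (-(2 * (k : ℝ) + 1)) = -(2 * k) + (-1) by ring, Real.exp_add]
      have h2 : Real.exp (-1) ≤ 1 / 2 := by
        rw [Real.exp_neg, ← one_div]
        apply one_div_le_one_div_of_le (by norm_num)
        have := Real.add_one_le_exp (1 : ℝ)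
        linarith
      have h3 : 0 < Real.exp (-(2 * (k : ℝ))) := Real.exp_pos _
      nlinarith
    calc Real.exp (-((2 * k + 1) * (i + 1))) = Real.exp (-(2 * k + 1)) ^ (i + 1) := by
          rw [← Real.exp_nat_mul]; congr 1; push_cast; ring
      _ ≤ τ := pow_le_pow_left₀ (Real.exp_pos _).le h1 _
  -- the big parenthesis
  have hpar : 1 + (2 * R * (i + 1) * n : ℝ) + 2 * k * (i + 1) ≤ ℓ ^ 2 := by
    have h1 : (2 : ℝ) ^ i ≤ ℓ / 8000 := by
      have h2 : lam ≤ ℓ / (80 * R) := hi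
      rw [hlam1, le_div_iff₀ (by positivity)] at h2
      have h3 : (2 : ℝ) ^ i * 8000 ≤ 2 ^ i * (100 * R * ℓ₂) * (80 * R) := by
        have h4 : (8000 : ℝ) ≤ (100 * R * ℓ₂) * (80 * R) := by
          have : (1 : ℝ) ≤ R * R := by nlinarith
          have h5 : (1 : ℝ) ≤ R * R * ℓ₂ := by nlinarith
          nlinarith
        calc (2 : ℝ) ^ i * 8000 ≤ 2 ^ i * ((100 * R * ℓ₂) * (80 * R)) :=
              mul_le_mul_of_nonneg_left h4 (by positivity)
          _ = _ := by ring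
      linarith
    have h2 : ((i : ℝ) + 1) ≤ ℓ / 8000 := h2i.trans h1
    have h3 : R * (n : ℝ) ≤ ℓ := by
      have h4 : (1 : ℝ) ≤ lam := by
        rw [hlam1]
        have h5 : (1 : ℝ) ≤ 100 * R * ℓ₂ := by nlinarith
        nlinarith
      have h5 : (n : ℝ) * 1 ≤ n * lam := mul_le_mul_of_nonneg_left h4 (Nat.cast_nonneg n)
      have h6 : (n : ℝ) ≤ ℓ / (40 * R) := by linarith
      calc R * (n : ℝ) ≤ R * (ℓ / (40 * R)) := mul_le_mul_of_nonneg_left h6 hRpos.le
        _ = ℓ / 40 := by field_simp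
        _ ≤ ℓ := by linarith
    have h4 : 2 * R * ((i : ℝ) + 1) * n ≤ ℓ ^ 2 / 4 := by
      calc 2 * R * ((i : ℝ) + 1) * n = 2 * (((i : ℝ) + 1) * (R * n)) := by ring
        _ ≤ 2 * ((ℓ / 8000) * ℓ) := by
            apply mul_le_mul_of_nonneg_left _ (by norm_num)
            exact mul_le_mul h2 h3 (by positivity) (by positivity)
        _ ≤ ℓ ^ 2 / 4 := by nlinarith
    have h5 : 2 * k * ((i : ℝ) + 1) ≤ ℓ ^ 2 / 4 := by
      have h6 : 2 * k * ((i : ℝ) + 1) ≤ 2 * k * (ℓ / 8000) :=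
        mul_le_mul_of_nonneg_left h2 (by positivity)
      nlinarith
    nlinarith
  have hpar0 : 0 ≤ 1 + (2 * R * (i + 1) * n : ℝ) + 2 * k * (i + 1) := by positivity
  -- first term
  have hfirst : Real.sqrt (2 * k / Z ^ (2 / 5 : ℝ)) * (Real.exp k ^ (i + 1) *
      (1 + (2 * R * (i + 1) * n : ℝ) + 2 * k * (i + 1)) ^ (2 * R * (i + 1))) ≤
      τ * Real.exp (-(lam / 10)) := by
    have h1 : Real.sqrt (2 * k / Z ^ (2 / 5 : ℝ)) ≤ Real.exp (k - lam / 5) := by
      rw [Real.sqrt_le_left (Real.exp_pos _).le]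
      have h2 : Z ^ (2 / 5 : ℝ) = Real.exp (2 * lam / 5) := by
        rw [hexp, ← Real.exp_mul]; congr 1; ring
      rw [h2, div_le_iff₀ (Real.exp_pos _), ← Real.exp_nat_mul, ← Real.exp_add]
      have h3 : ((2 : ℕ) : ℝ) * (k - lam / 5) + 2 * lam / 5 = 2 * k := by push_cast; ring
      rw [h3]
      have := Real.add_one_le_exp (2 * (k : ℝ))
      linarith
    have h2 : (1 + (2 * R * (i + 1) * n : ℝ) + 2 * k * (i + 1)) ^ (2 * R * (i + 1)) ≤
        Real.exp (4 * R * (i + 1) * ℓ₂) := by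
      calc _ ≤ (ℓ ^ 2) ^ (2 * R * (i + 1)) := pow_le_pow_left₀ hpar0 hpar _
        _ = Real.exp (4 * R * (i + 1) * ℓ₂) := by
            have h3 : ℓ = Real.exp ℓ₂ := (Real.exp_log hℓpos).symm
            rw [← pow_mul, h3, ← Real.exp_nat_mul]
            congr 1
            push_cast
            ring
    have h3 : Real.exp k ^ (i + 1) = Real.exp (k * (i + 1)) := by
      rw [← Real.exp_nat_mul]; congr 1; push_cast; ring
    calc Real.sqrt (2 * k / Z ^ (2 / 5 : ℝ)) * (Real.exp k ^ (i + 1) *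
          (1 + (2 * R * (i + 1) * n : ℝ) + 2 * k * (i + 1)) ^ (2 * R * (i + 1)))
        ≤ Real.exp (k - lam / 5) * (Real.exp (k * (i + 1)) * Real.exp (4 * R * (i + 1) * ℓ₂)) := by
          rw [h3]
          apply mul_le_mul h1 _ (by positivity) (Real.exp_pos _).le
          exact mul_le_mul_of_nonneg_left h2 (Real.exp_pos _).le
      _ = Real.exp ((k - lam / 5) + (k * (i + 1) + 4 * R * (i + 1) * ℓ₂)) := by
          rw [Real.exp_add, Real.exp_add]
      _ ≤ Real.exp (-((2 * k + 1) * (i + 1)) + -(lam / 10)) := by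
          apply Real.exp_le_exp.mpr
          have h4 : (4 * (k : ℝ) + 1) * (i + 1) ≤ 6 * R * ℓ₂ * (i + 1) := by
            apply mul_le_mul_of_nonneg_right _ (by positivity)
            nlinarith
          have h5 : (k : ℝ) ≤ k * (i + 1) := by nlinarith
          linarith
      _ = Real.exp (-((2 * k + 1) * (i + 1))) * Real.exp (-(lam / 10)) := Real.exp_add _ _
      _ ≤ τ * Real.exp (-(lam / 10)) := mul_le_mul_of_nonneg_right hτge (Real.exp_pos _).le
  -- second term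
  have hsecond : Real.exp k ^ (i + 1) * Z ^ (16 * R) ≤ τ * Real.exp (17 * R * lam) := by
    have h3 : Real.exp k ^ (i + 1) = Real.exp (k * (i + 1)) := by
      rw [← Real.exp_nat_mul]; congr 1; push_cast; ring
    have h4 : Z ^ (16 * R) = Real.exp (16 * R * lam) := by
      rw [hexp, ← Real.exp_nat_mul]; push_cast; rfl
    rw [h3, h4, ← Real.exp_add]
    calc Real.exp (k * (i + 1) + 16 * R * lam)
        ≤ Real.exp (-((2 * k + 1) * (i + 1)) + 17 * R * lam) := by
          apply Real.exp_le_exp.mpr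
          have h5 : (3 * (k : ℝ) + 1) * (i + 1) ≤ 100 * R * ℓ₂ * (i + 1) := by
            apply mul_le_mul_of_nonneg_right _ (by positivity)
            nlinarith
          have h6 : lam ≤ R * lam := by nlinarith
          linarith
      _ = Real.exp (-((2 * k + 1) * (i + 1))) * Real.exp (17 * R * lam) := Real.exp_add _ _
      _ ≤ _ := mul_le_mul_of_nonneg_right hτge (Real.exp_pos _).le
  -- conclusion
  have hXexp : ∀ s : ℝ, (X : ℝ) ^ s = Real.exp (s * ℓ) := by
    intro s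
    rw [Real.rpow_def_of_pos hXpos, mul_comm]
  have g1 : (Real.sqrt (2 * k / Z ^ (2 / 5 : ℝ)) * (Real.exp k ^ (i + 1) *
      (1 + (2 * R * (i + 1) * n : ℝ) + 2 * k * (i + 1)) ^ (2 * R * (i + 1)))) ^ n ≤
      τ ^ n * Real.exp (-(ℓ / (800 * R))) := by
    calc _ ≤ (τ * Real.exp (-(lam / 10))) ^ n := pow_le_pow_left₀ (by positivity) hfirst _
      _ = τ ^ n * Real.exp (-(n * lam / 10)) := by
          rw [mul_pow, ← Real.exp_nat_mul]; congr 2; ring
      _ ≤ τ ^ n * Real.exp (-(ℓ / (800 * R))) := by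
          apply mul_le_mul_of_nonneg_left _ (by positivity)
          apply Real.exp_le_exp.mpr
          have : ℓ / (800 * R) = ℓ / (80 * R) / 10 := by field_simp; ring
          rw [this]
          linarith
  have g2 : (Real.exp k ^ (i + 1) * Z ^ (16 * R)) ^ n ≤ τ ^ n * Real.exp (17 * ℓ / 40) := by
    calc _ ≤ (τ * Real.exp (17 * R * lam)) ^ n := pow_le_pow_left₀ (by positivity) hsecond _
      _ = τ ^ n * Real.exp (17 * R * (n * lam)) := by
          rw [mul_pow, ← Real.exp_nat_mul]; congr 2; ring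
      _ ≤ τ ^ n * Real.exp (17 * ℓ / 40) := by
          apply mul_le_mul_of_nonneg_left _ (by positivity)
          apply Real.exp_le_exp.mpr
          calc 17 * R * (n * lam) ≤ 17 * R * (ℓ / (40 * R)) :=
                mul_le_mul_of_nonneg_left hnlam2 (by positivity)
            _ = 17 * ℓ / 40 := by field_simp
  have g3 : (X : ℝ) * Real.exp (-(ℓ / (800 * R))) = X ^ (1 - 1 / (800 * R : ℝ)) := by
    rw [hXexp]
    have : (X : ℝ) = Real.exp ℓ := by rw [hℓ, Real.exp_log hXpos]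
    rw [this, ← Real.exp_add]
    congr 1
    ring
  have g4 : Real.exp (17 * ℓ / 40) ≤ (X : ℝ) ^ (1 - 1 / (800 * R : ℝ)) := by
    rw [hXexp]
    apply Real.exp_le_exp.mpr
    have : 1 / (800 * R : ℝ) ≤ 1 / 800 := by
      apply one_div_le_one_div_of_le (by norm_num)
      nlinarith
    nlinarith
  have hτn : 0 < τ ^ n := by positivity
  calc _ ≤ X * (τ ^ n * Real.exp (-(ℓ / (800 * R)))) + 2 * (τ ^ n * Real.exp (17 * ℓ / 40)) := by
        apply add_le_add
        · exact mul_le_mul_of_nonneg_left g1 hXpos.le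
        · exact mul_le_mul_of_nonneg_left g2 (by norm_num)
    _ = τ ^ n * (X * Real.exp (-(ℓ / (800 * R)))) + 2 * (τ ^ n * Real.exp (17 * ℓ / 40)) := by ring
    _ ≤ τ ^ n * X ^ (1 - 1 / (800 * R : ℝ)) + 2 * (τ ^ n * X ^ (1 - 1 / (800 * R : ℝ))) := by
        rw [g3]
        have := mul_le_mul_of_nonneg_left g4 hτn.le
        linarith
    _ = 3 * X ^ (1 - 1 / (800 * R : ℝ)) * τ ^ n := by ring

end Pool.Agent.Lib.MP_9f2731_nt.BT
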