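import Pool.Agent.Lib.MP_9f2731_nt.BT.Spec

/-! Product formula over the scales. -/

namespace Pool.Agent.Lib.MP_9f2731_nt.BT

open Finset

theorem tPF : StmtPF := by
  classical
  intro R i Qs φ hdis
  induction i with
  | zero =>
    have h1 : Dn R Qs 0 = {∅} := by
      unfold Dn QU
      simp
    rw [h1]
    simp
  | succ i ih =>
    have hQU : QU Qs (i + 1) = QU Qs i ∪ Qs i := by
      unfold QU
      rw [range_add_one, biUnion_insert, union_comm]
    have hsubj : ∀ j < i, Qs j ⊆ QU Qs i := by
      intro j hj
      unfold QU
      exact subset_biUnion_of_mem Qs (mem_range.mpr hj)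
    have hdisU : Disjoint (QU Qs i) (Qs i) := by
      unfold QU
      rw [disjoint_biUnion_left]
      intro j hj
      rw [mem_range] at hj
      exact hdis j i (by omega)
    rw [prod_range_succ, ih, sum_mul_sum, ← sum_product']
    symm
    apply sum_nbij' (fun e => (e ∩ QU Qs i, e ∩ Qs i)) (fun p => p.1 ∪ p.2)
    · intro e he
      rw [Dn, mem_filter, mem_powerset] at he
      rw [mem_product, Dn, mem_filter, mem_powerset, low, mem_filter, mem_powerset]
      refine ⟨⟨inter_subset_right, ?_⟩, inter_subset_right, he.2 i (by simp)⟩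
      intro j hj
      rw [mem_range] at hj
      rw [inter_assoc, inter_eq_right.mpr (hsubj j hj)]
      exact he.2 j (by rw [mem_range]; omega)
    · rintro ⟨e, d⟩ hp
      rw [mem_product, Dn, mem_filter, mem_powerset, low, mem_filter, mem_powerset] at hp
      obtain ⟨⟨he1, he2⟩, hd1, hd2⟩ := hp
      simp only at he1 he2 hd1 hd2
      rw [Dn, mem_filter, mem_powerset, hQU]
      refine ⟨union_subset_union he1 hd1, ?_⟩
      intro j hj
      rw [mem_range] at hj
      rw [union_inter_distrib_right]
      rcases Nat.lt_or_ge j i with hji | hji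
      · have h1 : d ∩ Qs j = ∅ := by
          rw [← disjoint_iff_inter_eq_empty]
          exact (hdis i j (by omega)).mono_left hd1
        rw [h1, union_empty]
        exact he2 j (mem_range.mpr hji)
      · have hji' : j = i := by omega
        subst hji'
        have h1 : e ∩ Qs j = ∅ := by
          rw [← disjoint_iff_inter_eq_empty]
          exact hdisU.mono_left he1
        rw [h1, empty_union, inter_eq_left.mpr hd1]
        exact hd2
    · intro e he
      rw [Dn, mem_filter, mem_powerset, hQU] at he
      show (e ∩ QU Qs i) ∪ (e ∩ Qs i) = e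
      rw [← inter_union_distrib_left]
      exact inter_eq_left.mpr he.1
    · rintro ⟨e, d⟩ hp
      rw [mem_product, Dn, mem_filter, mem_powerset, low, mem_filter, mem_powerset] at hp
      obtain ⟨⟨he1, he2⟩, hd1, hd2⟩ := hp
      simp only at he1 he2 hd1 hd2
      show ((e ∪ d) ∩ QU Qs i, (e ∪ d) ∩ Qs i) = (e, d)
      have h1 : d ∩ QU Qs i = ∅ := by
        rw [← disjoint_iff_inter_eq_empty]
        exact hdisU.symm.mono_left hd1
      have h2 : e ∩ Qs i = ∅ := by
        rw [← disjoint_iff_inter_eq_empty]
        exact hdisU.mono_left he1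
      rw [union_inter_distrib_right, union_inter_distrib_right, h1, h2, union_empty, empty_union,
        inter_eq_left.mpr he1, inter_eq_left.mpr hd1]
    · intro e he
      show ∏ j ∈ range (i + 1), φ j (e ∩ Qs j) =
        (∏ j ∈ range i, φ j (e ∩ QU Qs i ∩ Qs j)) * φ i (e ∩ Qs i)
      rw [prod_range_succ]
      congr 1
      apply prod_congr rfl
      intro j hj
      rw [mem_range] at hj
      rw [inter_assoc, inter_eq_right.mpr (hsubj j hj)]

end Pool.Agent.Lib.MP_9f2731_nt.BT
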