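import Pool.Agent.Lib.MP_9f2731_nt.BT.Spec

namespace Pool.Agent.Lib.MP_9f2731_nt.BT

open Finset

private lemma prod_per {D : ℕ} {f : ℕ → ℝ} (h : ∀ x, f (x + D) = f x) (c x : ℕ) :
    f (x + D * c) = f x := by
  induction c with
  | zero => simp
  | succ c ih =>
    rw [show x + D * (c + 1) = (x + D * c) + D by ring, h, ih]

private lemma prod_congr_mod {D : ℕ} {f : ℕ → ℝ} (h : ∀ x, f (x + D) = f x) {x y : ℕ}
    (hxy : x ≡ y [MOD D]) : f x = f y := by
  have h1 : ∀ x, f x = f (x % D) := by
    intro x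
    conv_lhs => rw [← Nat.mod_add_div x D]
    exact prod_per h _ _
  rw [h1 x, h1 y, hxy]

theorem tProd (hAvgP : StmtAvgP) (hAvgB : StmtAvgB) : StmtProd := by
  classical
  intro Q e φ heQ hQ hφ
  have hpos : ∀ e ⊆ Q, 0 < PQ e := by
    intro e he
    unfold PQ
    exact prod_pos fun q hq => (hQ q (he hq)).pos
  have hdvd : ∀ e ⊆ Q, ∀ q ∈ e, q ∣ PQ e := fun e _ q hq => dvd_prod_of_mem _ hq
  have hper : ∀ e ⊆ Q, ∀ x, ∏ q ∈ e, φ q (x + PQ e) = ∏ q ∈ e, φ q x := by
    intro e he x
    apply prod_congr rfl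
    intro q hq
    obtain ⟨c, hc⟩ := hdvd e he q hq
    rw [hc]
    exact prod_per (hφ q (he hq)) c x
  rw [hAvgP (PQ e) (PQ Q) (fun x => ∏ q ∈ e, φ q x) (hpos e heQ)
    (prod_dvd_prod_of_subset _ _ _ heQ) (hpos Q (Subset.refl _)) (hper e heQ)]
  induction e using Finset.induction_on with
  | empty =>
    unfold PQ avg
    simp
  | insert q e' hq ih =>
    have he' : e' ⊆ Q := (subset_insert q e').trans heQ
    have hqQ : q ∈ Q := heQ (mem_insert_self q e')
    have hP : PQ (insert q e') = PQ e' * q := by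
      unfold PQ
      rw [prod_insert hq, mul_comm]
    have hco : (PQ e').Coprime q := by
      unfold PQ
      apply Nat.Coprime.prod_left
      intro p hp
      exact (Nat.coprime_primes (hQ p (he' hp)) (hQ q hqQ)).mpr fun h => hq (h ▸ hp)
    rw [hP]
    have hf : ∀ x y, x ≡ y [MOD (PQ e' * q)] →
        ∏ p ∈ insert q e', φ p x = ∏ p ∈ insert q e', φ p y := by
      intro x y hxy
      apply prod_congr rfl
      intro p hp
      apply prod_congr_mod (hφ p (heQ hp))
      apply hxy.of_dvd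
      rw [← hP]
      exact hdvd _ heQ p hp
    rw [hAvgB (PQ e') q (fun x => ∏ p ∈ insert q e', φ p x)
      (fun x t => (Nat.chineseRemainder hco x t : ℕ)) (hpos e' he') (hQ q hqQ).pos hco hf
      (fun x t => (Nat.chineseRemainder hco x t).2.1)
      (fun x t => (Nat.chineseRemainder hco x t).2.2)]
    have hin : ∀ x t : ℕ, ∏ p ∈ insert q e', φ p (Nat.chineseRemainder hco x t : ℕ) =
        φ q t * ∏ p ∈ e', φ p x := by
      intro x t
      rw [prod_insert hq]
      congr 1
      · exact prod_congr_mod (hφ q hqQ) (Nat.chineseRemainder hco x t).2.2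
      · apply prod_congr rfl
        intro p hp
        apply prod_congr_mod (hφ p (he' hp))
        exact (Nat.chineseRemainder hco x t).2.1.of_dvd (hdvd e' he' p hp)
    simp_rw [hin]
    have h1 : ∀ x : ℕ, avg q (fun t => φ q t * ∏ p ∈ e', φ p x) =
        avg q (φ q) * ∏ p ∈ e', φ p x := by
      intro x
      unfold avg
      rw [← sum_mul]
      ring
    simp_rw [h1]
    have h2 : avg (PQ e') (fun x => avg q (φ q) * ∏ p ∈ e', φ p x) =
        avg q (φ q) * avg (PQ e') (fun x => ∏ p ∈ e', φ p x) := by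
      unfold avg
      rw [← mul_sum]
      ring
    rw [h2, ih he', prod_insert hq]

end Pool.Agent.Lib.MP_9f2731_nt.BT
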