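import Pool.Agent.Lib.MP_9f2731_nt.BT.Spec

namespace Pool.Agent.Lib.MP_9f2731_nt.BT

open Finset

private lemma qzp_mem {z : ℝ} {j q : ℕ} (hz : 4 ≤ z) (h : q ∈ Qz z j) :
    q.Prime ∧ z ^ 2 ^ j < q ∧ (q : ℝ) ≤ z ^ 2 ^ (j + 1) ∧
      (z ^ 2 ^ j) ^ (2 / 5 : ℝ) ≤ orderOf (2 : ZMod q) := by
  unfold Qz scale at h
  rw [mem_filter, mem_Ioc] at h
  obtain ⟨⟨h1, h2⟩, h3, h4⟩ := h
  refine ⟨h3, ?_, ?_, h4⟩
  · exact (Nat.floor_lt (by positivity)).mp h1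
  · have h5 : (q : ℝ) ≤ (z ^ 2 ^ j) ^ 2 := (Nat.le_floor_iff (by positivity)).mp h2
    have h6 : z ^ 2 ^ (j + 1) = (z ^ 2 ^ j) ^ 2 := by rw [pow_succ 2 j, pow_mul]
    rw [h6]; exact h5

private lemma qzp_sum {z : ℝ} (hz : 4 ≤ z) (j : ℕ) :
    1 + ∑ q ∈ Qz z j, (q : ℝ) ≤ (z ^ 2 ^ j) ^ 4 := by
  classical
  set Z := z ^ 2 ^ j with hZ
  have hZ4 : 4 ≤ Z := by
    have : z ≤ z ^ 2 ^ j := le_self_pow₀ (by linarith) (by positivity)
    linarith
  have h1 : Qz z j ⊆ Ioc 0 ⌊Z ^ 2⌋₊ := by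
    intro q h
    unfold Qz scale at h
    rw [mem_filter, mem_Ioc] at h
    rw [mem_Ioc]
    exact ⟨by omega, h.1.2⟩
  have h2 : ∀ q ∈ Ioc 0 ⌊Z ^ 2⌋₊, (q : ℝ) ≤ Z ^ 2 := by
    intro q h
    rw [mem_Ioc] at h
    exact (Nat.le_floor_iff (by positivity)).mp h.2
  -- remove the element 1
  have h3 : Qz z j ⊆ Ioc 1 ⌊Z ^ 2⌋₊ := by
    intro q h
    have h4 := h1 h
    rw [mem_Ioc] at h4 ⊢
    have h5 := (qzp_mem hz h).1.two_le
    exact ⟨by omega, h4.2⟩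
  have h5 : ∑ q ∈ Qz z j, (q : ℝ) ≤ ∑ _q ∈ Ioc 1 ⌊Z ^ 2⌋₊, Z ^ 2 := by
    calc ∑ q ∈ Qz z j, (q : ℝ) ≤ ∑ q ∈ Ioc 1 ⌊Z ^ 2⌋₊, (q : ℝ) :=
          sum_le_sum_of_subset_of_nonneg h3 fun q _ _ => Nat.cast_nonneg q
      _ ≤ _ := by
          apply sum_le_sum
          intro q hq
          apply h2
          rw [mem_Ioc] at hq ⊢
          exact ⟨by omega, hq.2⟩
  rw [sum_const, nsmul_eq_mul, Nat.card_Ioc] at h5
  have h6 : 1 ≤ ⌊Z ^ 2⌋₊ := (Nat.one_le_floor_iff _).mpr (by nlinarith)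
  rw [Nat.cast_sub h6] at h5
  have h7 : (⌊Z ^ 2⌋₊ : ℝ) ≤ Z ^ 2 := Nat.floor_le (by positivity)
  have h8 : ((⌊Z ^ 2⌋₊ : ℝ) - (1 : ℕ)) * Z ^ 2 ≤ (Z ^ 2 - 1) * Z ^ 2 := by
    apply mul_le_mul_of_nonneg_right _ (by positivity)
    push_cast
    linarith
  nlinarith

theorem tQzP : StmtQzP := by
  classical
  intro k z hk hz hkz
  have hz0 : (0 : ℝ) < z := by linarith
  have hz1 : (1 : ℝ) ≤ z := by linarith
  have hmono : ∀ j, z ≤ z ^ 2 ^ j := fun j => le_self_pow₀ hz1 (by positivity)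
  have h2k : 2 * (k : ℝ) ≤ z := by
    have h1 : (2 : ℝ) ≤ z ^ (3 / 5 : ℝ) := by
      have h2 : (4 : ℝ) ^ (3 / 5 : ℝ) ≤ z ^ (3 / 5 : ℝ) :=
        Real.rpow_le_rpow (by norm_num) hz (by norm_num)
      have h3 : (2 : ℝ) ≤ (4 : ℝ) ^ (3 / 5 : ℝ) := by
        calc (2 : ℝ) = (4 : ℝ) ^ (1 / 2 : ℝ) := by
              rw [show (4 : ℝ) = 2 ^ (2 : ℝ) by norm_num, ← Real.rpow_mul (by norm_num)]
              norm_num
          _ ≤ (4 : ℝ) ^ (3 / 5 : ℝ) :=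
              Real.rpow_le_rpow_of_exponent_le (by norm_num) (by norm_num)
      linarith
    have h4 : z ^ (3 / 5 : ℝ) * z ^ (2 / 5 : ℝ) = z := by
      rw [← Real.rpow_add hz0]; norm_num
    have h5 : 0 < z ^ (2 / 5 : ℝ) := Real.rpow_pos_of_pos hz0 _
    calc 2 * (k : ℝ) ≤ z ^ (3 / 5 : ℝ) * z ^ (2 / 5 : ℝ) :=
          mul_le_mul h1 hkz (Nat.cast_nonneg k) (by linarith)
      _ = z := h4
  have hP2 : ∀ j, ∀ q ∈ Qz z j, q.Prime ∧ k ≤ q ∧ 1 ≤ q ∧ 2 * (k : ℝ) ≤ q ∧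
      (q : ℝ) ≤ z ^ 2 ^ (j + 1) := by
    intro j q h
    obtain ⟨h1, h3, h4, _⟩ := qzp_mem hz h
    have h5 : 2 * (k : ℝ) ≤ q := by have := hmono j; linarith
    refine ⟨h1, ?_, h1.one_lt.le, h5, h4⟩
    have h6 : (k : ℝ) ≤ q := by
      have : (0 : ℝ) ≤ k := Nat.cast_nonneg k
      linarith
    exact_mod_cast h6
  refine ⟨?_, hP2, ?_, ?_, ?_⟩
  · -- disjoint
    have key : ∀ j j', j < j' → Disjoint (Qz z j) (Qz z j') := by
      intro j j' hjj'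
      rw [disjoint_left]
      intro q h1 h2
      have h3 := (qzp_mem hz h1).2.2.1
      have h4 := (qzp_mem hz h2).2.1
      have h5 : z ^ 2 ^ (j + 1) ≤ z ^ 2 ^ j' := by
        apply pow_le_pow_right₀ hz1
        exact Nat.pow_le_pow_right (by norm_num) hjj'
      linarith
    intro j j' hne
    rcases lt_or_gt_of_ne hne with h | h
    · exact key j j' h
    · exact (key j' j h).symm
  · intro j q h
    exact (qzp_mem hz h).2.2.2
  · intro i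
    have hmem : ∀ q ∈ QU (Qz z) i, ∃ j, q ∈ Qz z j := by
      intro q hq
      unfold QU at hq
      rw [mem_biUnion] at hq
      obtain ⟨j, _, hqj⟩ := hq
      exact ⟨j, hqj⟩
    have hpr : ∀ q ∈ QU (Qz z) i, q.Prime := by
      intro q hq
      obtain ⟨j, hj⟩ := hmem q hq
      exact (qzp_mem hz hj).1
    refine ⟨hk, ?_, hpr, ?_, ?_, ?_⟩
    · apply prod_pos
      intro q hq
      have := (hpr q hq).two_le
      omega
    · intro q hq
      obtain ⟨j, hj⟩ := hmem q hq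
      have h1 := (qzp_mem hz hj).2.1
      have h2 := hmono j
      intro h3
      rw [h3] at h1
      push_cast at h1
      linarith
    · intro q hq
      obtain ⟨j, hj⟩ := hmem q hq
      have h1 := (qzp_mem hz hj).2.2.2
      have h2 : z ^ (2 / 5 : ℝ) ≤ (z ^ 2 ^ j) ^ (2 / 5 : ℝ) :=
        Real.rpow_le_rpow hz0.le (hmono j) (by norm_num)
      have h3 : (k : ℝ) ≤ orderOf (2 : ZMod q) := by linarith
      exact_mod_cast h3
    · intro q hq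
      exact dvd_prod_of_mem (fun q => q - 1) hq
  · intro R i
    calc ∏ j ∈ range i, (1 + ∑ q ∈ Qz z j, (q : ℝ)) ^ (2 * R)
        ≤ ∏ j ∈ range i, (z ^ 2 ^ j) ^ (8 * R) := by
          apply prod_le_prod
          · intro j _
            have : 0 ≤ ∑ q ∈ Qz z j, (q : ℝ) := sum_nonneg fun q _ => Nat.cast_nonneg q
            positivity
          · intro j _
            have h1 := qzp_sum hz j
            have h0 : 0 ≤ 1 + ∑ q ∈ Qz z j, (q : ℝ) := by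
              have : 0 ≤ ∑ q ∈ Qz z j, (q : ℝ) := sum_nonneg fun q _ => Nat.cast_nonneg q
              linarith
            calc (1 + ∑ q ∈ Qz z j, (q : ℝ)) ^ (2 * R) ≤ ((z ^ 2 ^ j) ^ 4) ^ (2 * R) :=
                  pow_le_pow_left₀ h0 h1 _
              _ = (z ^ 2 ^ j) ^ (8 * R) := by
                  rw [← pow_mul (z ^ 2 ^ j) 4 (2 * R)]; congr 1; ring
      _ = (∏ j ∈ range i, z ^ 2 ^ j) ^ (8 * R) := by rw [prod_pow]
      _ ≤ (z ^ 2 ^ i) ^ (8 * R) := by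
          apply pow_le_pow_left₀ (by positivity)
          rw [prod_pow_eq_pow_sum]
          apply pow_le_pow_right₀ hz1
          have : ∑ j ∈ range i, 2 ^ j < 2 ^ i := by
            induction i with
            | zero => simp
            | succ i ih => rw [sum_range_succ, pow_succ]; omega
          exact this.le

end Pool.Agent.Lib.MP_9f2731_nt.BT
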