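import Pool.Agent.Lib.MP_9f2731_nt.BT.Spec

namespace Pool.Agent.Lib.MP_9f2731_nt.BT

open Finset

private lemma rec_avg_sum {ι : Type*} (s : Finset ι) (L : ℕ) (c : ι → ℝ) (f : ι → ℕ → ℝ) :
    avg L (fun b => ∑ d ∈ s, c d * f d b) = ∑ d ∈ s, c d * avg L (f d) := by
  unfold avg
  rw [sum_comm, sum_div]
  apply sum_congr rfl
  intro d _
  rw [← mul_sum, mul_div_assoc]

private lemma rec_w (hExp2 : StmtExp2) {k R L i m : ℕ} {Qs : ℕ → Finset ℕ}
    (hdisj : ∀ j j', j ≠ j' → Disjoint (Qs j) (Qs j')) :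
    w k R L Qs i m = ∑ e ∈ Dn R Qs i, ga k R Qs i e * G k L e m := by
  unfold w G
  rw [← rec_avg_sum]
  congr 1
  funext a
  exact (hExp2 k R i a m Qs hdisj).2

theorem tRec (hExp2 : StmtExp2) : StmtRec := by
  classical
  intro k R L i m Qs hdisj
  rw [rec_w hExp2 hdisj, rec_w hExp2 hdisj]
  unfold Y En
  rw [← sum_filter_add_sum_filter_not (Dn R Qs (i + 1)) (fun e => (e ∩ Qs i).Nonempty), add_comm]
  congr 1
  have hQU : QU Qs (i + 1) = QU Qs i ∪ Qs i := by
    unfold QU
    rw [range_add_one, biUnion_insert, union_comm]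
  have hd : Disjoint (QU Qs i) (Qs i) := by
    unfold QU
    rw [disjoint_biUnion_left]
    intro j hj
    exact hdisj j i (mem_range.mp hj).ne
  have hset : (Dn R Qs (i + 1)).filter (fun e => ¬ (e ∩ Qs i).Nonempty) = Dn R Qs i := by
    ext e
    unfold Dn
    rw [mem_filter, mem_filter, mem_filter, mem_powerset, mem_powerset, not_nonempty_iff_eq_empty]
    constructor
    · rintro ⟨⟨h1, h2⟩, h3⟩
      refine ⟨?_, fun j hj => h2 j (mem_range.mpr ((mem_range.mp hj).trans (Nat.lt_succ_self i)))⟩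
      intro q hq
      have h4 := h1 hq
      rw [hQU, mem_union] at h4
      rcases h4 with h4 | h4
      · exact h4
      · have : q ∈ e ∩ Qs i := mem_inter.mpr ⟨hq, h4⟩
        rw [h3] at this
        exact absurd this (notMem_empty q)
    · rintro ⟨h1, h2⟩
      have h3 : e ∩ Qs i = ∅ := by
        rw [← disjoint_iff_inter_eq_empty]
        exact hd.mono_left h1
      refine ⟨⟨fun q hq => by rw [hQU]; exact mem_union_left _ (h1 hq), ?_⟩, h3⟩
      intro j hj
      rcases Nat.lt_succ_iff_lt_or_eq.mp (mem_range.mp hj) with h | h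
      · exact h2 j (mem_range.mpr h)
      · rw [h, h3, card_empty]; exact Nat.zero_le _
  rw [hset, mul_sum]
  apply sum_congr rfl
  intro e he
  have h3 : e ∩ Qs i = ∅ := by
    unfold Dn at he
    rw [mem_filter, mem_powerset] at he
    rw [← disjoint_iff_inter_eq_empty]
    exact hd.mono_left he.1
  have h4 : ga k R Qs (i + 1) e = ga k R Qs i e * cf k R (Qs i) ∅ := by
    unfold ga
    rw [prod_range_succ, h3]
  rw [h4]
  ring

end Pool.Agent.Lib.MP_9f2731_nt.BT
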