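import Pool.Agent.Lib.MP_9f2731_nt.BT.Spec

/-! # The primes of one scale -/

set_option autoImplicit false

namespace Pool.Agent.Lib.MP_9f2731_nt.BT

open Finset

private lemma scal_small (z : ℝ) (hz : 2 ≤ z) :
    ∑ p ∈ ((Ioc ⌊z⌋₊ ⌊z ^ 2⌋₊).filter Nat.Prime).filter
      (fun q => ¬ z ^ (2 / 5 : ℝ) ≤ orderOf (2 : ZMod q)), (1 : ℝ) / p ≤ z ^ (-(1 / 5) : ℝ) := by
  have hz0 : 0 < z := by linarith
  set w : ℕ := ⌊z ^ (2 / 5 : ℝ)⌋₊ with hw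
  have hsub : ((Ioc ⌊z⌋₊ ⌊z ^ 2⌋₊).filter Nat.Prime).filter
      (fun q => ¬ z ^ (2 / 5 : ℝ) ≤ orderOf (2 : ZMod q)) ⊆ smallOrd ⌊z ^ 2⌋₊ w := by
    intro q hq
    obtain ⟨hq1, hq2⟩ := mem_filter.mp hq
    obtain ⟨hq3, hq4⟩ := mem_filter.mp hq1
    rw [mem_Ioc] at hq3
    refine mem_filter.mpr ⟨mem_Icc.mpr ⟨hq4.one_le, hq3.2⟩, hq4, ?_, ?_⟩
    · have h2 : 2 ≤ ⌊z⌋₊ := Nat.le_floor (by push_cast; exact hz)
      omega
    · rw [hw]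
      apply Nat.le_floor
      exact (not_le.mp hq2).le
  have hcard : ((((Ioc ⌊z⌋₊ ⌊z ^ 2⌋₊).filter Nat.Prime).filter
      (fun q => ¬ z ^ (2 / 5 : ℝ) ≤ orderOf (2 : ZMod q))).card : ℝ) ≤ z ^ (4 / 5 : ℝ) := by
    have h1 := (card_le_card hsub).trans (card_smallOrd _ w)
    have h2 : (w : ℝ) ≤ z ^ (2 / 5 : ℝ) := Nat.floor_le (by positivity)
    calc ((((Ioc ⌊z⌋₊ ⌊z ^ 2⌋₊).filter Nat.Prime).filter
          (fun q => ¬ z ^ (2 / 5 : ℝ) ≤ orderOf (2 : ZMod q))).card : ℝ) ≤ ((w ^ 2 : ℕ) : ℝ) := by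
          exact_mod_cast h1
      _ = (w : ℝ) ^ 2 := by push_cast; rfl
      _ ≤ (z ^ (2 / 5 : ℝ)) ^ 2 := pow_le_pow_left₀ (by positivity) h2 2
      _ = z ^ (4 / 5 : ℝ) := by
          rw [← Real.rpow_natCast, ← Real.rpow_mul hz0.le]
          norm_num
  calc ∑ p ∈ ((Ioc ⌊z⌋₊ ⌊z ^ 2⌋₊).filter Nat.Prime).filter
        (fun q => ¬ z ^ (2 / 5 : ℝ) ≤ orderOf (2 : ZMod q)), (1 : ℝ) / p
      ≤ ∑ p ∈ ((Ioc ⌊z⌋₊ ⌊z ^ 2⌋₊).filter Nat.Prime).filter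
        (fun q => ¬ z ^ (2 / 5 : ℝ) ≤ orderOf (2 : ZMod q)), (1 : ℝ) / z := by
        refine Finset.sum_le_sum fun q hq => ?_
        have hq1 := (mem_filter.mp (mem_filter.mp hq).1).1
        rw [mem_Ioc] at hq1
        have hq2 : z < q := Nat.lt_of_floor_lt hq1.1
        exact one_div_le_one_div_of_le hz0 hq2.le
    _ = ((((Ioc ⌊z⌋₊ ⌊z ^ 2⌋₊).filter Nat.Prime).filter
        (fun q => ¬ z ^ (2 / 5 : ℝ) ≤ orderOf (2 : ZMod q))).card : ℝ) * (1 / z) := by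
        rw [Finset.sum_const, nsmul_eq_mul]
    _ ≤ z ^ (4 / 5 : ℝ) * (1 / z) := mul_le_mul_of_nonneg_right hcard (by positivity)
    _ = z ^ (-(1 / 5) : ℝ) := by
        have h1 : (1 / z : ℝ) = z ^ (-1 : ℝ) := by
          rw [Real.rpow_neg_one, one_div]
        rw [h1, ← Real.rpow_add hz0]
        norm_num

theorem tScal (h1 : StmtMert) : StmtScal := by
  intro ε hε
  obtain ⟨z₁, hz₁, hM⟩ := h1 (min (ε / 2) (3 / 10)) (by positivity)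
  have htend := tendsto_rpow_neg_atTop (show (0 : ℝ) < 1 / 5 by norm_num)
  have hev := htend.eventually (Iic_mem_nhds (show (0 : ℝ) < ε / 2 by positivity))
  obtain ⟨z₂, hz₂⟩ := Filter.eventually_atTop.mp hev
  refine ⟨max z₁ z₂, hz₁.trans (le_max_left _ _), ?_⟩
  intro z hz
  obtain ⟨hlo, hup⟩ := hM z ((le_max_left _ _).trans hz)
  have hz2 := hz₂ z ((le_max_right _ _).trans hz)
  have hzz : 2 ≤ z := hz₁.trans ((le_max_left _ _).trans hz)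
  have hsm := scal_small z hzz
  have hsplit := Finset.sum_filter_add_sum_filter_not ((Ioc ⌊z⌋₊ ⌊z ^ 2⌋₊).filter Nat.Prime)
    (fun q => z ^ (2 / 5 : ℝ) ≤ orderOf (2 : ZMod q)) (fun p => (1 : ℝ) / p)
  have hsc : ((Ioc ⌊z⌋₊ ⌊z ^ 2⌋₊).filter Nat.Prime).filter
      (fun q => z ^ (2 / 5 : ℝ) ≤ orderOf (2 : ZMod q)) = scale z := by
    unfold scale
    rw [filter_filter]
  rw [hsc] at hsplit
  have hnn : 0 ≤ ∑ p ∈ ((Ioc ⌊z⌋₊ ⌊z ^ 2⌋₊).filter Nat.Prime).filter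
      (fun q => ¬ z ^ (2 / 5 : ℝ) ≤ orderOf (2 : ZMod q)), (1 : ℝ) / p :=
    Finset.sum_nonneg fun p _ => by positivity
  have h2 : min (ε / 2) (3 / 10 : ℝ) ≤ ε / 2 := min_le_left _ _
  have h3 : min (ε / 2) (3 / 10 : ℝ) ≤ 3 / 10 := min_le_right _ _
  have h4 := Real.log_two_lt_d9
  have hz3 : z ^ (-(1 / 5) : ℝ) ≤ ε / 2 := hz2
  constructor
  · linarith
  · have h5 : (0.6931471808 : ℝ) ≤ 7 / 10 := by norm_num
    linarith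

end Pool.Agent.Lib.MP_9f2731_nt.BT
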