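import Pool.Agent.Lib.MP_9f2731_nt.BT.Spec

/-! Summation over all tuples. -/

namespace Pool.Agent.Lib.MP_9f2731_nt.BT

open Finset

private lemma sumt_cons (n : ℕ) (E : Finset (Finset ℕ)) (F : (Fin (n + 1) → Finset ℕ) → ℝ) :
    ∑ f ∈ Fintype.piFinset (fun _ : Fin (n + 1) => E), F f =
      ∑ f ∈ Fintype.piFinset (fun _ : Fin n => E), ∑ e ∈ E, F (Fin.cons e f) := by
  rw [← sum_product']
  apply sum_nbij' (fun f => (Fin.tail f, f 0)) (fun p => Fin.cons p.2 p.1)
  · intro f hf
    rw [Fintype.mem_piFinset] at hf
    rw [mem_product, Fintype.mem_piFinset]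
    exact ⟨fun j => hf j.succ, hf 0⟩
  · rintro ⟨f, e⟩ hp
    rw [mem_product, Fintype.mem_piFinset] at hp
    rw [Fintype.mem_piFinset]
    intro j
    refine Fin.cases ?_ (fun j => ?_) j
    · simpa using hp.2
    · simpa using hp.1 j
  · intro f _
    exact Fin.cons_self_tail f
  · rintro ⟨f, e⟩ _
    simp
  · intro f _
    show F f = F (Fin.cons (f 0) (Fin.tail f))
    rw [Fin.cons_self_tail]

theorem tSumT : StmtSumT := by
  classical
  intro n r N Q E c x B hn hE hc hx hB hU
  induction n with
  | zero =>
    simp [Fintype.piFinset_of_isEmpty]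
  | succ n ih =>
    have ih' := ih (by omega)
    rw [sumt_cons]
    have h1 : ∀ f ∈ Fintype.piFinset (fun _ : Fin n => E),
        ∑ e ∈ E, (∏ j, c ((Fin.cons e f : Fin (n + 1) → Finset ℕ) j)) *
          ∏ q ∈ univ.biUnion (Fin.cons e f : Fin (n + 1) → Finset ℕ), x q ≤
        ((∏ j, c (f j)) * ∏ q ∈ univ.biUnion f, x q) * B := by
      intro f hf
      rw [Fintype.mem_piFinset] at hf
      set U := univ.biUnion f with hUdef
      have hUQ : U ⊆ Q := by
        rw [hUdef, biUnion_subset]
        intro j _
        exact (hE _ (hf j)).1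
      have hUc : U.card ≤ r * N := by
        calc U.card ≤ ∑ j : Fin n, (f j).card := card_biUnion_le
          _ ≤ ∑ _j : Fin n, r := sum_le_sum fun j _ => (hE _ (hf j)).2
          _ = n * r := by simp
          _ ≤ r * N := by
              rw [mul_comm]
              exact Nat.mul_le_mul_left _ (by omega)
      have hterm : ∀ e, (∏ j, c ((Fin.cons e f : Fin (n + 1) → Finset ℕ) j)) *
          ∏ q ∈ univ.biUnion (Fin.cons e f : Fin (n + 1) → Finset ℕ), x q =
          ((∏ j, c (f j)) * ∏ q ∈ U, x q) * (c e * ∏ q ∈ e \ U, x q) := by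
        intro e
        have e1 : univ.biUnion (Fin.cons e f : Fin (n + 1) → Finset ℕ) = U ∪ (e \ U) := by
          ext q
          rw [mem_biUnion, union_sdiff_self_eq_union, mem_union, hUdef, mem_biUnion]
          constructor
          · rintro ⟨j, -, hj⟩
            revert hj
            refine Fin.cases ?_ (fun j => ?_) j
            · intro hj
              right
              simpa using hj
            · intro hj
              left
              exact ⟨j, mem_univ _, by simpa using hj⟩
          · rintro (⟨j, -, hj⟩ | hq)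
            · exact ⟨j.succ, mem_univ _, by simpa using hj⟩
            · exact ⟨0, mem_univ _, by simpa using hq⟩
        rw [e1, prod_union disjoint_sdiff, Fin.prod_univ_succ]
        simp only [Fin.cons_zero, Fin.cons_succ]
        ring
      simp only [hterm]
      rw [← mul_sum]
      apply mul_le_mul_of_nonneg_left (hU U hUQ hUc)
      apply mul_nonneg
      · exact prod_nonneg fun j _ => hc _ (hf j)
      · exact prod_nonneg fun q hq => hx q (hUQ hq)
    calc _ ≤ ∑ f ∈ Fintype.piFinset (fun _ : Fin n => E),
          ((∏ j, c (f j)) * ∏ q ∈ univ.biUnion f, x q) * B := sum_le_sum h1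
      _ = (∑ f ∈ Fintype.piFinset (fun _ : Fin n => E),
          (∏ j, c (f j)) * ∏ q ∈ univ.biUnion f, x q) * B := by rw [sum_mul]
      _ ≤ B ^ n * B := mul_le_mul_of_nonneg_right ih' hB
      _ = B ^ (n + 1) := by rw [pow_succ]

end Pool.Agent.Lib.MP_9f2731_nt.BT
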