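import Pool.Agent.Lib.MP_9f2731_nt.BT.Spec

namespace Pool.Agent.Lib.MP_9f2731_nt.BT

open Finset Filter

theorem tTheta : StmtTheta := by
  intro k η hk hη
  have hk1 : (1 : ℝ) ≤ k := by exact_mod_cast hk
  set b : ℝ := 2 ^ (η / 2) with hb
  have hb1 : 1 < b := Real.one_lt_rpow (by norm_num) (by linarith)
  set δ : ℝ := (b - 1) / 2 with hδ
  have hδ0 : 0 < δ := by rw [hδ]; linarith
  have hpow : (0 : ℝ) < (2 : ℝ) ^ (-(k : ℝ)) := Real.rpow_pos_of_pos (by norm_num) _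
  -- choice of R
  have h1 : Tendsto (fun n : ℕ => (k : ℝ) ^ n / n.factorial) atTop (nhds 0) :=
    FloorSemiring.tendsto_pow_div_factorial_atTop (k : ℝ)
  have h2 := h1.eventually (gt_mem_nhds (show (0 : ℝ) < (2 : ℝ) ^ (-(k : ℝ)) * δ by positivity))
  obtain ⟨n₀, hn₀⟩ := eventually_atTop.mp h2
  set R := n₀ + 1 with hR
  have h3 : (k : ℝ) ^ (2 * R + 1) / (2 * R + 1).factorial < (2 : ℝ) ^ (-(k : ℝ)) * δ :=
    hn₀ (2 * R + 1) (by omega)
  refine ⟨R, Real.log (1 + δ) / k, by omega, ?_, ?_⟩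
  · apply div_pos _ (by linarith)
    exact Real.log_pos (by linarith)
  · intro s hs
    have h4 : Real.exp (-(k * s)) ≤ (2 : ℝ) ^ (-(k : ℝ)) * (1 + δ) := by
      have h5 : (k : ℝ) * (Real.log 2 - Real.log (1 + δ) / k) ≤ k * s :=
        mul_le_mul_of_nonneg_left hs (by linarith)
      have h6 : (k : ℝ) * (Real.log 2 - Real.log (1 + δ) / k) = k * Real.log 2 - Real.log (1 + δ) := by
        field_simp
      rw [h6] at h5
      calc Real.exp (-(k * s)) ≤ Real.exp (-(k : ℝ) * Real.log 2 + Real.log (1 + δ)) := by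
            apply Real.exp_le_exp.mpr
            linarith
        _ = (2 : ℝ) ^ (-(k : ℝ)) * (1 + δ) := by
            rw [Real.exp_add, Real.exp_log (by linarith), Real.rpow_def_of_pos (by norm_num)]
            congr 2
            ring
    have h7 : (2 : ℝ) ^ (-((k : ℝ) - η / 2)) = (2 : ℝ) ^ (-(k : ℝ)) * b := by
      rw [hb, ← Real.rpow_add (by norm_num)]
      congr 1
      ring
    rw [h7]
    have h8 : (2 : ℝ) ^ (-(k : ℝ)) * b = (2 : ℝ) ^ (-(k : ℝ)) * (1 + δ) + (2 : ℝ) ^ (-(k : ℝ)) * δ := by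
      rw [hδ]; ring
    rw [h8]
    linarith

end Pool.Agent.Lib.MP_9f2731_nt.BT
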