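import Pool.Agent.Lib.MP_9f2731_nt.BT.Spec

namespace Pool.Agent.Lib.MP_9f2731_nt.BT

open Finset

private theorem tran_biUnion {ι : Type} [DecidableEq ι] (t : Finset ι) (f : ι → Finset ℕ)
    (hf : ∀ j ∈ t, ∀ q ∈ f j, 1 ≤ q) :
    ∏ q ∈ t.biUnion f, (q : ℝ) ≤ ∏ j ∈ t, ∏ q ∈ f j, (q : ℝ) := by
  induction t using Finset.induction_on with
  | empty => simp
  | insert a t ha ih =>
    have ih' := ih fun j hj => hf j (Finset.mem_insert_of_mem hj)
    rw [Finset.biUnion_insert, Finset.prod_insert ha]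
    have hsplit : ∏ q ∈ f a ∪ t.biUnion f, (q : ℝ) =
        (∏ q ∈ f a \ t.biUnion f, (q : ℝ)) * ∏ q ∈ t.biUnion f, (q : ℝ) := by
      rw [← Finset.sdiff_union_self_eq_union, Finset.prod_union Finset.sdiff_disjoint]
    rw [hsplit]
    have h1 : ∏ q ∈ f a \ t.biUnion f, (q : ℝ) ≤ ∏ q ∈ f a, (q : ℝ) := by
      refine Finset.prod_le_prod_of_subset_of_one_le Finset.sdiff_subset
        (fun q _ => Nat.cast_nonneg q) fun q hq _ => ?_
      exact_mod_cast hf a (Finset.mem_insert_self _ _) q hq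
    refine mul_le_mul h1 ih' (Finset.prod_nonneg fun q _ => Nat.cast_nonneg q)
      (Finset.prod_nonneg fun q _ => Nat.cast_nonneg q)

theorem tTran (hW : StmtWind) (hGaP : StmtGaP) : StmtTran := by
  intro k L n M X Q E γ hQ hE
  obtain ⟨-, habs, hone, -, -, hdep, -, -⟩ := hGaP k L Q hQ
  have hexp : ∀ m, (∑ e ∈ E, γ e * G k L e m) ^ n =
      ∑ f ∈ Fintype.piFinset (fun _ : Fin n => E), (∏ j, γ (f j)) * ∏ j, G k L (f j) m := by
    intro m
    calc (∑ e ∈ E, γ e * G k L e m) ^ n = ∏ _j : Fin n, ∑ e ∈ E, γ e * G k L e m := by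
          rw [Finset.prod_const, Finset.card_univ, Fintype.card_fin]
      _ = ∑ f ∈ Fintype.piFinset (fun _ : Fin n => E), ∏ j, (γ (f j) * G k L (f j) m) :=
          Finset.prod_univ_sum _ _
      _ = _ := Finset.sum_congr rfl fun f _ => Finset.prod_mul_distrib
  have havg : avg (PQ Q) (fun m => (∑ e ∈ E, γ e * G k L e m) ^ n) =
      ∑ f ∈ Fintype.piFinset (fun _ : Fin n => E), (∏ j, γ (f j)) *
        avg (PQ Q) (fun m => ∏ j, G k L (f j) m) := by
    unfold avg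
    simp_rw [hexp]
    rw [Finset.sum_comm, Finset.sum_div]
    refine Finset.sum_congr rfl fun f _ => ?_
    rw [← Finset.mul_sum, mul_div_assoc]
  have hsum : ∑ m ∈ Ioc M (M + X), (∑ e ∈ E, γ e * G k L e m) ^ n =
      ∑ f ∈ Fintype.piFinset (fun _ : Fin n => E), (∏ j, γ (f j)) *
        ∑ m ∈ Ioc M (M + X), ∏ j, G k L (f j) m := by
    simp_rw [hexp]
    rw [Finset.sum_comm]
    exact Finset.sum_congr rfl fun f _ => (Finset.mul_sum _ _ _).symm
  have hlast : (∑ e ∈ E, |γ e| * ∏ q ∈ e, (q : ℝ)) ^ n =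
      ∑ f ∈ Fintype.piFinset (fun _ : Fin n => E), (∏ j, |γ (f j)|) *
        ∏ j, ∏ q ∈ f j, (q : ℝ) := by
    calc (∑ e ∈ E, |γ e| * ∏ q ∈ e, (q : ℝ)) ^ n
        = ∏ _j : Fin n, ∑ e ∈ E, |γ e| * ∏ q ∈ e, (q : ℝ) := by
          rw [Finset.prod_const, Finset.card_univ, Fintype.card_fin]
      _ = ∑ f ∈ Fintype.piFinset (fun _ : Fin n => E), ∏ j, (|γ (f j)| * ∏ q ∈ f j, (q : ℝ)) :=
          Finset.prod_univ_sum _ _
      _ = _ := Finset.sum_congr rfl fun f _ => Finset.prod_mul_distrib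
  rw [hsum, havg, hlast, Finset.mul_sum, Finset.mul_sum, ← Finset.sum_add_distrib]
  refine Finset.sum_le_sum fun f hf => ?_
  have hf' : ∀ j, f j ∈ E := fun j => Fintype.mem_piFinset.1 hf j
  have hfQ : ∀ j, f j ⊆ Q := fun j => hE _ (hf' j)
  have hUQ : univ.biUnion f ⊆ Q := by
    intro q hq
    obtain ⟨j, -, hj⟩ := Finset.mem_biUnion.1 hq
    exact hfQ j hj
  have hpos : ∀ S ⊆ Q, 0 < PQ S := fun S hS =>
    Finset.prod_pos fun q hq => (hQ.prime q (hS hq)).pos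
  have hdvd : PQ (univ.biUnion f) ∣ PQ Q := Finset.prod_dvd_prod_of_subset _ _ _ hUQ
  have hw := hW (PQ (univ.biUnion f)) (PQ Q) (M + 1) X (fun m => ∏ j, G k L (f j) m)
    (hpos _ hUQ) hdvd (hpos _ Finset.Subset.rfl) (by
      intro x
      refine Finset.prod_congr rfl fun j _ => ?_
      refine hdep (f j) (hfQ j) _ _ fun q hq => ?_
      have hqU : q ∈ univ.biUnion f := Finset.mem_biUnion.2 ⟨j, Finset.mem_univ _, hq⟩
      have hqD : q ∣ PQ (univ.biUnion f) := Finset.dvd_prod_of_mem _ hqU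
      have : x + PQ (univ.biUnion f) ≡ x + 0 [MOD q] :=
        Nat.ModEq.add_left x ((Nat.modEq_zero_iff_dvd).2 hqD)
      simpa using this) (by
      intro x
      rw [Finset.abs_prod]
      refine Finset.prod_le_one (fun j _ => abs_nonneg _) fun j _ => ?_
      exact (habs _ (hfQ j) x).trans (hone _ (hfQ j) x))
  have hI : Ico (M + 1) (M + 1 + X) = Ioc M (M + X) := by
    ext x
    simp only [Finset.mem_Ico, Finset.mem_Ioc]
    omega
  rw [hI] at hw
  have hD : (PQ (univ.biUnion f) : ℝ) ≤ ∏ j, ∏ q ∈ f j, (q : ℝ) := by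
    have := tran_biUnion univ f fun j _ q hq => (hQ.prime q (hfQ j hq)).one_lt.le
    unfold PQ
    push_cast
    exact this
  have hprod : 0 ≤ ∏ j, |γ (f j)| := Finset.prod_nonneg fun j _ => abs_nonneg _
  have hkey : (∏ j, γ (f j)) * (∑ m ∈ Ioc M (M + X), ∏ j, G k L (f j) m -
      X * avg (PQ Q) (fun m => ∏ j, G k L (f j) m)) ≤
      (∏ j, |γ (f j)|) * (2 * ∏ j, ∏ q ∈ f j, (q : ℝ)) := by
    refine (le_abs_self _).trans ?_
    rw [abs_mul, Finset.abs_prod]
    refine mul_le_mul_of_nonneg_left (hw.trans ?_) hprod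
    linarith
  linarith

end Pool.Agent.Lib.MP_9f2731_nt.BT
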