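import Pool.Agent.Lib.MP_9f2731_nt.BT.Spec

/-! The bound for one tuple. -/

namespace Pool.Agent.Lib.MP_9f2731_nt.BT

open Finset

private lemma tup_mono (L : ℕ) (f g : ℕ → ℝ) (h : ∀ x, f x ≤ g x) : avg L f ≤ avg L g := by
  unfold avg
  exact div_le_div_of_nonneg_right (sum_le_sum fun x _ => h x) (Nat.cast_nonneg _)

private lemma tup_abs (L : ℕ) (f : ℕ → ℝ) : |avg L f| ≤ avg L (fun x => |f x|) := by
  unfold avg
  rw [abs_div, Nat.abs_cast]
  exact div_le_div_of_nonneg_right (abs_sum_le_sum_abs _ _) (Nat.cast_nonneg _)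

private lemma tup_mul (L : ℕ) (c : ℝ) (f : ℕ → ℝ) : avg L (fun x => c * f x) = c * avg L f := by
  unfold avg
  rw [← mul_sum, mul_div_assoc]

theorem tTup (hG : StmtGaP) (hF : StmtFinn) (hZ : StmtZero) : StmtTup := by
  classical
  intro k L n Q K e hadm hK he hord
  have hk0 : (0 : ℝ) ≤ k := Nat.cast_nonneg _
  set U : Finset ℕ := univ.biUnion e with hU
  have hRHS : 0 ≤ Real.sqrt (2 * k / K) ^ n * ∏ q ∈ U, (2 * k / q : ℝ) := by
    apply mul_nonneg (pow_nonneg (Real.sqrt_nonneg _) _)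
    exact prod_nonneg fun q _ => by positivity
  by_cases hex : ∃ q j0, q ∈ e j0 ∧ ∀ j, j ≠ j0 → q ∉ e j
  · obtain ⟨q, j0, hq, hj⟩ := hex
    rw [hZ k L n Q e q j0 hadm he hq hj, abs_zero]
    exact hRHS
  · obtain ⟨g0, g1, g2, g3, g4, g5, g6, g7⟩ := hG k L Q hadm
    have hcard : ∀ q ∈ U, 2 ≤ (univ.filter fun j => q ∈ e j).card := by
      intro q hq
      rw [hU, mem_biUnion] at hq
      obtain ⟨j0, -, hj0⟩ := hq
      have h1 : ∃ j, j ≠ j0 ∧ q ∈ e j := by
        by_contra hcon
        push Not at hcon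
        exact hex ⟨q, j0, hj0, hcon⟩
      obtain ⟨j1, hj1, hj1q⟩ := h1
      have : 1 < (univ.filter fun j => q ∈ e j).card := by
        rw [one_lt_card]
        exact ⟨j1, by simpa using hj1q, j0, by simpa using hj0, hj1⟩
      omega
    have hT : ∀ q : ℕ, ∃ T : Finset (Fin n), T ⊆ (univ.filter fun j => q ∈ e j) ∧
        (q ∈ U → T.card = 2) ∧ T.card ≤ 2 := by
      intro q
      by_cases hq : q ∈ U
      · obtain ⟨T, hT1, hT2⟩ := exists_subset_card_eq (hcard q hq)
        exact ⟨T, hT1, fun _ => hT2, hT2.le⟩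
      · exact ⟨∅, empty_subset _, fun h => absurd h hq, by simp⟩
    choose T hT1 hT2 hT3 using hT
    set e' : Fin n → Finset ℕ := fun j => (e j).filter (fun q => j ∈ T q) with he'
    have hsub : ∀ j, e' j ⊆ e j := fun j => filter_subset _ _
    have hsubQ : ∀ j, e' j ⊆ Q := fun j => (hsub j).trans (he j)
    set f : Fin n → ℕ → ℝ := fun j m => Real.sqrt (Ga k L (e' j) m) with hf
    set κ := Real.sqrt (2 * k / K) with hκ
    have hκ0 : 0 ≤ κ := Real.sqrt_nonneg _
    have hb : ∀ j m, |G k L (e j) m| ≤ κ * f j m := by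
      intro j m
      refine (g1 (e j) (he j) m).trans ?_
      have hga0 : 0 ≤ Ga k L (e j) m := g0 (e j) (he j) m
      rw [← Real.mul_self_sqrt hga0]
      apply mul_le_mul
      · apply Real.sqrt_le_sqrt
        obtain ⟨q, hq, hKq⟩ := hord j
        refine (g4 (e j) (he j) q hq m).trans ?_
        exact div_le_div_of_nonneg_left (by positivity) hK hKq
      · exact Real.sqrt_le_sqrt (g3 (e j) (he j) (e' j) (hsub j) m)
      · exact Real.sqrt_nonneg _
      · exact hκ0
    have hstep1 : |avg (PQ Q) (fun m => ∏ j, G k L (e j) m)| ≤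
        κ ^ n * avg (PQ Q) (fun m => ∏ j, f j m) := by
      refine (tup_abs _ _).trans ?_
      rw [← tup_mul]
      apply tup_mono
      intro m
      rw [abs_prod]
      calc ∏ j, |G k L (e j) m| ≤ ∏ j : Fin n, (κ * f j m) :=
            prod_le_prod (fun j _ => abs_nonneg _) (fun j _ => hb j m)
        _ = κ ^ n * ∏ j, f j m := by
            rw [prod_mul_distrib, prod_const, card_univ, Fintype.card_fin]
    have hstep2 : avg (PQ Q) (fun m => ∏ j, f j m) ≤
        ∏ j, Real.sqrt (avg (PQ Q) fun m => (f j m) ^ 2) := by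
      apply hF n Q f e' hadm.prime hsubQ
      · intro j x y hxy
        rw [hf]
        simp only
        rw [g6 (e' j) (hsubQ j) x y hxy]
      · intro j x
        exact Real.sqrt_nonneg _
      · intro q _
        refine le_trans (card_le_card ?_) (hT3 q)
        intro j hj
        rw [mem_filter, he', mem_filter] at hj
        exact hj.2.2
    have hstep3 : ∏ j, Real.sqrt (avg (PQ Q) fun m => (f j m) ^ 2) ≤
        ∏ j, Real.sqrt (∏ q ∈ e' j, (2 * k / q : ℝ)) := by
      apply prod_le_prod (fun j _ => Real.sqrt_nonneg _)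
      intro j _
      apply Real.sqrt_le_sqrt
      have h1 : (fun m => (f j m) ^ 2) = Ga k L (e' j) := by
        funext m
        rw [hf]
        exact Real.sq_sqrt (g0 (e' j) (hsubQ j) m)
      rw [h1]
      exact g7 (e' j) (hsubQ j)
    have hstep4 : ∏ j, Real.sqrt (∏ q ∈ e' j, (2 * k / q : ℝ)) = ∏ q ∈ U, (2 * k / q : ℝ) := by
      rw [← Real.sqrt_prod univ (fun j _ => prod_nonneg fun q _ => by positivity)]
      have h1 : ∏ j, ∏ q ∈ e' j, (2 * k / q : ℝ) = ∏ q ∈ U, ∏ j ∈ T q, (2 * k / q : ℝ) := by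
        apply prod_comm'
        intro j q
        rw [he', mem_filter, hU, mem_biUnion]
        constructor
        · rintro ⟨_, hq1, hq2⟩
          exact ⟨hq2, j, mem_univ _, hq1⟩
        · rintro ⟨hq2, _⟩
          exact ⟨mem_univ _, (mem_filter.mp (hT1 q hq2)).2, hq2⟩
      have h2 : ∏ q ∈ U, ∏ j ∈ T q, (2 * k / q : ℝ) = (∏ q ∈ U, (2 * k / q : ℝ)) ^ 2 := by
        rw [← prod_pow]
        apply prod_congr rfl
        intro q hq
        rw [prod_const, hT2 q hq]
      rw [h1, h2]
      exact Real.sqrt_sq (prod_nonneg fun q _ => by positivity)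
    calc |avg (PQ Q) (fun m => ∏ j, G k L (e j) m)|
        ≤ κ ^ n * avg (PQ Q) (fun m => ∏ j, f j m) := hstep1
      _ ≤ κ ^ n * ∏ q ∈ U, (2 * k / q : ℝ) := by
          apply mul_le_mul_of_nonneg_left _ (pow_nonneg hκ0 _)
          exact hstep2.trans (hstep3.trans hstep4.le)

end Pool.Agent.Lib.MP_9f2731_nt.BT
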