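import Pool.Agent.Lib.MP_9f2731_nt.BT.Spec

namespace Pool.Agent.Lib.MP_9f2731_nt.BT

open Finset

private lemma winf_split {Qs : ℕ → Finset ℕ} (hdisj : ∀ j j', j ≠ j' → Disjoint (Qs j) (Qs j'))
    {i : ℕ} {e : Finset ℕ} (he : e ⊆ QU Qs i) (h : ℕ → ℝ) :
    ∏ j ∈ range i, ∏ q ∈ e ∩ Qs j, h q = ∏ q ∈ e, h q := by
  classical
  have h1 : e = (range i).biUnion fun j => e ∩ Qs j := by
    ext q
    rw [mem_biUnion]
    constructor
    · intro hq
      have h2 := he hq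
      unfold QU at h2
      rw [mem_biUnion] at h2
      obtain ⟨j, hj, hqj⟩ := h2
      exact ⟨j, hj, mem_inter.mpr ⟨hq, hqj⟩⟩
    · rintro ⟨j, _, hq⟩
      exact (mem_inter.mp hq).1
  conv_rhs => rw [h1]
  rw [prod_biUnion]
  intro j _ j' _ hjj'
  exact (hdisj j j' hjj').mono inter_subset_right inter_subset_right

private lemma winf_sum (hPF : StmtPF) (hLow : StmtLow) {Qs : ℕ → Finset ℕ}
    (hdisj : ∀ j j', j ≠ j' → Disjoint (Qs j) (Qs j')) (R i : ℕ) :
    ∑ d ∈ Dn R Qs i, ∏ q ∈ d, (q : ℝ) ≤ ∏ j ∈ range i, (1 + ∑ q ∈ Qs j, (q : ℝ)) ^ (2 * R) := by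
  classical
  have h1 := hPF R i Qs (fun _ d => ∏ q ∈ d, (q : ℝ)) hdisj
  have h2 : ∑ d ∈ Dn R Qs i, ∏ q ∈ d, (q : ℝ) =
      ∑ e ∈ Dn R Qs i, ∏ j ∈ range i, ∏ q ∈ e ∩ Qs j, (q : ℝ) := by
    apply sum_congr rfl
    intro e he
    unfold Dn at he
    rw [mem_filter, mem_powerset] at he
    exact (winf_split hdisj he.1 _).symm
  rw [h2, ← h1]
  apply prod_le_prod
  · intro j _
    apply sum_nonneg; intro d _; apply prod_nonneg; intro q _; exact Nat.cast_nonneg q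
  · intro j _
    exact hLow (2 * R) (Qs j) (fun q => (q : ℝ)) fun q _ => Nat.cast_nonneg q

private lemma winf_avg_sum {ι : Type*} (s : Finset ι) (L : ℕ) (c : ι → ℝ) (f : ι → ℕ → ℝ) :
    avg L (fun b => ∑ d ∈ s, c d * f d b) = ∑ d ∈ s, c d * avg L (f d) := by
  unfold avg
  rw [sum_comm, sum_div]
  apply sum_congr rfl
  intro d _
  rw [← mul_sum, mul_div_assoc]

theorem tWinF (hWind : StmtWind) (hExp2 : StmtExp2) (hPF : StmtPF) (hLow : StmtLow)
    (hHit : StmtHit) : StmtWinF := by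
  classical
  intro k R L i a N m Qs hdisj hAdm
  have hE : ∀ b, Fn k R Qs i b m = ∑ d ∈ Dn R Qs i, (-1 : ℝ) ^ d.card * ∏ q ∈ d, H k q b m :=
    fun b => (hExp2 k R i b m Qs hdisj).1
  have hsub : ∀ d ∈ Dn R Qs i, d ⊆ QU Qs i := by
    intro d hd
    unfold Dn at hd
    rw [mem_filter, mem_powerset] at hd
    exact hd.1
  have hone : ∀ d ∈ Dn R Qs i, |∑ b ∈ Ico a (a + N), ∏ q ∈ d, H k q b m -
      N * avg L (fun b => ∏ q ∈ d, H k q b m)| ≤ 2 * ∏ q ∈ d, (q : ℝ) := by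
    intro d hd
    have hdQ := hsub d hd
    set D := d.lcm (fun q => q - 1) with hD
    have hDL : D ∣ L := Finset.lcm_dvd fun q hq => hAdm.dvd q (hdQ hq)
    have hDpos : 0 < D := Nat.pos_of_dvd_of_pos hDL hAdm.Lpos
    have hDle : (D : ℝ) ≤ ∏ q ∈ d, (q : ℝ) := by
      have h1 : D ∣ ∏ q ∈ d, (q - 1) := Finset.lcm_dvd fun q hq => dvd_prod_of_mem _ hq
      have h2 : 0 < ∏ q ∈ d, (q - 1) := by
        apply prod_pos
        intro q hq
        have := (hAdm.prime q (hdQ hq)).two_le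
        omega
      have h3 : D ≤ ∏ q ∈ d, (q - 1) := Nat.le_of_dvd h2 h1
      have h4 : ∏ q ∈ d, (q - 1) ≤ ∏ q ∈ d, q := prod_le_prod' fun q _ => Nat.sub_le _ _
      have h5 : D ≤ ∏ q ∈ d, q := h3.trans h4
      calc (D : ℝ) ≤ ((∏ q ∈ d, q : ℕ) : ℝ) := by exact_mod_cast h5
        _ = ∏ q ∈ d, (q : ℝ) := by push_cast; rfl
    have hper : ∀ b, ∏ q ∈ d, H k q (b + D) m = ∏ q ∈ d, H k q b m := by
      intro b
      apply prod_congr rfl
      intro q hq
      have h1 : q - 1 ∣ D := Finset.dvd_lcm (f := fun q => q - 1) hq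
      obtain ⟨t, ht⟩ := h1
      have h2 := (hHit k q hAdm.kpos (hAdm.prime q (hdQ hq)) (hAdm.odd q (hdQ hq))
        (hAdm.ord q (hdQ hq))).2.1
      have h3 : ∀ t : ℕ, H k q (b + (q - 1) * t) m = H k q b m := by
        intro t
        induction t with
        | zero => simp
        | succ t ih =>
          rw [Nat.mul_succ, ← add_assoc, h2, ih]
      rw [ht]; exact h3 t
    have habs : ∀ b, |∏ q ∈ d, H k q b m| ≤ 1 := by
      intro b
      rw [abs_prod]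
      apply prod_le_one
      · intro q _; exact abs_nonneg _
      · intro q _
        unfold H
        split_ifs <;> simp
    have h6 := hWind D L a N (fun b => ∏ q ∈ d, H k q b m) hDpos hDL hAdm.Lpos hper habs
    exact h6.trans (mul_le_mul_of_nonneg_left hDle (by norm_num))
  have hw : w k R L Qs i m = ∑ d ∈ Dn R Qs i, (-1 : ℝ) ^ d.card *
      avg L (fun b => ∏ q ∈ d, H k q b m) := by
    unfold w
    simp_rw [hE]
    exact winf_avg_sum _ _ _ _
  have hterm : ∀ d ∈ Dn R Qs i, (-1 : ℝ) ^ d.card * ∑ b ∈ Ico a (a + N), ∏ q ∈ d, H k q b m ≤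
      (-1 : ℝ) ^ d.card * (N * avg L (fun b => ∏ q ∈ d, H k q b m)) + 2 * ∏ q ∈ d, (q : ℝ) := by
    intro d hd
    have h1 := hone d hd
    have h2 : (-1 : ℝ) ^ d.card * (∑ b ∈ Ico a (a + N), ∏ q ∈ d, H k q b m -
        N * avg L (fun b => ∏ q ∈ d, H k q b m)) ≤ |∑ b ∈ Ico a (a + N), ∏ q ∈ d, H k q b m -
      N * avg L (fun b => ∏ q ∈ d, H k q b m)| := by
      refine (le_abs_self _).trans ?_
      rw [abs_mul, abs_pow, abs_neg, abs_one, one_pow, one_mul]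
    linarith
  calc ∑ b ∈ Ico a (a + N), Fn k R Qs i b m
      = ∑ d ∈ Dn R Qs i, (-1 : ℝ) ^ d.card * ∑ b ∈ Ico a (a + N), ∏ q ∈ d, H k q b m := by
        simp_rw [hE]
        rw [sum_comm]
        apply sum_congr rfl
        intro d _
        rw [mul_sum]
    _ ≤ ∑ d ∈ Dn R Qs i, ((-1 : ℝ) ^ d.card * (N * avg L (fun b => ∏ q ∈ d, H k q b m)) +
          2 * ∏ q ∈ d, (q : ℝ)) := sum_le_sum hterm
    _ = N * w k R L Qs i m + 2 * ∑ d ∈ Dn R Qs i, ∏ q ∈ d, (q : ℝ) := by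
        rw [sum_add_distrib, hw, mul_sum, mul_sum]
        congr 1
        apply sum_congr rfl
        intro d _
        ring
    _ ≤ _ := by
        have := winf_sum hPF hLow hdisj R i
        linarith

end Pool.Agent.Lib.MP_9f2731_nt.BT
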