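import Pool.Agent.Lib.MP_9f2731_nt.BT.Spec

/-! Independence of the common period. -/

namespace Pool.Agent.Lib.MP_9f2731_nt.BT

open Finset

theorem tYL (h1 : StmtAvgP) (h2 : StmtGBd) : StmtYL := by
  classical
  intro k R i L L' m Qs hL hL'
  have hper : ∀ (L₁ : ℕ), Adm k L₁ (QU Qs (i + 1)) → ∀ e ⊆ QU Qs (i + 1), ∀ a,
      ∏ q ∈ e, g k q (a + L₁) m = ∏ q ∈ e, g k q a m := by
    intro L₁ hA e he a
    apply prod_congr rfl
    intro q hq
    have hq' := he hq
    obtain ⟨c, hc⟩ := hA.dvd q hq'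
    obtain ⟨-, e2, -⟩ := h2 k L₁ q hA.kpos hA.Lpos (hA.prime q hq') (hA.odd q hq')
      (hA.ord q hq') (hA.dvd q hq')
    have hp : Function.Periodic (fun a => g k q a m) (q - 1) := fun a => e2 a m
    have h3 := hp.nat_mul c a
    rw [hc, mul_comm]
    exact h3
  have hG : ∀ e ⊆ QU Qs (i + 1), G k L e m = G k L' e m := by
    intro e he
    unfold G
    have e1 := h1 L (L * L') (fun a => ∏ q ∈ e, g k q a m) hL.Lpos (dvd_mul_right _ _)
      (Nat.mul_pos hL.Lpos hL'.Lpos) (hper L hL e he)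
    have e2 := h1 L' (L * L') (fun a => ∏ q ∈ e, g k q a m) hL'.Lpos (dvd_mul_left _ _)
      (Nat.mul_pos hL.Lpos hL'.Lpos) (hper L' hL' e he)
    rw [← e1, ← e2]
  unfold Y
  apply sum_congr rfl
  intro e he
  rw [En, mem_filter, Dn, mem_filter, mem_powerset] at he
  rw [hG e he.1.1]

end Pool.Agent.Lib.MP_9f2731_nt.BT
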