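import Pool.Agent.Lib.MP_9f2731_nt.BT.Spec

/-! A product in which some prime is used exactly once has mean zero. -/

namespace Pool.Agent.Lib.MP_9f2731_nt.BT

open Finset

private lemma zero_comm (A B : ℕ) (f : ℕ → ℕ → ℝ) :
    avg A (fun x => avg B (fun y => f x y)) = avg B (fun y => avg A (fun x => f x y)) := by
  unfold avg
  rw [← sum_div, ← sum_div, sum_comm, div_right_comm]

private lemma zero_mul_right (A : ℕ) (f : ℕ → ℝ) (c : ℝ) :
    avg A f * c = avg A (fun x => f x * c) := by
  unfold avg
  rw [← sum_mul, div_mul_eq_mul_div]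

theorem tZero (hG : StmtGBd) (hB : StmtAvgB) : StmtZero := by
  classical
  intro k L n Q e q j0 hadm he hq hj
  have hqQ : q ∈ Q := he j0 hq
  have hqp := hadm.prime q hqQ
  have hgm : ∀ q' ∈ Q, ∀ a x y, x ≡ y [MOD q'] → g k q' a x = g k q' a y := by
    intro q' hq' a x y hxy
    obtain ⟨h1, -⟩ := hG k L q' hadm.kpos hadm.Lpos (hadm.prime q' hq') (hadm.odd q' hq')
      (hadm.ord q' hq') (hadm.dvd q' hq')
    have hper : Function.Periodic (g k q' a) q' := h1 a
    rw [← hper.map_mod_nat x, ← hper.map_mod_nat y]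
    congr 1
  have hzero : ∀ a, avg q (fun m => g k q a m) = 0 :=
    (hG k L q hadm.kpos hadm.Lpos hqp (hadm.odd q hqQ) (hadm.ord q hqQ) (hadm.dvd q hqQ)).2.2.2.1
  set P := PQ (Q.erase q) with hPdef
  have hP : 0 < P := prod_pos fun p hp => (hadm.prime p (mem_of_mem_erase hp)).pos
  have hcop : P.Coprime q := by
    rw [hPdef]
    unfold PQ
    apply Nat.Coprime.prod_left
    intro p hp
    rw [mem_erase] at hp
    rw [Nat.coprime_primes (hadm.prime p hp.2) hqp]
    exact hp.1
  have hPQ : PQ Q = P * q := by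
    rw [hPdef]
    unfold PQ
    rw [mul_comm, mul_prod_erase Q (fun p => p) hqQ]
  have hdvd : ∀ p ∈ Q, p ≠ q → p ∣ P := fun p hp hpq =>
    dvd_prod_of_mem (fun p => p) (mem_erase.mpr ⟨hpq, hp⟩)
  have hdvd' : ∀ p ∈ Q, p ∣ P * q := by
    intro p hp
    rw [← hPQ]
    exact dvd_prod_of_mem (fun p => p) hp
  let cr : ℕ → ℕ → ℕ := fun x t => (Nat.chineseRemainder hcop x t : ℕ)
  have hcr1 : ∀ x t, cr x t ≡ x [MOD P] := fun x t => (Nat.chineseRemainder hcop x t).2.1
  have hcr2 : ∀ x t, cr x t ≡ t [MOD q] := fun x t => (Nat.chineseRemainder hcop x t).2.2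
  set V : ℕ → ℕ → ℝ := fun a m => (∏ q' ∈ (e j0).erase q, g k q' a m) *
    ∏ j ∈ univ.erase j0, G k L (e j) m with hV
  have hVd : ∀ a x y, (∀ q' ∈ Q, q' ≠ q → x ≡ y [MOD q']) → V a x = V a y := by
    intro a x y hxy
    rw [hV]
    simp only
    congr 1
    · apply prod_congr rfl
      intro q' hq'
      rw [mem_erase] at hq'
      exact hgm q' (he j0 hq'.2) a x y (hxy q' (he j0 hq'.2) hq'.1)
    · apply prod_congr rfl
      intro j hjj
      rw [mem_erase] at hjj
      unfold G
      congr 1
      funext b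
      apply prod_congr rfl
      intro q' hq'
      refine hgm q' (he j hq') b x y (hxy q' (he j hq') ?_)
      rintro rfl
      exact hj j hjj.1 hq'
  have hprod : ∀ m, ∏ j, G k L (e j) m = avg L (fun a => g k q a m * V a m) := by
    intro m
    rw [← mul_prod_erase univ (fun j => G k L (e j) m) (mem_univ j0)]
    have h1 : G k L (e j0) m = avg L (fun a => g k q a m * ∏ q' ∈ (e j0).erase q, g k q' a m) := by
      unfold G
      congr 1
      funext a
      rw [mul_prod_erase (e j0) (fun p => g k p a m) hq]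
    rw [h1, zero_mul_right]
    congr 1
    funext a
    rw [mul_assoc]
  simp only [hprod]
  rw [zero_comm, hPQ]
  have hall : ∀ a, avg (P * q) (fun m => g k q a m * V a m) = 0 := by
    intro a
    rw [hB P q (fun m => g k q a m * V a m) cr hP hqp.pos hcop ?_ hcr1 hcr2]
    · have h1 : ∀ x t, g k q a (cr x t) * V a (cr x t) = g k q a t * V a x := by
        intro x t
        rw [hgm q hqQ a _ _ (hcr2 x t)]
        congr 1
        apply hVd
        intro q' hq' hne
        exact (hcr1 x t).of_dvd (hdvd q' hq' hne)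
      simp only [h1]
      have h2 : ∀ x, avg q (fun t => g k q a t * V a x) = 0 := by
        intro x
        rw [← zero_mul_right, hzero a, zero_mul]
      simp only [h2]
      unfold avg
      simp
    · intro x y hxy
      show g k q a x * V a x = g k q a y * V a y
      rw [hgm q hqQ a x y (hxy.of_dvd (hdvd' q hqQ)),
        hVd a x y (fun q' hq' _ => hxy.of_dvd (hdvd' q' hq'))]
  simp only [hall]
  unfold avg
  simp

end Pool.Agent.Lib.MP_9f2731_nt.BT
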