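import Pool.Agent.Lib.MP_9f2731_nt.BT.Mert
import Pool.Agent.Lib.MP_9f2731_nt.BT.AvgB
import Pool.Agent.Lib.MP_9f2731_nt.BT.AvgP
import Pool.Agent.Lib.MP_9f2731_nt.BT.BSum
import Pool.Agent.Lib.MP_9f2731_nt.BT.Bonf
import Pool.Agent.Lib.MP_9f2731_nt.BT.CfB
import Pool.Agent.Lib.MP_9f2731_nt.BT.Cnt
import Pool.Agent.Lib.MP_9f2731_nt.BT.Cw
import Pool.Agent.Lib.MP_9f2731_nt.BT.Cx
import Pool.Agent.Lib.MP_9f2731_nt.BT.Exc
import Pool.Agent.Lib.MP_9f2731_nt.BT.Exp1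
import Pool.Agent.Lib.MP_9f2731_nt.BT.Exp2
import Pool.Agent.Lib.MP_9f2731_nt.BT.F1P
import Pool.Agent.Lib.MP_9f2731_nt.BT.Final
import Pool.Agent.Lib.MP_9f2731_nt.BT.Finn
import Pool.Agent.Lib.MP_9f2731_nt.BT.GBd
import Pool.Agent.Lib.MP_9f2731_nt.BT.GaP
import Pool.Agent.Lib.MP_9f2731_nt.BT.Hit
import Pool.Agent.Lib.MP_9f2731_nt.BT.Low
import Pool.Agent.Lib.MP_9f2731_nt.BT.Mom
import Pool.Agent.Lib.MP_9f2731_nt.BT.Num
import Pool.Agent.Lib.MP_9f2731_nt.BT.Num2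
import Pool.Agent.Lib.MP_9f2731_nt.BT.PF
import Pool.Agent.Lib.MP_9f2731_nt.BT.Prod
import Pool.Agent.Lib.MP_9f2731_nt.BT.QzP
import Pool.Agent.Lib.MP_9f2731_nt.BT.Rec
import Pool.Agent.Lib.MP_9f2731_nt.BT.Scal
import Pool.Agent.Lib.MP_9f2731_nt.BT.SumT
import Pool.Agent.Lib.MP_9f2731_nt.BT.Theta
import Pool.Agent.Lib.MP_9f2731_nt.BT.Tran
import Pool.Agent.Lib.MP_9f2731_nt.BT.Tup
import Pool.Agent.Lib.MP_9f2731_nt.BT.WinF
import Pool.Agent.Lib.MP_9f2731_nt.BT.Wind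
import Pool.Agent.Lib.MP_9f2731_nt.BT.YL
import Pool.Agent.Lib.MP_9f2731_nt.BT.Zero

namespace Pool.Agent.Lib.MP_9f2731_nt.BT

theorem all_final (hMert : StmtMert) : StmtFinal := by
  have gbd : StmtGBd := tGBd tHit tAvgP
  have prod : StmtProd := tProd tAvgP tAvgB
  have gap : StmtGaP := tGaP gbd prod
  have wind : StmtWind := tWind tAvgP
  have finn : StmtFinn := tFinn tAvgB
  have zero : StmtZero := tZero gbd tAvgB
  have tup : StmtTup := tTup gap finn zero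
  have mom : StmtMom := tMom tup tSumT
  have tran : StmtTran := tTran wind gap
  have exc : StmtExc := tExc mom tran
  have cfb : StmtCfB := tCfB tBonf
  have f1p : StmtF1P := tF1P tBonf
  have exp2 : StmtExp2 := tExp2 tPF tExp1
  have rec' : StmtRec := tRec exp2
  have bsum : StmtBSum := tBSum cfb tLow tPF
  have winf : StmtWinF := tWinF wind exp2 tPF tLow tHit
  have cnt : StmtCnt := tCnt f1p
  have cx : StmtCx := tCx exc bsum tQzP
  have yl : StmtYL := tYL tAvgP gbd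
  have cw : StmtCw := tCw rec' cfb winf cnt tQzP yl
  exact tFinal cx cw tNum tNum2 tTheta (tScal hMert)

end Pool.Agent.Lib.MP_9f2731_nt.BT
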