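import Mathlib

/-! # Chains of the second kind in windows of exponents: definitions

`H k q a m` : the prime `q` divides one of the `k` numbers `m 2^(a+t) + 1`, `t < k`.
All averages over the exponent `a` are over a full period `L`, all averages over `m` are over a
full period (`q` or a product of primes).  `g = H - k/q` has mean zero in `m`. -/

namespace Pool.Agent.Lib.MP_9f2731_nt.BT

open Finset

/-- the mean of `f` over `0, 1, ..., L - 1` -/
noncomputable def avg (L : ℕ) (f : ℕ → ℝ) : ℝ := (∑ x ∈ range L, f x) / L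

open scoped Classical in
/-- `1` if `q` divides one of the numbers `m 2^(a+t) + 1`, `t < k`, and `0` otherwise -/
noncomputable def H (k q a m : ℕ) : ℝ := if ∃ t < k, q ∣ m * 2 ^ (a + t) + 1 then 1 else 0

/-- the centred indicator -/
noncomputable def g (k q a m : ℕ) : ℝ := H k q a m - (k : ℝ) / q

/-- mean over the exponent of a product of centred indicators -/
noncomputable def G (k L : ℕ) (e : Finset ℕ) (m : ℕ) : ℝ := avg L fun a => ∏ q ∈ e, g k q a m

/-- the same with absolute values -/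
noncomputable def Ga (k L : ℕ) (e : Finset ℕ) (m : ℕ) : ℝ := avg L fun a => ∏ q ∈ e, |g k q a m|

/-- the product of the primes in `Q` -/
def PQ (Q : Finset ℕ) : ℕ := ∏ q ∈ Q, q

/-- admissible sets of primes: `L` is a common period of the powers of `2`, and the `k` classes
of `m` modulo `q` which are hit are different -/
structure Adm (k L : ℕ) (Q : Finset ℕ) : Prop where
  kpos : 1 ≤ k
  Lpos : 0 < L
  prime : ∀ q ∈ Q, q.Prime
  odd : ∀ q ∈ Q, q ≠ 2
  ord : ∀ q ∈ Q, k ≤ orderOf (2 : ZMod q)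
  dvd : ∀ q ∈ Q, q - 1 ∣ L

/-- `f` depends only on the classes modulo the elements of `S` -/
def Dep (S : Finset ℕ) (f : ℕ → ℝ) : Prop :=
  ∀ x y : ℕ, (∀ q ∈ S, x ≡ y [MOD q]) → f x = f y

/-- subsets of `Q` with at most `r` elements -/
def low (r : ℕ) (Q : Finset ℕ) : Finset (Finset ℕ) := Q.powerset.filter fun d => d.card ≤ r

/-- the truncated (Bonferroni) sieve of one scale -/
noncomputable def F1 (k R : ℕ) (Q : Finset ℕ) (a m : ℕ) : ℝ :=
  ∑ d ∈ low (2 * R) Q, (-1 : ℝ) ^ d.card * ∏ q ∈ d, H k q a m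

/-- its coefficients in the centred indicators -/
noncomputable def cf (k R : ℕ) (Q e : Finset ℕ) : ℝ :=
  ∑ d ∈ (low (2 * R) Q).filter (fun d => e ⊆ d), (-1 : ℝ) ^ d.card * ∏ q ∈ d \ e, (k : ℝ) / q

/-- the union of the first `i` scales -/
def QU (Qs : ℕ → Finset ℕ) (i : ℕ) : Finset ℕ := (range i).biUnion Qs

/-- sets with at most `2 R` primes in each of the first `i` scales -/
def Dn (R : ℕ) (Qs : ℕ → Finset ℕ) (i : ℕ) : Finset (Finset ℕ) :=
  (QU Qs i).powerset.filter fun d => ∀ j ∈ range i, (d ∩ Qs j).card ≤ 2 * R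

/-- the sieve of the first `i` scales -/
noncomputable def Fn (k R : ℕ) (Qs : ℕ → Finset ℕ) (i a m : ℕ) : ℝ :=
  ∏ j ∈ range i, F1 k R (Qs j) a m

/-- its coefficients in the centred indicators -/
noncomputable def ga (k R : ℕ) (Qs : ℕ → Finset ℕ) (i : ℕ) (e : Finset ℕ) : ℝ :=
  ∏ j ∈ range i, cf k R (Qs j) (e ∩ Qs j)

/-- the mean over the exponent of the sieve of the first `i` scales -/
noncomputable def w (k R L : ℕ) (Qs : ℕ → Finset ℕ) (i m : ℕ) : ℝ :=
  avg L fun a => Fn k R Qs i a m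

/-- index set of the fluctuation of scale `i` -/
def En (R : ℕ) (Qs : ℕ → Finset ℕ) (i : ℕ) : Finset (Finset ℕ) :=
  (Dn R Qs (i + 1)).filter fun e => (e ∩ Qs i).Nonempty

/-- the fluctuation of scale `i` -/
noncomputable def Y (k R L : ℕ) (Qs : ℕ → Finset ℕ) (i m : ℕ) : ℝ :=
  ∑ e ∈ En R Qs i, ga k R Qs (i + 1) e * G k L e m

end Pool.Agent.Lib.MP_9f2731_nt.BT
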