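import Pool.Agent.Lib.MP_9f2731_nt.BT.Spec

namespace Pool.Agent.Lib.MP_9f2731_nt.BT

open Finset

theorem tExp1 : StmtExp1 := by
  classical
  intro k R Q a m
  unfold F1 cf
  have h1 : ∀ d : Finset ℕ, ∏ q ∈ d, H k q a m =
      ∑ e ∈ d.powerset, (∏ q ∈ e, g k q a m) * ∏ q ∈ d \ e, (k : ℝ) / q := by
    intro d
    rw [← prod_add]
    apply prod_congr rfl
    intro q _
    unfold g
    ring
  simp_rw [h1, mul_sum, sum_mul]
  rw [sum_sigma', sum_sigma']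
  refine sum_bij' (fun p _ => ⟨p.2, p.1⟩) (fun p _ => ⟨p.2, p.1⟩) ?_ ?_ ?_ ?_ ?_
  · rintro ⟨d, e⟩ h
    rw [mem_sigma] at h ⊢
    dsimp only at h ⊢
    obtain ⟨h2, h3⟩ := h
    rw [mem_powerset] at h3
    unfold low at h2 ⊢
    rw [mem_filter, mem_powerset] at h2
    refine ⟨?_, ?_⟩
    · rw [mem_filter, mem_powerset]
      exact ⟨h3.trans h2.1, (card_le_card h3).trans h2.2⟩
    · rw [mem_filter, mem_filter, mem_powerset]
      exact ⟨h2, h3⟩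
  · rintro ⟨e, d⟩ h
    rw [mem_sigma] at h ⊢
    dsimp only at h ⊢
    obtain ⟨_, h3⟩ := h
    rw [mem_filter] at h3
    exact ⟨h3.1, mem_powerset.mpr h3.2⟩
  · rintro ⟨d, e⟩ _; rfl
  · rintro ⟨e, d⟩ _; rfl
  · rintro ⟨d, e⟩ _
    dsimp only
    ring

end Pool.Agent.Lib.MP_9f2731_nt.BT
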