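import Pool.Agent.Lib.MP_9f2731_nt.BT.Spec

namespace Pool.Agent.Lib.MP_9f2731_nt.BT

open Finset Filter

/-- the core inequality -/
private lemma num2_core {k R : ℕ} {η θ : ℝ} (hk : 1 ≤ k) (hR : 1 ≤ R) (hη : 0 < η) (hη1 : η < 1)
    (hθ0 : 0 ≤ θ) (hθ : θ ≤ 2 ^ (-((k : ℝ) - η / 2))) {c A : ℝ} (hc : c = 1 / (16000 * R ^ 2))
    (hA1 : 1 ≤ A)
    (hA2 : 4 * (c⁻¹) ^ ((k : ℝ) - η / 2) ≤ A ^ (η / 2)) {N X J : ℕ} {ℓ ℓ₂ m z : ℝ}
    (hℓ : ℓ = Real.log X) (hℓ₂ : ℓ₂ = Real.log ℓ) (hm : m = Real.log (min N X : ℕ))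
    (hz : z = ℓ ^ (100 * R)) (hℓ1 : 1 < ℓ) (hℓ₂1 : 1 ≤ ℓ₂) (hN2 : 2 ≤ N) (hX2 : 2 ≤ X)
    (hmA : A * ℓ₂ ≤ m) (hNk : 8 * Real.log N ^ k ≤ (N : ℝ) ^ (3 / 4 : ℝ))
    (h1 : (z ^ 2 ^ J) ^ (32 * R) ≤ N)
    (h2 : ¬ (Real.log (z ^ 2 ^ (J + 1)) ≤ ℓ / (80 * R) ∧ (z ^ 2 ^ (J + 1)) ^ (32 * R) ≤ N)) :
    2 * N * θ ^ J + 2 * (z ^ 2 ^ J) ^ (8 * R) + (Nat.log 2 ⌊z ^ 2 ^ J⌋₊ + 1) ≤
      N * (ℓ₂ / m) ^ ((k : ℝ) - η) := by
  have hRpos : (0 : ℝ) < R := by exact_mod_cast hR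
  have hR1 : (1 : ℝ) ≤ R := by exact_mod_cast hR
  have hk1 : (1 : ℝ) ≤ k := by exact_mod_cast hk
  have hNpos : (0 : ℝ) < N := by
    have : (2 : ℝ) ≤ N := by exact_mod_cast hN2
    linarith
  have hcpos : 0 < c := by rw [hc]; positivity
  have hmN : m ≤ Real.log N := by
    rw [hm]
    apply Real.log_le_log
    · have : 2 ≤ min N X := le_min hN2 hX2
      have : (2 : ℝ) ≤ ((min N X : ℕ) : ℝ) := by exact_mod_cast this
      linarith
    · exact_mod_cast min_le_left N X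
  have hmX : m ≤ ℓ := by
    rw [hm, hℓ]
    apply Real.log_le_log
    · have : 2 ≤ min N X := le_min hN2 hX2
      have : (2 : ℝ) ≤ ((min N X : ℕ) : ℝ) := by exact_mod_cast this
      linarith
    · exact_mod_cast min_le_right N X
  have hℓ₂pos : 0 < ℓ₂ := by linarith
  have hmpos : 0 < m := by
    have : 1 * 1 ≤ A * ℓ₂ := mul_le_mul hA1 hℓ₂1 (by norm_num) (by linarith)
    linarith
  have hz1 : 1 ≤ z := by rw [hz]; exact one_le_pow₀ hℓ1.le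
  have hzpos : 0 < z := by linarith
  have hlogz : Real.log z = 100 * R * ℓ₂ := by
    rw [hz, Real.log_pow, hℓ₂]; push_cast; ring
  -- lower bound for 2^J
  have hJ : c * m / ℓ₂ ≤ 2 ^ J := by
    rw [not_and_or] at h2
    rw [div_le_iff₀ hℓ₂pos, hc]
    rw [div_mul_eq_mul_div, one_mul, div_le_iff₀ (by positivity)]
    rcases h2 with h2 | h2
    · push Not at h2
      rw [Real.log_pow, hlogz, div_lt_iff₀ (by positivity)] at h2
      push_cast at h2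
      have : (2 : ℝ) ^ (J + 1) = 2 * 2 ^ J := by ring
      rw [this] at h2
      nlinarith
    · push Not at h2
      have h3 := Real.log_lt_log hNpos h2
      rw [Real.log_pow, Real.log_pow, hlogz] at h3
      push_cast at h3
      have : (2 : ℝ) ^ (J + 1) = 2 * 2 ^ J := by ring
      rw [this] at h3
      have h4 : (0 : ℝ) < 2 ^ J := by positivity
      have h5 : 0 ≤ (R : ℝ) ^ 2 * 2 ^ J * ℓ₂ := by positivity
      nlinarith
  set y := ℓ₂ / m with hy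
  have hypos : 0 < y := div_pos hℓ₂pos hmpos
  have hyA : y ≤ 1 / A := by
    rw [hy, div_le_div_iff₀ hmpos (by linarith)]
    linarith
  have hy1 : y ≤ 1 := hyA.trans (by rw [div_le_one (by linarith)]; exact hA1)
  -- the main term
  have hκ : 0 < (k : ℝ) - η / 2 := by linarith
  have hkη : 0 < (k : ℝ) - η := by linarith
  have hθJ : θ ^ J ≤ y ^ ((k : ℝ) - η) / 4 := by
    have e1 : θ ^ J ≤ ((2 : ℝ) ^ (-((k : ℝ) - η / 2))) ^ J := pow_le_pow_left₀ hθ0 hθ J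
    have e2 : ((2 : ℝ) ^ (-((k : ℝ) - η / 2))) ^ J = ((2 : ℝ) ^ J) ^ (-((k : ℝ) - η / 2)) := by
      rw [← Real.rpow_natCast, ← Real.rpow_mul (by norm_num), mul_comm, Real.rpow_mul (by norm_num),
        Real.rpow_natCast]
    have e3 : ((2 : ℝ) ^ J) ^ (-((k : ℝ) - η / 2)) ≤ (c * m / ℓ₂) ^ (-((k : ℝ) - η / 2)) := by
      apply Real.rpow_le_rpow_of_nonpos (by positivity) hJ (by linarith)
    have e4 : (c * m / ℓ₂) ^ (-((k : ℝ) - η / 2)) = (c⁻¹) ^ ((k : ℝ) - η / 2) * y ^ ((k : ℝ) - η / 2) := by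
      rw [Real.rpow_neg (by positivity), ← Real.inv_rpow (by positivity), ← Real.mul_rpow
        (by positivity) (by positivity)]
      congr 1
      rw [hy]
      field_simp
    have e5 : y ^ ((k : ℝ) - η / 2) = y ^ ((k : ℝ) - η) * y ^ (η / 2) := by
      rw [← Real.rpow_add hypos]; congr 1; ring
    have e6 : y ^ (η / 2) ≤ (A ^ (η / 2))⁻¹ := by
      have h := Real.rpow_le_rpow hypos.le hyA (by linarith : 0 ≤ η / 2)
      rwa [one_div, Real.inv_rpow (by linarith)] at h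
    have hApos : 0 < A ^ (η / 2) := Real.rpow_pos_of_pos (by linarith) _
    have e7 : (c⁻¹) ^ ((k : ℝ) - η / 2) * y ^ (η / 2) ≤ 1 / 4 := by
      have hc2 : 0 < (c⁻¹) ^ ((k : ℝ) - η / 2) := Real.rpow_pos_of_pos (by positivity) _
      calc (c⁻¹) ^ ((k : ℝ) - η / 2) * y ^ (η / 2)
          ≤ (c⁻¹) ^ ((k : ℝ) - η / 2) * (A ^ (η / 2))⁻¹ := mul_le_mul_of_nonneg_left e6 hc2.le
        _ ≤ 1 / 4 := by
            rw [← div_eq_mul_inv, div_le_div_iff₀ hApos (by norm_num)]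
            linarith
    have hyk : 0 < y ^ ((k : ℝ) - η) := Real.rpow_pos_of_pos hypos _
    calc θ ^ J ≤ (c⁻¹) ^ ((k : ℝ) - η / 2) * y ^ ((k : ℝ) - η / 2) := by
          rw [← e4]; rw [e2] at e1; exact e1.trans e3
      _ = y ^ ((k : ℝ) - η) * ((c⁻¹) ^ ((k : ℝ) - η / 2) * y ^ (η / 2)) := by rw [e5]; ring
      _ ≤ y ^ ((k : ℝ) - η) * (1 / 4) := mul_le_mul_of_nonneg_left e7 hyk.le
      _ = _ := by ring
  -- the other terms
  set Z := z ^ 2 ^ J with hZ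
  have hZ1 : 1 ≤ Z := one_le_pow₀ hz1
  have ht : Z ^ (8 * R) ≤ (N : ℝ) ^ (1 / 4 : ℝ) := by
    have e1 : Z ^ (32 * R) = (Z ^ (8 * R)) ^ 4 := by
      rw [show 32 * R = 8 * R * 4 by ring]; exact pow_mul Z (8 * R) 4
    rw [e1] at h1
    have e2 : (0 : ℝ) ≤ Z ^ (8 * R) := by positivity
    calc Z ^ (8 * R) = ((Z ^ (8 * R)) ^ 4) ^ (1 / 4 : ℝ) := by
          rw [← Real.rpow_natCast (Z ^ (8 * R)) 4, ← Real.rpow_mul e2]
          norm_num
      _ ≤ (N : ℝ) ^ (1 / 4 : ℝ) := Real.rpow_le_rpow (by positivity) h1 (by norm_num)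
  have hlog : ((Nat.log 2 ⌊Z⌋₊ : ℕ) : ℝ) ≤ (N : ℝ) ^ (1 / 4 : ℝ) := by
    have e1 : Nat.log 2 ⌊Z⌋₊ ≤ ⌊Z⌋₊ := Nat.log_le_self _ _
    have e2 : ((Nat.log 2 ⌊Z⌋₊ : ℕ) : ℝ) ≤ (⌊Z⌋₊ : ℝ) := by exact_mod_cast e1
    have e3 : (⌊Z⌋₊ : ℝ) ≤ Z := Nat.floor_le (by linarith)
    have e4 : Z ≤ Z ^ (8 * R) := le_self_pow₀ hZ1 (by positivity)
    linarith
  have h1t : 1 ≤ (N : ℝ) ^ (1 / 4 : ℝ) := by
    have : 1 ≤ Z ^ (8 * R) := one_le_pow₀ hZ1
    linarith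
  have hrest : 4 * (N : ℝ) ^ (1 / 4 : ℝ) ≤ N * y ^ ((k : ℝ) - η) / 2 := by
    have hlogN : 0 < Real.log N := by linarith
    have e1 : (1 / Real.log N) ^ (k : ℝ) ≤ y ^ ((k : ℝ) - η) := by
      have e2 : (1 / Real.log N) ≤ y := by
        rw [hy, div_le_div_iff₀ hlogN hmpos]
        nlinarith
      calc (1 / Real.log N) ^ (k : ℝ) ≤ y ^ (k : ℝ) :=
            Real.rpow_le_rpow (by positivity) e2 (by linarith)
        _ ≤ y ^ ((k : ℝ) - η) := Real.rpow_le_rpow_of_exponent_ge hypos hy1 (by linarith)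
    have e3 : (1 / Real.log N) ^ (k : ℝ) = 1 / Real.log N ^ k := by
      rw [Real.rpow_natCast, div_pow, one_pow]
    rw [e3] at e1
    have hlk : 0 < Real.log N ^ k := by positivity
    have e4 : (N : ℝ) ^ (3 / 4 : ℝ) * N ^ (1 / 4 : ℝ) = N := by
      rw [← Real.rpow_add hNpos]; norm_num
    have e5 : 8 * (N : ℝ) ^ (1 / 4 : ℝ) ≤ N * (1 / Real.log N ^ k) := by
      rw [mul_one_div, le_div_iff₀ hlk]
      calc 8 * (N : ℝ) ^ (1 / 4 : ℝ) * Real.log N ^ k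
          = (8 * Real.log N ^ k) * N ^ (1 / 4 : ℝ) := by ring
        _ ≤ (N : ℝ) ^ (3 / 4 : ℝ) * N ^ (1 / 4 : ℝ) := mul_le_mul_of_nonneg_right hNk (by positivity)
        _ = N := e4
    have e6 := mul_le_mul_of_nonneg_left e1 hNpos.le
    linarith
  have hmain : 2 * N * θ ^ J ≤ N * y ^ ((k : ℝ) - η) / 2 := by
    have := mul_le_mul_of_nonneg_left hθJ (show (0 : ℝ) ≤ 2 * N by positivity)
    linarith
  linarith

theorem tNum2 : StmtNum2 := by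
  intro k R η θ hk hR hη hη1 hθ0 hθ
  have hRpos : (0 : ℝ) < R := by exact_mod_cast hR
  have hR1 : (1 : ℝ) ≤ R := by exact_mod_cast hR
  set c : ℝ := 1 / (16000 * R ^ 2) with hc
  have hcpos : 0 < c := by rw [hc]; positivity
  set B : ℝ := 4 * (c⁻¹) ^ ((k : ℝ) - η / 2) with hB
  have hBpos : 0 < B := by rw [hB]; positivity
  set A : ℝ := max (3200 * R ^ 2) (B ^ (2 / η)) with hA
  have hA3200 : 3200 * (R : ℝ) ^ 2 ≤ A := le_max_left _ _
  have hA1 : 1 ≤ A := by nlinarith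
  have hA2 : B ≤ A ^ (η / 2) := by
    calc B = (B ^ (2 / η)) ^ (η / 2) := by
          rw [← Real.rpow_mul hBpos.le]
          rw [show 2 / η * (η / 2) = 1 by field_simp, Real.rpow_one]
      _ ≤ A ^ (η / 2) := Real.rpow_le_rpow (by positivity) (le_max_right _ _) (by linarith)
  -- eventual facts
  have hcast : Tendsto (fun X : ℕ => (X : ℝ)) atTop atTop := tendsto_natCast_atTop_atTop
  have hlogt : Tendsto (fun X : ℕ => Real.log X) atTop atTop := Real.tendsto_log_atTop.comp hcast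
  have hloglogt : Tendsto (fun X : ℕ => Real.log (Real.log X)) atTop atTop :=
    Real.tendsto_log_atTop.comp hlogt
  have f1 : ∀ᶠ X : ℕ in atTop, 1 ≤ Real.log (Real.log X) := hloglogt.eventually_ge_atTop _
  have f2 : ∀ᶠ X : ℕ in atTop, 3 ≤ Real.log X := hlogt.eventually_ge_atTop _
  have f3 : ∀ᶠ X : ℕ in atTop, (A + 8000 * R ^ 2) * Real.log (Real.log X) ≤ Real.log X := by
    have h1 : ∀ᶠ x : ℝ in atTop, (A + 8000 * R ^ 2) * Real.log x ≤ x := by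
      have h2 := (Real.isLittleO_log_id_atTop).bound (show (0 : ℝ) < 1 / (A + 8000 * R ^ 2) by positivity)
      filter_upwards [h2, eventually_ge_atTop 1] with x h2 hx
      rw [Real.norm_of_nonneg (Real.log_nonneg hx), id, Real.norm_of_nonneg (by linarith)] at h2
      have h3 : 0 < A + 8000 * (R : ℝ) ^ 2 := by positivity
      rw [one_div, ← div_eq_inv_mul, le_div_iff₀ h3] at h2
      linarith
    exact hlogt.eventually h1
  obtain ⟨T, hT⟩ : ∃ T : ℝ, ∀ t : ℝ, T ≤ t → 8 * Real.log t ^ k ≤ t ^ (3 / 4 : ℝ) := by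
    have h1 : Tendsto (fun x : ℝ => Real.log x ^ (k : ℝ) / x ^ (3 / 4 : ℝ)) atTop (nhds 0) :=
      (isLittleO_log_rpow_rpow_atTop (k : ℝ) (by norm_num : (0 : ℝ) < 3 / 4)).tendsto_div_nhds_zero
    have h2 := h1.eventually (gt_mem_nhds (show (0 : ℝ) < 1 / 8 by norm_num))
    obtain ⟨T, hT⟩ := eventually_atTop.mp (h2.and (eventually_gt_atTop 0))
    refine ⟨T, fun t ht => ?_⟩
    obtain ⟨h3, h4⟩ := hT t ht
    have h5 : (0 : ℝ) < t ^ (3 / 4 : ℝ) := Real.rpow_pos_of_pos h4 _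
    rw [div_lt_iff₀ h5, Real.rpow_natCast] at h3
    linarith
  have f4 : ∀ᶠ X : ℕ in atTop, max T 2 ≤ Real.log X := hlogt.eventually_ge_atTop _
  obtain ⟨X₁, hX₁⟩ := eventually_atTop.mp (f1.and (f2.and (f3.and f4)))
  refine ⟨A, by linarith, max X₁ 2, fun X hX N hN => ?_⟩
  obtain ⟨e1, e2, e3, e4⟩ := hX₁ X ((le_max_left _ _).trans hX)
  have hX2 : 2 ≤ X := (le_max_right _ _).trans hX
  set ℓ := Real.log X with hℓ
  set ℓ₂ := Real.log ℓ with hℓ₂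
  set z := ℓ ^ (100 * R) with hz
  have hz1 : 1 ≤ z := one_le_pow₀ (by linarith)
  have hzpos : 0 < z := by linarith
  have hlogz : Real.log z = 100 * R * ℓ₂ := by
    rw [hz, Real.log_pow, hℓ₂]; push_cast; ring
  have hℓA : ℓ ≤ ℓ ^ A := by
    calc ℓ = ℓ ^ (1 : ℝ) := (Real.rpow_one _).symm
      _ ≤ ℓ ^ A := Real.rpow_le_rpow_of_exponent_le (by linarith) hA1
  have hNℓ : ℓ ≤ N := hℓA.trans hN
  have hN2 : 2 ≤ N := by
    have : (2 : ℝ) ≤ N := by linarith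
    exact_mod_cast this
  have hNT : T ≤ N := by
    have := (le_max_left T 2).trans e4
    linarith
  have hNpos : (0 : ℝ) < N := by linarith
  -- existence of J
  have hP0 : Real.log (z ^ 2 ^ 0) ≤ ℓ / (80 * R) ∧ (z ^ 2 ^ 0) ^ (32 * R) ≤ N := by
    rw [pow_zero, pow_one]
    constructor
    · rw [hlogz, le_div_iff₀ (by positivity)]
      have : 0 ≤ A * ℓ₂ := by positivity
      nlinarith
    · refine le_trans ?_ hN
      rw [hz, ← pow_mul, ← Real.rpow_natCast]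
      apply Real.rpow_le_rpow_of_exponent_le (by linarith)
      refine le_trans (le_of_eq ?_) hA3200
      push_cast
      ring
  obtain ⟨J, hJ1, hJ2⟩ : ∃ J : ℕ,
      (Real.log (z ^ 2 ^ J) ≤ ℓ / (80 * R) ∧ (z ^ 2 ^ J) ^ (32 * R) ≤ N) ∧
      ¬ (Real.log (z ^ 2 ^ (J + 1)) ≤ ℓ / (80 * R) ∧ (z ^ 2 ^ (J + 1)) ^ (32 * R) ≤ N) := by
    by_contra hcon
    push Not at hcon
    have hall : ∀ J : ℕ, Real.log (z ^ 2 ^ J) ≤ ℓ / (80 * R) ∧ (z ^ 2 ^ J) ^ (32 * R) ≤ N := by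
      intro J
      induction J with
      | zero => exact hP0
      | succ J ih => exact hcon J ih
    have h1 := (hall ⌈ℓ⌉₊).1
    rw [Real.log_pow, hlogz] at h1
    push_cast at h1
    have h2 : ((⌈ℓ⌉₊ : ℕ) : ℝ) < (2 : ℝ) ^ ⌈ℓ⌉₊ := by exact_mod_cast Nat.lt_two_pow_self
    have h3 := Nat.le_ceil ℓ
    have h4 : ℓ / (80 * R) ≤ ℓ := div_le_self (by linarith) (by linarith)
    have h5 : (1 : ℝ) ≤ 100 * R * ℓ₂ := by nlinarith
    have h6 : (2 : ℝ) ^ ⌈ℓ⌉₊ * 1 ≤ 2 ^ ⌈ℓ⌉₊ * (100 * R * ℓ₂) :=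
      mul_le_mul_of_nonneg_left h5 (by positivity)
    linarith
  refine ⟨J, hJ1.1, ?_⟩
  have hmA : A * ℓ₂ ≤ Real.log (min N X : ℕ) := by
    rcases le_total N X with h | h
    · rw [min_eq_left h]
      have h1 : Real.log (ℓ ^ A) ≤ Real.log N := Real.log_le_log (by positivity) hN
      rwa [Real.log_rpow (by linarith)] at h1
    · rw [min_eq_right h]
      have : 0 ≤ 8000 * (R : ℝ) ^ 2 * ℓ₂ := by positivity
      linarith
  exact num2_core hk hR hη hη1 hθ0 hθ hc hA1 hA2 hℓ hℓ₂ rfl hz (by linarith) e1 hN2 hX2 hmA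
    (hT N hNT) hJ1.2 hJ2

end Pool.Agent.Lib.MP_9f2731_nt.BT
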