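import Pool.Agent.Lib.MP_9f2731_nt.BT.Defs
import Pool.Agent.Lib.MP_9f2731_nt.Orders

/-! # Statements of the modules (each `StmtX` is proved as `tX` in `BT/X.lean`)

`avg L f` is the mean of `f` over `range L`.  `PQ Q` is the product of the elements of `Q`. -/

namespace Pool.Agent.Lib.MP_9f2731_nt.BT

open Finset

/-! ## A. averages of periodic functions -/

/-- **AvgP.**  The mean over a multiple of the period is the mean over the period.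
Proof: `L = D c`; `∑_{x < D c} f x = c ∑_{x < D} f x` by induction on `c` (`sum_range_add` /
`Finset.sum_range_add_sum...`, `f (D c + x) = f x`). -/
def StmtAvgP : Prop := ∀ (D L : ℕ) (f : ℕ → ℝ), 0 < D → D ∣ L → 0 < L →
  (∀ x, f (x + D) = f x) → avg L f = avg D f

/-- **Wind.**  Sums over intervals of length `N`.
Proof: by AvgP replace `L` by `D`.  `N = D c + r`, `r < D`.  The sum over each block of `D`
consecutive integers is `D * avg D f` (periodicity: the sum of `f` over `Ico u (u + D)` does not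
depend on `u`, induction on `u`), so the sum is `c D avg D f + (sum of r terms)`, and
`|sum of r terms - r avg D f| ≤ 2 r ≤ 2 D` because `|avg D f| ≤ 1`. -/
def StmtWind : Prop := ∀ (D L u N : ℕ) (f : ℕ → ℝ), 0 < D → D ∣ L → 0 < L →
  (∀ x, f (x + D) = f x) → (∀ x, |f x| ≤ 1) →
  |∑ x ∈ Ico u (u + N), f x - N * avg L f| ≤ 2 * D

/-- **AvgB.**  Averaging in two steps (Chinese remainder theorem).  `cr x t` is any function with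
`cr x t ≡ x mod P` and `cr x t ≡ t mod q`.
Proof: `(x, t) ↦ cr x t mod (P q)` is a bijection from `range P × range q` to `range (P q)`
(injective by coprimality, same cardinality), `f` is `P q`-periodic. -/
def StmtAvgB : Prop := ∀ (P q : ℕ) (f : ℕ → ℝ) (cr : ℕ → ℕ → ℕ), 0 < P → 0 < q → P.Coprime q →
  (∀ x y, x ≡ y [MOD (P * q)] → f x = f y) →
  (∀ x t, cr x t ≡ x [MOD P]) → (∀ x t, cr x t ≡ t [MOD q]) →
  avg (P * q) f = avg P fun x => avg q fun t => f (cr x t)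

/-- **Prod.**  Independence of the classes modulo different primes.
Proof: induction on `e` (`Finset.induction_on`); insert `q`: by AvgB with
`cr x t = Nat.chineseRemainder` (or any explicit formula) applied to
`P = PQ e'`, `f = (∏_{e'} φ) φ_q`, `avg q (fun t => u (cr x t) v (cr x t)) = u x * avg q v`.
For `e ⊆ Q` the mean over `PQ Q` is the mean over `PQ e` (AvgP). -/
def StmtProd : Prop := ∀ (Q e : Finset ℕ) (φ : ℕ → ℕ → ℝ), e ⊆ Q → (∀ q ∈ Q, q.Prime) →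
  (∀ q ∈ Q, ∀ x, φ q (x + q) = φ q x) →
  avg (PQ Q) (fun x => ∏ q ∈ e, φ q x) = ∏ q ∈ e, avg q (φ q)

/-! ## B. the events -/

/-- **Hit.**  Elementary facts on `H`.
Proof: (1), (2) periodicity in `m` and in `a` (Fermat: `2^(q-1) = 1` mod `q`); (3) for fixed `a` the
number of `m < q` with `q ∣ m 2^(a+t) + 1` for some `t < k` is exactly `k`: `m = - 2^(-(a+t))`,
`t < k ≤ ord`, different classes; (4) for fixed `m`: the `a < q - 1` which are hit: for each `t < k`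
the set of `a` with `2^(a+t) = -1/m` is empty or one class modulo the order `o` of `2`, so it has at
most `(q-1)/o` elements below `q - 1`; total at most `k (q-1)/o`. -/
def StmtHit : Prop := ∀ (k q : ℕ), 1 ≤ k → q.Prime → q ≠ 2 → k ≤ orderOf (2 : ZMod q) →
  (∀ a m, H k q a (m + q) = H k q a m) ∧
  (∀ a m, H k q (a + (q - 1)) m = H k q a m) ∧
  (∀ a, avg q (fun m => H k q a m) = (k : ℝ) / q) ∧
  (∀ m, avg (q - 1) (fun a => H k q a m) ≤ (k : ℝ) / orderOf (2 : ZMod q))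

/-- **GBd.**  The same for `g` (uses Hit).
Proof: `0 ≤ k/q ≤ 1` because `k ≤ ord ≤ q - 1`, `H ∈ {0,1}`; `|g| ≤ H + k/q`; the mean over a
multiple `L` of `q - 1` is the mean over `q - 1` (AvgP), and `1/q ≤ 1/ord`. -/
def StmtGBd : Prop := ∀ (k L q : ℕ), 1 ≤ k → 0 < L → q.Prime → q ≠ 2 →
  k ≤ orderOf (2 : ZMod q) → q - 1 ∣ L →
  (∀ a m, g k q a (m + q) = g k q a m) ∧
  (∀ a m, g k q (a + (q - 1)) m = g k q a m) ∧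
  (∀ a m, |g k q a m| ≤ 1) ∧
  (∀ a, avg q (fun m => g k q a m) = 0) ∧
  (∀ a, avg q (fun m => |g k q a m|) ≤ 2 * k / q) ∧
  (∀ m, avg L (fun a => |g k q a m|) ≤ 2 * k / orderOf (2 : ZMod q))

/-- **GaP.**  Properties of `Ga` and `G` (uses GBd, Prod).
Proof: `0 ≤ Ga`; `|G| ≤ Ga` (triangle inequality); monotonicity: factors `≤ 1`;
`Ga e ≤ avg |g_q| ≤ 2k/o_q` for each `q ∈ e`; `G`, `Ga` depend on `m` only modulo the `q ∈ e`;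
`avg_{PQ Q} (Ga e) = avg_a ∏_{q ∈ e} avg_q |g_q| ≤ ∏ 2k/q` (exchange the finite sums, Prod). -/
def StmtGaP : Prop := ∀ (k L : ℕ) (Q : Finset ℕ), Adm k L Q →
  (∀ e ⊆ Q, ∀ m, 0 ≤ Ga k L e m) ∧
  (∀ e ⊆ Q, ∀ m, |G k L e m| ≤ Ga k L e m) ∧
  (∀ e ⊆ Q, ∀ m, Ga k L e m ≤ 1) ∧
  (∀ e ⊆ Q, ∀ e' ⊆ e, ∀ m, Ga k L e m ≤ Ga k L e' m) ∧
  (∀ e ⊆ Q, ∀ q ∈ e, ∀ m, Ga k L e m ≤ 2 * k / orderOf (2 : ZMod q)) ∧
  (∀ e ⊆ Q, Dep e (G k L e)) ∧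
  (∀ e ⊆ Q, Dep e (Ga k L e)) ∧
  (∀ e ⊆ Q, avg (PQ Q) (Ga k L e) ≤ ∏ q ∈ e, (2 * k / q : ℝ))

/-! ## C. the moment inequality -/

/-- **Finn.**  A Finner (generalised Loomis-Whitney) inequality: if every prime is used by at most
two of the nonnegative functions `f_j`, then the mean of the product is at most the product of the
`L²` norms.
Proof: induction on `Q`.  `Q = ∅`: all functions are constant (`Dep ∅`).  `insert q Q'`, `P = PQ Q'`: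
by AvgB `avg (P q) (∏ f_j) = avg P (x ↦ avg q (t ↦ ∏ f_j (cr x t)))`.  For the `j` with `q ∉ e j`
`f_j (cr x t) = f_j x`; there are at most two others and by Cauchy-Schwarz (or `avg ≤ L²` norm if
there is only one) `avg q (t ↦ ∏ f_j (cr x t)) ≤ ∏_j F_j x`, with
`F_j x = sqrt (avg q (t ↦ f_j (cr x t)^2))`, which is `f_j x` if `q ∉ e j`.  `F_j` depends only on the
classes modulo `e j \ {q}` (`t ↦ cr x t` runs through the same classes), and by the induction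
hypothesis `avg P (∏ F_j) ≤ ∏ sqrt (avg P F_j^2) = ∏ sqrt (avg (P q) f_j^2)` (AvgB again). -/
def StmtFinn : Prop := ∀ (n : ℕ) (Q : Finset ℕ) (f : Fin n → ℕ → ℝ) (e : Fin n → Finset ℕ),
  (∀ q ∈ Q, q.Prime) → (∀ j, e j ⊆ Q) → (∀ j, Dep (e j) (f j)) → (∀ j x, 0 ≤ f j x) →
  (∀ q ∈ Q, (univ.filter fun j => q ∈ e j).card ≤ 2) →
  avg (PQ Q) (fun x => ∏ j, f j x) ≤ ∏ j, Real.sqrt (avg (PQ Q) fun x => (f j x) ^ 2)

/-- **Zero.**  A product of `G`'s in which some prime is used exactly once has mean zero.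
Proof: `∏_j G (e j) m = avg_{a_1} ... avg_{a_n} ∏_j ∏_{q' ∈ e j} g q' (a_j) m`; it is simpler to
isolate one factor: `G (e j0) m = avg_a (g q a m * ∏_{e j0 \ q} g q' a m)`, so the whole product is
`avg_a (g q a m * V_a m)` with `V_a` depending only on the classes modulo the primes `≠ q`; for fixed
`a` the mean over `m` is `avg q (g q a) * avg V_a = 0` (AvgB with `P = PQ (Q \ q)`; `V_a (cr x t) = V_a x`).
-/
def StmtZero : Prop := ∀ (k L n : ℕ) (Q : Finset ℕ) (e : Fin n → Finset ℕ) (q : ℕ) (j0 : Fin n),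
  Adm k L Q → (∀ j, e j ⊆ Q) → q ∈ e j0 → (∀ j, j ≠ j0 → q ∉ e j) →
  avg (PQ Q) (fun m => ∏ j, G k L (e j) m) = 0

/-- **Tup.**  (uses GaP, Finn, Zero) bound for one tuple.
Proof: put `κ = sqrt (2 k / K)`.  If some prime `q` of the union is in exactly one of the `e j`, the
mean is `0` (Zero).  Otherwise choose for each `q` in the union two different indices
`j1 q ≠ j2 q` with `q ∈ e j1, e j2` and put `e' j = {q ∈ e j | j = j1 q ∨ j = j2 q}`.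
`|∏ G (e j)| ≤ ∏ Ga (e j)`, and `Ga (e j) = sqrt * sqrt ≤ κ * sqrt (Ga (e' j))` (GaP: `Ga (e j) ≤ 2k/K`
because `e j` contains a prime of order at least `K`, and monotonicity).  Finn for
`f_j = sqrt (Ga (e' j))`: the mean of the product is at most
`∏ sqrt (avg (Ga (e' j))) ≤ ∏_j sqrt (∏_{q ∈ e' j} 2k/q) = ∏_{q in the union} 2k/q`, because every
prime of the union is in exactly two `e' j`. -/
def StmtTup : Prop := ∀ (k L n : ℕ) (Q : Finset ℕ) (K : ℝ) (e : Fin n → Finset ℕ),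
  Adm k L Q → 0 < K → (∀ j, e j ⊆ Q) →
  (∀ j, ∃ q ∈ e j, K ≤ orderOf (2 : ZMod q)) →
  |avg (PQ Q) (fun m => ∏ j, G k L (e j) m)| ≤
    Real.sqrt (2 * k / K) ^ n * ∏ q ∈ univ.biUnion e, (2 * k / q : ℝ)

/-- **SumT.**  Summation over all tuples.
Proof: induction on `n`.  A function `Fin (n+1) → Finset ℕ` is `Fin.cons e f`
(`Fin.consEquiv`, `Fintype.piFinset`); with `U = univ.biUnion f`:
`∏_{q ∈ U ∪ e} x q = ∏_{q ∈ U} x q * ∏_{q ∈ e \ U} x q`, `U ⊆ Q` has at most `r n` elements, and the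
inner sum over `e` is at most `B`. -/
def StmtSumT : Prop := ∀ (n r N : ℕ) (Q : Finset ℕ) (E : Finset (Finset ℕ)) (c : Finset ℕ → ℝ)
  (x : ℕ → ℝ) (B : ℝ), n ≤ N →
  (∀ e ∈ E, e ⊆ Q ∧ e.card ≤ r) → (∀ e ∈ E, 0 ≤ c e) → (∀ q ∈ Q, 0 ≤ x q) → 0 ≤ B →
  (∀ U ⊆ Q, U.card ≤ r * N → ∑ e ∈ E, c e * ∏ q ∈ e \ U, x q ≤ B) →
  ∑ f ∈ Fintype.piFinset (fun _ : Fin n => E), (∏ j, c (f j)) * ∏ q ∈ univ.biUnion f, x q ≤ B ^ n

/-- **Mom.**  (uses Tup, SumT) the moment inequality.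
Proof: `(∑_e γ e G e m)^n = ∑_{f ∈ piFinset} ∏_j γ (f j) G (f j) m` (`Finset.sum_pow'` or
`Finset.prod_univ_sum`), take the mean over `m` (exchange sums), Tup for each `f`, SumT. -/
def StmtMom : Prop := ∀ (k L n r : ℕ) (Q : Finset ℕ) (K B : ℝ) (E : Finset (Finset ℕ))
  (γ : Finset ℕ → ℝ),
  Adm k L Q → 0 < K → 0 ≤ B → (∀ e ∈ E, e ⊆ Q ∧ e.card ≤ r) →
  (∀ e ∈ E, ∃ q ∈ e, K ≤ orderOf (2 : ZMod q)) →
  (∀ U ⊆ Q, U.card ≤ r * n → ∑ e ∈ E, |γ e| * ∏ q ∈ e \ U, (2 * k / q : ℝ) ≤ B) →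
  avg (PQ Q) (fun m => (∑ e ∈ E, γ e * G k L e m) ^ n) ≤ (Real.sqrt (2 * k / K) * B) ^ n

/-- **Tran.**  (uses Wind, GaP) from the mean over a full period to an interval.
Proof: expand the power as in Mom; for each tuple `f` the function `∏_j G (f j) m` has absolute value
`≤ 1`, and it is periodic with period `D = PQ (univ.biUnion f) ∣ PQ Q` (it depends only on the classes
modulo the primes of the union); Wind with `u = M + 1`: the error is at most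
`2 D ≤ 2 ∏_j ∏_{q ∈ f j} q`.  Sum: `∑_f ∏_j |γ (f j)| ∏_{q ∈ f j} q = (∑_e |γ e| ∏_{q ∈ e} q)^n`. -/
def StmtTran : Prop := ∀ (k L n M X : ℕ) (Q : Finset ℕ) (E : Finset (Finset ℕ))
  (γ : Finset ℕ → ℝ), Adm k L Q → (∀ e ∈ E, e ⊆ Q) →
  ∑ m ∈ Ioc M (M + X), (∑ e ∈ E, γ e * G k L e m) ^ n ≤
    X * avg (PQ Q) (fun m => (∑ e ∈ E, γ e * G k L e m) ^ n) +
      2 * (∑ e ∈ E, |γ e| * ∏ q ∈ e, (q : ℝ)) ^ n

/-- **Exc.**  (uses Mom, Tran) Markov inequality: few exceptional `m`.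
Proof: `n` even, `(card) τ^n ≤ ∑_{m in the interval} (Y m)^n`. -/
def StmtExc : Prop := ∀ (k L n r M X : ℕ) (Q : Finset ℕ) (K B τ W : ℝ) (E : Finset (Finset ℕ))
  (γ : Finset ℕ → ℝ),
  Adm k L Q → 0 < K → 0 ≤ B → 0 < τ → Even n → (∀ e ∈ E, e ⊆ Q ∧ e.card ≤ r) →
  (∀ e ∈ E, ∃ q ∈ e, K ≤ orderOf (2 : ZMod q)) →
  (∀ U ⊆ Q, U.card ≤ r * n → ∑ e ∈ E, |γ e| * ∏ q ∈ e \ U, (2 * k / q : ℝ) ≤ B) →
  (∑ e ∈ E, |γ e| * ∏ q ∈ e, (q : ℝ) ≤ W) →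
  (((Ioc M (M + X)).filter fun m => τ < |∑ e ∈ E, γ e * G k L e m|).card : ℝ) * τ ^ n ≤
    X * (Real.sqrt (2 * k / K) * B) ^ n + 2 * W ^ n

/-! ## D. the sieve of one scale -/

/-- **Bonf.**  Bonferroni inequalities for real numbers `0 ≤ x_q ≤ 1`.
Proof: let `S_r = ∑_{|d| ≤ r} (-1)^|d| x_d`, `Π = ∏ (1 - x)`.  By induction on `Q`:
`(-1)^r (S_r - Π) ≥ 0` for all `r ≥ 0`: `S_r(insert q) = S_r - x_q S_{r-1}` (with `S_{-1} = 0`),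
`Π(insert q) = (1 - x_q) Π`.  So `Π ≤ S_{2R}` and
`S_{2R} = S_{2R+1} + e_{2R+1} ≤ Π + e_{2R+1}`, `e_j ≤ (∑ x)^j / j!`
(`e_j` = elementary symmetric sum; `j e_j ≤ (∑ x) e_{j-1}`). -/
def StmtBonf : Prop := ∀ (R : ℕ) (Q : Finset ℕ) (x : ℕ → ℝ), (∀ q ∈ Q, 0 ≤ x q ∧ x q ≤ 1) →
  ∏ q ∈ Q, (1 - x q) ≤ ∑ d ∈ low (2 * R) Q, (-1 : ℝ) ^ d.card * ∏ q ∈ d, x q ∧
  ∑ d ∈ low (2 * R) Q, (-1 : ℝ) ^ d.card * ∏ q ∈ d, x q ≤
    ∏ q ∈ Q, (1 - x q) + (∑ q ∈ Q, x q) ^ (2 * R + 1) / (2 * R + 1).factorial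

/-- **Low.**  `∑_{|e| ≤ r} ∏_{q ∈ e} y_q ≤ (1 + ∑ y)^r` for `y ≥ 0`.
Proof: induction on `r`: a set with exactly `r+1` elements is `insert (max) (rest)`, so the sum over
sets with exactly `r + 1` elements is at most `(∑ y) (∑_{|e| ≤ r} ∏ y)`; or `e_j ≤ (∑y)^j/j!`. -/
def StmtLow : Prop := ∀ (r : ℕ) (Q : Finset ℕ) (y : ℕ → ℝ), (∀ q ∈ Q, 0 ≤ y q) →
  ∑ e ∈ low r Q, ∏ q ∈ e, y q ≤ (1 + ∑ q ∈ Q, y q) ^ r

/-- **Exp1.**  Expansion of the sieve of one scale in the centred indicators.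
Proof: `H = g + k/q`, `∏_{q ∈ d} (g + k/q) = ∑_{e ⊆ d} ∏_{e} g ∏_{d \ e} k/q`
(`Finset.prod_add`), exchange the sums. -/
def StmtExp1 : Prop := ∀ (k R : ℕ) (Q : Finset ℕ) (a m : ℕ),
  F1 k R Q a m = ∑ e ∈ low (2 * R) Q, cf k R Q e * ∏ q ∈ e, g k q a m

/-- **CfB.**  Bounds for the coefficients (second part uses Bonf).
Proof: `|cf e| ≤ ∑_{d ⊇ e} ∏_{d \ e} k/q ≤ ∏_{q ∈ Q} (1 + k/q) ≤ exp (k ∑ 1/q)`; and
`cf ∅ = ∑_{d ∈ low} (-1)^|d| ∏ k/q`, Bonf with `x = k/q`. -/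
def StmtCfB : Prop := ∀ (k R : ℕ) (Q : Finset ℕ), (∀ q ∈ Q, k ≤ q ∧ 1 ≤ q) →
  (∀ e ∈ low (2 * R) Q, |cf k R Q e| ≤ Real.exp (k * ∑ q ∈ Q, (1 : ℝ) / q)) ∧
  ∏ q ∈ Q, (1 - (k : ℝ) / q) ≤ cf k R Q ∅ ∧
  cf k R Q ∅ ≤ ∏ q ∈ Q, (1 - (k : ℝ) / q) +
    (k * ∑ q ∈ Q, (1 : ℝ) / q) ^ (2 * R + 1) / (2 * R + 1).factorial

/-- **F1P.**  (uses Bonf) `F1` is a majorant of the indicator of the event that there is no hit.
Proof: Bonf with `x_q = H ∈ {0, 1}`: `∏ (1 - H) ≤ F1`; if no prime hits, `F1 = 1` (only `d = ∅`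
contributes: `∏_{q ∈ d} H = 0` for `d ≠ ∅`). -/
def StmtF1P : Prop := ∀ (k R : ℕ) (Q : Finset ℕ) (a m : ℕ),
  0 ≤ F1 k R Q a m ∧ ((∀ q ∈ Q, H k q a m = 0) → F1 k R Q a m = 1)

/-! ## E. several scales -/

/-- **PF.**  Product formula over the scales.
Proof: induction on `i`; for disjoint scales `d ↦ (d ∩ QU i, d ∩ Qs i)` is a bijection from
`Dn (i+1)` to `Dn i × low (2R) (Qs i)` with inverse the union. -/
def StmtPF : Prop := ∀ (R i : ℕ) (Qs : ℕ → Finset ℕ) (φ : ℕ → Finset ℕ → ℝ),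
  (∀ j j', j ≠ j' → Disjoint (Qs j) (Qs j')) →
  ∏ j ∈ range i, ∑ d ∈ low (2 * R) (Qs j), φ j d =
    ∑ e ∈ Dn R Qs i, ∏ j ∈ range i, φ j (e ∩ Qs j)

/-- **Exp2.**  (uses PF, Exp1) the expansions of `Fn`.
Proof: PF with `φ j d = (-1)^|d| ∏_{q ∈ d} H` and with `φ j e = cf e ∏_{q ∈ e} g` (Exp1), and
`∏_{q ∈ e} h q = ∏_{j < i} ∏_{q ∈ e ∩ Qs j} h q` for `e ⊆ QU i`, `|e| = ∑_j |e ∩ Qs j|`. -/
def StmtExp2 : Prop := ∀ (k R i a m : ℕ) (Qs : ℕ → Finset ℕ),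
  (∀ j j', j ≠ j' → Disjoint (Qs j) (Qs j')) →
  Fn k R Qs i a m = ∑ d ∈ Dn R Qs i, (-1 : ℝ) ^ d.card * ∏ q ∈ d, H k q a m ∧
  Fn k R Qs i a m = ∑ e ∈ Dn R Qs i, ga k R Qs i e * ∏ q ∈ e, g k q a m

/-- **Rec.**  (uses Exp2) the recursion for the means.
Proof: average Exp2 for `i + 1` over `a`; the sets `e ∈ Dn (i+1)` with `e ∩ Qs i = ∅` are exactly the
`e ∈ Dn i`, and for them `ga (i+1) e = ga i e * cf (Qs i) ∅`; the others give `Y i m`. -/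
def StmtRec : Prop := ∀ (k R L i m : ℕ) (Qs : ℕ → Finset ℕ),
  (∀ j j', j ≠ j' → Disjoint (Qs j) (Qs j')) →
  w k R L Qs (i + 1) m = cf k R (Qs i) ∅ * w k R L Qs i m + Y k R L Qs i m

/-- **BSum.**  (uses CfB, Low, PF) the two sums over the index set of a fluctuation.
`C` bounds `exp (k ∑_{Qs j} 1/q)` for all `j`.
Proof: `|ga e| ≤ C^(i+1)` for `e ∈ Dn (i+1)` (each `e ∩ Qs j ∈ low (2R) (Qs j)`, CfB).  A set in
`Dn (i+1)` has at most `2R(i+1)` elements.  (1) `∑_e ∏_{q ∈ e \ U} x_q ≤ ∑_{e ∈ low (2R(i+1)) QU} ∏_{q ∈ e} y_q`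
with `y_q = 1` on `U` and `x_q = 2k/q` outside; Low.  (2) `∑_{e ∈ Dn (i+1)} ∏_{q ∈ e} q =
∏_j ∑_{d ∈ low (2R) (Qs j)} ∏_{q ∈ d} q ≤ ∏_j (1 + ∑_{q ∈ Qs j} q)^(2R)` by PF and Low. -/
def StmtBSum : Prop := ∀ (k R i : ℕ) (Qs : ℕ → Finset ℕ) (C : ℝ) (U : Finset ℕ), 1 ≤ C →
  (∀ j j', j ≠ j' → Disjoint (Qs j) (Qs j')) → (∀ j, ∀ q ∈ Qs j, k ≤ q ∧ 1 ≤ q) →
  (∀ j ≤ i, Real.exp (k * ∑ q ∈ Qs j, (1 : ℝ) / q) ≤ C) →
  ∑ e ∈ En R Qs i, |ga k R Qs (i + 1) e| * ∏ q ∈ e \ U, (2 * k / q : ℝ) ≤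
    C ^ (i + 1) * (1 + (U.card : ℝ) + 2 * k * ∑ q ∈ QU Qs (i + 1), (1 : ℝ) / q) ^ (2 * R * (i + 1)) ∧
  ∑ e ∈ En R Qs i, |ga k R Qs (i + 1) e| * ∏ q ∈ e, (q : ℝ) ≤
    C ^ (i + 1) * ∏ j ∈ range (i + 1), (1 + ∑ q ∈ Qs j, (q : ℝ)) ^ (2 * R)

/-- **WinF.**  (uses Wind, Exp2, PF, Low, Hit) sums over windows of exponents.
Proof: Exp2 (first form).  For `d ∈ Dn i` the function `a ↦ ∏_{q ∈ d} H` has values in `[0,1]` and period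
`∏_{q ∈ d} (q - 1)`, which divides some power ... : take `D = ∏_{q ∈ d} (q-1)` and note that the mean
over `L` is the mean over `L * D` (AvgP, the function also has period `lcm`), or use `D = L`-independent
form: `D' = lcm` of the `q - 1`, `D' ∣ L`, `D' ≤ ∏ (q-1) ≤ ∏ q`.  Wind: error `≤ 2 D' ≤ 2 ∏_{q ∈ d} q`.
Sum of the errors: `2 ∑_{d ∈ Dn i} ∏ q ≤ 2 ∏_j (1 + ∑_{q ∈ Qs j} q)^(2R)` (PF and Low). -/
def StmtWinF : Prop := ∀ (k R L i a N m : ℕ) (Qs : ℕ → Finset ℕ),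
  (∀ j j', j ≠ j' → Disjoint (Qs j) (Qs j')) → Adm k L (QU Qs i) →
  ∑ b ∈ Ico a (a + N), Fn k R Qs i b m ≤
    N * w k R L Qs i m + 2 * ∏ j ∈ range i, (1 + ∑ q ∈ Qs j, (q : ℝ)) ^ (2 * R)

/-- **Cnt.**  (uses F1P) starts of chains are not hit.
Proof: let all primes of `QU i` be at most `z`.  If `m 2^(b+t) + 1` is prime for all `t < k` and
`m 2^b + 1 > z`, then no `q ∈ QU i` divides any of these numbers (it would be equal to it), so all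
`H k q b m = 0` and `Fn = 1` (F1P); always `0 ≤ Fn`.  The `b` with `m 2^b + 1 ≤ z` (`m ≥ 1`) satisfy
`2^b ≤ z`: at most `Nat.log 2 z + 1` of them. -/
def StmtCnt : Prop := ∀ (k R i a N m z : ℕ) (Qs : ℕ → Finset ℕ), 1 ≤ m → 1 ≤ z → 1 ≤ k →
  (∀ q ∈ QU Qs i, q.Prime ∧ q ≤ z) →
  (((Ico a (a + N)).filter fun b => ∀ t < k, (m * 2 ^ (b + t) + 1).Prime).card : ℝ) ≤
    ∑ b ∈ Ico a (a + N), Fn k R Qs i b m + (Nat.log 2 z + 1)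

/-! ## F. primes -/

/-- **Mert.**  Mertens for one scale.
Proof: first Mertens theorem: `A(t) = ∑_{p ≤ t} log p / p` satisfies `|A(t) - log t| ≤ c` for `t ≥ 2`
(upper bound: `mertensA_le` in `Lib/MP_aa9ae4_nt/Mertens.lean`; lower bound:
`log n! = ∑_{d ≤ n} Λ(d) ⌊n/d⌋ ≤ ∑_{p ≤ n} (n/p) log p + n ∑_p log p/(p(p-1))` and `log n! ≥ n log n - n`).
Divide `(z, z^2]` into `r` blocks `(z^(1+(l-1)/r), z^(1+l/r)]`: on each block `∑ log p/p = (log z)/r + O(2c)`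
and `log p ∈ [(1+(l-1)/r) log z, (1+l/r) log z]`; so the sum of `1/p` is between
`∑_{l=1}^r 1/(r+l) - 2cr/log z` and `∑_{l=0}^{r-1} 1/(r+l) + 2cr/log z`; first `r`, then `z` large
(`∑_{l=1}^r 1/(r+l) ≥ log 2 - 1/(2r)...` by comparison with the integral). -/
def StmtMert : Prop := ∀ ε : ℝ, 0 < ε → ∃ z₀ : ℝ, 2 ≤ z₀ ∧ ∀ z : ℝ, z₀ ≤ z →
  Real.log 2 - ε ≤ ∑ p ∈ (Ioc ⌊z⌋₊ ⌊z ^ 2⌋₊).filter Nat.Prime, (1 : ℝ) / p ∧
  ∑ p ∈ (Ioc ⌊z⌋₊ ⌊z ^ 2⌋₊).filter Nat.Prime, (1 : ℝ) / p ≤ Real.log 2 + ε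

/-- the primes in `(z, z^2]` modulo which `2` has order at least `z^(2/5)` -/
noncomputable def scale (z : ℝ) : Finset ℕ :=
  (Ioc ⌊z⌋₊ ⌊z ^ 2⌋₊).filter fun q => q.Prime ∧ z ^ (2 / 5 : ℝ) ≤ orderOf (2 : ZMod q)

/-- **Scal.**  (uses Mert, `card_smallOrd`) the primes of one scale.
Proof: the primes of `(z, z^2]` which are not in `scale z` are in `smallOrd ⌊z^2⌋ ⌊z^(2/5)⌋`: at most
`z^(4/5)` primes, each contributes at most `1/z`: together at most `z^(-1/5)`, which tends to `0`. -/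
def StmtScal : Prop := ∀ ε : ℝ, 0 < ε → ∃ z₀ : ℝ, 2 ≤ z₀ ∧ ∀ z : ℝ, z₀ ≤ z →
  Real.log 2 - ε ≤ ∑ p ∈ scale z, (1 : ℝ) / p ∧ ∑ p ∈ scale z, (1 : ℝ) / p ≤ 1

/-- the scales `(z^(2^j), z^(2^(j+1))]` -/
noncomputable def Qz (z : ℝ) (j : ℕ) : Finset ℕ := scale (z ^ 2 ^ j)

/-- **QzP.**  Elementary properties of the scales.
Proof: put `Z j = z^(2^j)`, `Z (j+1) = (Z j)^2`; `q ∈ Qz z j` means `q` prime, `Z j < q ≤ (Z j)^2`, and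
the order of `2` is at least `(Z j)^(2/5) ≥ z^(2/5) ≥ k`.  Disjoint intervals; `q > z ≥ 4`, so `q ≠ 2`;
`k/q ≤ z^(-3/5) ≤ 1/2` (`4^(3/5) > 2`).  `L = ∏_{q ∈ QU} (q-1)`.
`1 + ∑_{Z < q ≤ Z^2} q ≤ Z^4` for `Z ≥ 2`, and `∏_{j<i} Z j ≤ Z i` (`2^i - 1 ≤ 2^i`). -/
def StmtQzP : Prop := ∀ (k : ℕ) (z : ℝ), 1 ≤ k → 4 ≤ z → (k : ℝ) ≤ z ^ (2 / 5 : ℝ) →
  (∀ j j', j ≠ j' → Disjoint (Qz z j) (Qz z j')) ∧
  (∀ j, ∀ q ∈ Qz z j, q.Prime ∧ k ≤ q ∧ 1 ≤ q ∧ 2 * (k : ℝ) ≤ q ∧ (q : ℝ) ≤ z ^ 2 ^ (j + 1)) ∧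
  (∀ j, ∀ q ∈ Qz z j, (z ^ 2 ^ j) ^ (2 / 5 : ℝ) ≤ orderOf (2 : ZMod q)) ∧
  (∀ i, Adm k (∏ q ∈ QU (Qz z) i, (q - 1)) (QU (Qz z) i)) ∧
  (∀ R i, ∏ j ∈ range i, (1 + ∑ q ∈ Qz z j, (q : ℝ)) ^ (2 * R) ≤ (z ^ 2 ^ i) ^ (8 * R))

/-- **Cx.**  (uses Exc, BSum, QzP) the exceptional set of scale `i`.
Proof: Exc with `Q = QU (Qz z) (i+1)`, `E = En`, `γ = ga`, `r = 2R(i+1)`, `K = (z^(2^i))^(2/5)`,
`C = exp k` and the two bounds of BSum (`∑_{QU} 1/q ≤ i + 1`, `|U| ≤ 2R(i+1) n`);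
`∏_{j ≤ i} (...)^(2R) ≤ (z^(2^(i+1)))^(8R) = (z^(2^i))^(16R)`.  Sets in `En` contain a prime of `Qs i`. -/
def StmtCx : Prop := ∀ (k R i n M X : ℕ) (z τ : ℝ), 1 ≤ k → 1 ≤ R → 4 ≤ z →
  (k : ℝ) ≤ z ^ (2 / 5 : ℝ) → (∀ j, ∑ p ∈ Qz z j, (1 : ℝ) / p ≤ 1) → 0 < τ → Even n →
  (((Ioc M (M + X)).filter fun m =>
      τ < |Y k R (∏ q ∈ QU (Qz z) (i + 1), (q - 1)) (Qz z) i m|).card : ℝ) * τ ^ n ≤
    X * (Real.sqrt (2 * k / (z ^ 2 ^ i) ^ (2 / 5 : ℝ)) * (Real.exp k ^ (i + 1) *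
      (1 + (2 * R * (i + 1) * n : ℝ) + 2 * k * (i + 1)) ^ (2 * R * (i + 1)))) ^ n +
    2 * (Real.exp k ^ (i + 1) * (z ^ 2 ^ i) ^ (16 * R)) ^ n

/-- **YL.**  (uses AvgP, QzP) `Y` and `w` do not depend on the common period `L`.
Proof: all `∏_{q ∈ e} g k q a m`, `e ⊆ Q`, have period `∏_{q ∈ Q} (q-1)`-divisors in `a`: AvgP. -/
def StmtYL : Prop := ∀ (k R i L L' m : ℕ) (Qs : ℕ → Finset ℕ), Adm k L (QU Qs (i + 1)) →
  Adm k L' (QU Qs (i + 1)) → Y k R L Qs i m = Y k R L' Qs i m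

/-- **Cw.**  (uses Rec, CfB, WinF, Cnt, QzP, YL) windows of exponents for a non-exceptional `m`.
Proof: all means are taken with `L = ∏_{q ∈ QU (Qz z) J} (q-1)` (YL for `j < J`).  Put
`c_j = cf (Qs j) ∅`: by CfB and `1 - x ≤ exp (-x)`, `1 - x ≥ exp (-2x)` for `0 ≤ x ≤ 1/2`:
`exp (-2k) ≤ c_j ≤ exp (-k ∑ 1/q) + k^(2R+1)/(2R+1)! ≤ θ`.  With `V_j = ∏_{l<j} c_l`:
`w_j ≤ V_j (2 - 2^(-j))` by induction with Rec: `w_(j+1) ≤ c_j V_j (2 - 2^(-j)) + τ_j`,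
`τ_j = (exp (-2k)/2)^(j+1) ≤ V_(j+1) 2^(-(j+1))`.  So `w_J ≤ 2 θ^J`.  WinF and Cnt (with
`⌊z^(2^J)⌋₊` for the bound of the primes) finish. -/
def StmtCw : Prop := ∀ (k R J a N m : ℕ) (z θ : ℝ), 1 ≤ k → 1 ≤ R → 4 ≤ z → 1 ≤ m →
  (k : ℝ) ≤ z ^ (2 / 5 : ℝ) → (∀ j, ∑ p ∈ Qz z j, (1 : ℝ) / p ≤ 1) →
  (∀ j, Real.exp (-(k * ∑ p ∈ Qz z j, (1 : ℝ) / p)) +
    (k : ℝ) ^ (2 * R + 1) / (2 * R + 1).factorial ≤ θ) →
  (∀ j < J, |Y k R (∏ q ∈ QU (Qz z) (j + 1), (q - 1)) (Qz z) j m| ≤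
    (Real.exp (-(2 * k)) / 2) ^ (j + 1)) →
  (((Ico a (a + N)).filter fun b => ∀ t < k, (m * 2 ^ (b + t) + 1).Prime).card : ℝ) ≤
    2 * N * θ ^ J + 2 * (z ^ 2 ^ J) ^ (8 * R) + (Nat.log 2 ⌊z ^ 2 ^ J⌋₊ + 1)

/-- **Num.**  (pure real analysis) the choice of the parameters for the exceptional sets.
`ℓ = log X`, `z = ℓ^(100 R)`; for every scale with `log (z^(2^i)) ≤ ℓ/(80 R)` the even number
`n = 2 ⌊ℓ / (80 R log (z^(2^i)))⌋` gives at most `3 X^(1 - 1/(800 R))` exceptional `m`.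
Proof: let `Z = z^(2^i)`, `log Z = 100 R 2^i log ℓ`, `i + 1 ≤ 2^i ≤ ℓ`, `n ≥ 2`, `n ≥ ℓ/(80 R log Z)`,
`n log Z ≤ ℓ/(40 R)`, `1 + 2R(i+1)n + 2k(i+1) ≤ ℓ^2`.  (1) the bracket of the first term divided by
`τ = (exp (-2k)/2)^(i+1)` is at most `exp (-(log Z)/10)`: its logarithm is
`(i+1)(2k + log 2) + ½ log (2k) - (1/5) log Z + k (i+1) + 2R(i+1) 2 log ℓ`, and
`(1/10) log Z = 10 R 2^i log ℓ ≥ 10 R (i+1) log ℓ`; so first term `≤ X exp (-n log Z/10) ≤ X^(1-1/(800R))`.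
(2) second term: `(exp k^(i+1) Z^(16R) / τ)^n ≤ (Z^(17R))^n·...`, with `(exp (3k) 2)^(i+1) ≤ Z`:
`≤ Z^(17 R n) ≤ exp (17 ℓ/40) ≤ X^(1/2) ≤ X^(1-1/(800R))`. -/
def StmtNum : Prop := ∀ (k R : ℕ), 1 ≤ k → 1 ≤ R → ∃ X₀ : ℕ, ∀ X : ℕ, X₀ ≤ X → ∀ i : ℕ,
  Real.log ((Real.log X ^ (100 * R)) ^ 2 ^ i) ≤ Real.log X / (80 * R) → ∃ n : ℕ, Even n ∧
  X * (Real.sqrt (2 * k / ((Real.log X ^ (100 * R)) ^ 2 ^ i) ^ (2 / 5 : ℝ)) * (Real.exp k ^ (i + 1) *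
      (1 + (2 * R * (i + 1) * n : ℝ) + 2 * k * (i + 1)) ^ (2 * R * (i + 1)))) ^ n +
    2 * (Real.exp k ^ (i + 1) * ((Real.log X ^ (100 * R)) ^ 2 ^ i) ^ (16 * R)) ^ n ≤
    3 * (X : ℝ) ^ (1 - 1 / (800 * R : ℝ)) * ((Real.exp (-(2 * k)) / 2) ^ (i + 1)) ^ n

/-- **Num2.**  (pure real analysis) the choice of the number of scales for a window.
`ℓ = log X`, `ℓ₂ = log ℓ`, `z = ℓ^(100R)`, `Z J = z^(2^J)`.
Given `0 ≤ θ ≤ 2^(-(k-η/2))`, there are `A` and `X₀` such that for `X ≥ X₀` and `N ≥ ℓ^A` there is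
`J` with `log (Z J) ≤ ℓ/(80R)` (so all scales `j < J` are controlled) and
`2 N θ^J + 2 (Z J)^(8R) + log₂ (Z J) + 1 ≤ N (ℓ₂/log min(N,X))^(k-η)`.
Proof: `J` = the largest integer with `log (Z J) ≤ ℓ/(80R)` and `(Z J)^(32R) ≤ N` (`J = 0` is
admissible for `A ≥ 3200 R²`, and the set is bounded).  By maximality
`2^J ≥ c log min(N,X)/ℓ₂` with `c = 1/(2·100R·80R)` (`log (Z (J+1)) = 100 R 2^(J+1) ℓ₂` exceeds
`ℓ/(80R)` or `(log N)/(32R)`).  So `θ^J ≤ (2^J)^(-(k-η/2)) ≤ (ℓ₂/(c log min))^(k-η/2)`, and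
`2 (ℓ₂/(c log min))^(k-η/2) ≤ ½ (ℓ₂/log min)^(k-η)` because `log N/ℓ₂ ≥ A` and `ℓ/ℓ₂ → ∞`.
The other terms are at most `N^(1/4)·4 ≤ ½ N (1/log N)^k ≤ ½ N (ℓ₂/log min)^(k-η)` (`ℓ₂ ≥ 1`). -/
def StmtNum2 : Prop := ∀ (k R : ℕ) (η θ : ℝ), 1 ≤ k → 1 ≤ R → 0 < η → η < 1 → 0 ≤ θ →
  θ ≤ 2 ^ (-((k : ℝ) - η / 2)) → ∃ A : ℝ, 0 < A ∧ ∃ X₀ : ℕ, ∀ X : ℕ, X₀ ≤ X →
  ∀ N : ℕ, Real.log X ^ A ≤ N → ∃ J : ℕ,
    Real.log ((Real.log X ^ (100 * R)) ^ 2 ^ J) ≤ Real.log X / (80 * R) ∧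
    2 * N * θ ^ J + 2 * ((Real.log X ^ (100 * R)) ^ 2 ^ J) ^ (8 * R) +
        (Nat.log 2 ⌊(Real.log X ^ (100 * R)) ^ 2 ^ J⌋₊ + 1) ≤
      N * (Real.log (Real.log X) / Real.log (min N X : ℕ)) ^ ((k : ℝ) - η)

/-- **Theta.**  (real analysis) the choice of `R` and of the accuracy `ε` in Scal.
Proof: `exp (-k (log 2 - ε)) = 2^(-k) exp (k ε)`, choose `ε` with `exp (k ε) ≤ (1 + 2^(η/2))/2` and `R` with
`k^(2R+1)/(2R+1)! ≤ 2^(-k) (2^(η/2) - 1)/2` (`FloorSemiring.tendsto_pow_div_factorial_atTop`). -/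
def StmtTheta : Prop := ∀ (k : ℕ) (η : ℝ), 1 ≤ k → 0 < η → ∃ (R : ℕ) (ε : ℝ), 1 ≤ R ∧ 0 < ε ∧
  ∀ s : ℝ, Real.log 2 - ε ≤ s → Real.exp (-(k * s)) +
    (k : ℝ) ^ (2 * R + 1) / (2 * R + 1).factorial ≤ 2 ^ (-((k : ℝ) - η / 2))

/-- **Final.**  (uses Cx, Cw, Num, Num2, Theta, Scal) the theorem.
Proof: `η < 1` without loss of generality (the bound is monotone in `η` because the base is `≤ 1` for
`X` large ... or take `min η (1/2)`).  Theta gives `R, ε`, Scal the scale bounds for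
`z = (log X)^(100R) ≥ z₀`.  `E` = union over the `i` with `log (z^(2^i)) ≤ ℓ/(80R)` (at most `ℓ` of them)
of the exceptional sets of scale `i` with `τ = (exp (-2k)/2)^(i+1)` and `n` from Num:
`|E| ≤ ℓ · 3 X^(1-1/(800R)) ≤ X^(1-1/(900R))`.  For `m ∉ E` and `N ≥ ℓ^A` take `J` from Num2 and apply Cw
(`j < J` implies `log (z^(2^j)) ≤ log (z^(2^J)) ≤ ℓ/(80R)`). -/
def StmtFinal : Prop := ∀ (k : ℕ) (η : ℝ), 1 ≤ k → 0 < η → η < 1 → ∃ A δ : ℝ, 0 < A ∧ 0 < δ ∧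
  ∃ X₀ : ℕ, ∀ X : ℕ, X₀ ≤ X → ∀ M : ℕ, ∃ E : Finset ℕ, (E.card : ℝ) ≤ (X : ℝ) ^ (1 - δ) ∧
  ∀ m : ℕ, M < m → m ≤ M + X → m ∉ E → ∀ a N : ℕ, Real.log X ^ A ≤ N →
    (((Ico a (a + N)).filter fun b => ∀ t < k, (m * 2 ^ (b + t) + 1).Prime).card : ℝ) ≤
      N * (Real.log (Real.log X) / Real.log (min N X : ℕ)) ^ ((k : ℝ) - η)

end Pool.Agent.Lib.MP_9f2731_nt.BT
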