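import Pool.Agent.Lib.MP_9f2731_nt.BT.Spec

namespace Pool.Agent.Lib.MP_9f2731_nt.BT

open Finset

private lemma wind_per {D : ℕ} {f : ℕ → ℝ} (h : ∀ x, f (x + D) = f x) (c x : ℕ) :
    f (D * c + x) = f x := by
  induction c with
  | zero => simp
  | succ c ih =>
    rw [show D * (c + 1) + x = (D * c + x) + D by ring, h, ih]

private lemma wind_sum {D : ℕ} {f : ℕ → ℝ} (h : ∀ x, f (x + D) = f x) (c : ℕ) :
    ∑ x ∈ range (D * c), f x = c * ∑ x ∈ range D, f x := by
  induction c with
  | zero => simp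
  | succ c ih =>
    rw [Nat.mul_succ, sum_range_add, ih]
    simp_rw [wind_per h c]
    push_cast
    ring

private lemma wind_shift {D : ℕ} {f : ℕ → ℝ} (h : ∀ x, f (x + D) = f x) (u : ℕ) :
    ∑ x ∈ range D, f (u + x) = ∑ x ∈ range D, f x := by
  induction u with
  | zero => simp
  | succ u ih =>
    rw [← ih]
    have h1 : ∑ x ∈ range (D + 1), f (u + x) = ∑ x ∈ range D, f (u + x) + f (u + D) :=
      sum_range_succ _ _
    have h2 : ∑ x ∈ range (D + 1), f (u + x) = ∑ x ∈ range D, f (u + (x + 1)) + f (u + 0) :=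
      sum_range_succ' _ _
    rw [h u] at h1
    rw [add_zero] at h2
    have h3 : ∑ x ∈ range D, f (u + 1 + x) = ∑ x ∈ range D, f (u + (x + 1)) := by
      apply sum_congr rfl
      intro x _
      congr 1
      ring
    rw [h3]
    linarith

theorem tWind (hAvgP : StmtAvgP) : StmtWind := by
  intro D L u N f hD hDL hL h hf
  rw [hAvgP D L f hD hDL hL h]
  rw [sum_Ico_eq_sum_range, Nat.add_sub_cancel_left]
  have h' : ∀ x, (fun x => f (u + x)) (x + D) = (fun x => f (u + x)) x := by
    intro x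
    dsimp only
    rw [← add_assoc, h]
  have hN : N = D * (N / D) + N % D := (Nat.div_add_mod N D).symm
  set c := N / D with hc
  set r := N % D with hr
  have hrD : r < D := Nat.mod_lt _ hD
  have hD' : (0 : ℝ) < D := by exact_mod_cast hD
  set S := ∑ x ∈ range D, f x with hS
  have hS1 : |S| ≤ D := by
    calc |S| ≤ ∑ x ∈ range D, |f x| := abs_sum_le_sum_abs _ _
      _ ≤ ∑ _x ∈ range D, (1 : ℝ) := sum_le_sum fun x _ => hf x
      _ = D := by rw [sum_const, card_range, nsmul_eq_mul, mul_one]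
  have e1 : ∑ x ∈ range N, f (u + x) = c * S + ∑ x ∈ range r, f (u + (D * c + x)) := by
    rw [hN, sum_range_add]
    have e2 := wind_sum (f := fun x => f (u + x)) (D := D) h' c
    rw [e2, wind_shift h u]
  have e3 : |∑ x ∈ range r, f (u + (D * c + x))| ≤ r := by
    calc |∑ x ∈ range r, f (u + (D * c + x))| ≤ ∑ x ∈ range r, |f (u + (D * c + x))| :=
          abs_sum_le_sum_abs _ _
      _ ≤ ∑ _x ∈ range r, (1 : ℝ) := sum_le_sum fun x _ => hf _
      _ = r := by rw [sum_const, card_range, nsmul_eq_mul, mul_one]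
  have hNr : (N : ℝ) = D * c + r := by
    conv_lhs => rw [hN]
    push_cast
    ring
  have e4 : (N : ℝ) * avg D f = c * S + r * (S / D) := by
    unfold avg
    rw [hNr, ← hS]
    field_simp
  rw [e1, e4]
  have e5 : |S / D| ≤ 1 := by
    rw [abs_div, abs_of_pos hD', div_le_one hD']
    exact hS1
  have e6 : |(r : ℝ) * (S / D)| ≤ r := by
    rw [abs_mul, abs_of_nonneg (Nat.cast_nonneg r)]
    calc (r : ℝ) * |S / D| ≤ r * 1 := mul_le_mul_of_nonneg_left e5 (Nat.cast_nonneg r)
      _ = r := mul_one _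
  have hrD' : (r : ℝ) ≤ D := by exact_mod_cast hrD.le
  rw [show (c : ℝ) * S + ∑ x ∈ range r, f (u + (D * c + x)) - (c * S + r * (S / D)) =
    ∑ x ∈ range r, f (u + (D * c + x)) - r * (S / D) by ring]
  calc _ ≤ |∑ x ∈ range r, f (u + (D * c + x))| + |(r : ℝ) * (S / D)| := abs_sub _ _
    _ ≤ 2 * D := by linarith

end Pool.Agent.Lib.MP_9f2731_nt.BT
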